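import Mathlib
import Pool.Agent.H713R2.Area

set_option autoImplicit false

open Complex Topology Filter Metric MeasureTheory Set

namespace Pool.Agent.H713R2.AR

open Pool.Agent.H713R2

/-- Data of an exterior map in the coordinate `x = 1 / w`. -/
structure IsExt (R : ℝ) (g : ℂ → ℂ) : Prop where
  diff : DifferentiableOn ℂ g (ball 0 R)
  zero : g 0 = 1
  inj : ∀ x ∈ ball (0 : ℂ) R, ∀ y ∈ ball (0 : ℂ) R, x ≠ 0 → y ≠ 0 →
    x⁻¹ * g x = y⁻¹ * g y → x = y

/-- The image of the exterior of a disc. -/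
def UU (g : ℂ → ℂ) (ρ : ℝ) : Set ℂ := (fun x => x⁻¹ * g x) '' {x | x ≠ 0 ∧ ‖x‖ < ρ}

/-- The twice `i` times d-bar operator. -/
noncomputable def GG (F : ℂ → ℂ) (z : ℂ) : ℂ := I * fderiv ℝ F z 1 - fderiv ℝ F z I

theorem GG_lin (L : ℂ →L[ℝ] ℂ) (a : ℂ) :
    a * (I * L a - L (I * a)) = ((‖a‖ ^ 2 : ℝ) : ℂ) * (I * L 1 - L I) := by
  have h1 : L a = a.re * L 1 + a.im * L I := by
    have : a = a.re • (1 : ℂ) + a.im • I := by
      rw [real_smul, real_smul, mul_one]; exact (re_add_im a).symm
    conv_lhs => rw [this]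
    rw [map_add, map_smul, map_smul, real_smul, real_smul]
  have h2 : L (I * a) = -a.im * L 1 + a.re * L I := by
    have : I * a = (-a.im) • (1 : ℂ) + a.re • I := by
      rw [real_smul, real_smul, mul_one]
      apply Complex.ext <;> simp
    rw [this, map_add, map_smul, map_smul, real_smul, real_smul]
    push_cast; ring
  have h3 : ((‖a‖ ^ 2 : ℝ) : ℂ) = (a.re : ℂ) ^ 2 + (a.im : ℂ) ^ 2 := by
    rw [Complex.sq_norm, Complex.normSq_apply]; push_cast; ring
  have h4 : a = a.re + a.im * I := (re_add_im a).symm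
  rw [h1, h2, h3]
  generalize L 1 = u
  generalize L I = v
  generalize (a.re : ℂ) = p at *
  generalize (a.im : ℂ) = q at *
  rw [h4]
  have hI : I * I = -1 := I_mul_I
  linear_combination (p * q * u + q ^ 2 * v + p * q * u) * hI - (p*q*u) * hI + 0 * hI

/-- The integral of a derivative of a compactly supported function vanishes. -/
theorem integral_GG {F : ℂ → ℂ} (hF : ContDiff ℝ 1 F) (hc : HasCompactSupport F) :
    ∫ z, GG F z = 0 := by
  have hd : Differentiable ℝ F := hF.differentiable one_ne_zero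
  have hcont : ∀ v : ℂ, Continuous (fun z => fderiv ℝ F z v) := fun v =>
    (hF.continuous_fderiv one_ne_zero).clm_apply continuous_const
  have hsupp : ∀ v : ℂ, HasCompactSupport (fun z => fderiv ℝ F z v) := fun v => by
    apply (hc.fderiv (𝕜 := ℝ)).comp_left (g := fun L : ℂ →L[ℝ] ℂ => L v)
    simp
  have hint : ∀ v : ℂ, Integrable (fun z => fderiv ℝ F z v) := fun v =>
    (hcont v).integrable_of_hasCompactSupport (hsupp v)
  have hzero : ∀ v : ℂ, ∫ z, fderiv ℝ F z v = 0 := by
    intro v
    have h := integral_bilinear_hasLineDerivAt_right_eq_neg_left_of_integrable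
      (μ := (volume : Measure ℂ)) (B := ContinuousLinearMap.mul ℝ ℂ) (v := v)
      (f := fun _ : ℂ => (1 : ℂ)) (f' := fun _ => 0) (g := F) (g' := fun z => fderiv ℝ F z v)
      (by simp) (by simpa using hint v)
      (by simpa using (hF.continuous.integrable_of_hasCompactSupport hc))
      (fun x _ => by simpa using (hasFDerivAt_const (𝕜 := ℝ) (1 : ℂ) x).hasLineDerivAt v)
      (fun x _ => (hd x).hasFDerivAt.hasLineDerivAt v)
    simpa using h
  unfold GG
  rw [integral_sub ((hint 1).const_mul I) (hint I), integral_const_mul, hzero, hzero]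
  simp

end Pool.Agent.H713R2.AR
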