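import Mathlib
import Pool.Agent.H713R2.AR.AF1
import Pool.Agent.Helper202.Univ

set_option autoImplicit false

open Complex Topology Filter Metric MeasureTheory Set

namespace Pool.Agent.H713R2.AR

open Pool.Agent.H713R2

theorem exists_large {R ρ : ℝ} {g : ℂ → ℂ} (hg : IsExt R g) (hρ : 0 < ρ) (hρR : ρ ≤ R) :
    ∃ S : ℝ, 0 < S ∧ ∀ z : ℂ, S < ‖z‖ → z ∈ UU g ρ := by
  have hgd : DifferentiableAt ℂ g 0 := hg.diff.differentiableAt (ball_mem_nhds 0 (hρ.trans_le hρR))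
  have hga : ∀ᶠ x in 𝓝 (0 : ℂ), DifferentiableAt ℂ g x := by
    filter_upwards [ball_mem_nhds (0 : ℂ) (hρ.trans_le hρR)] with x hx
    exact hg.diff.differentiableAt (isOpen_ball.mem_nhds hx)
  have h0 : g 0 ≠ 0 := by rw [hg.zero]; exact one_ne_zero
  have hne : ∀ᶠ x in 𝓝 (0 : ℂ), g x ≠ 0 := hgd.continuousAt.eventually_ne h0
  set χ : ℂ → ℂ := fun x => x / g x with hχ
  have hχd : ∀ᶠ x in 𝓝 (0 : ℂ), DifferentiableAt ℂ χ x := by
    filter_upwards [hga, hne] with x h1 h2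
    exact differentiableAt_id.div h1 h2
  have hχa : AnalyticAt ℂ χ 0 := Complex.analyticAt_iff_eventually_differentiableAt.mpr hχd
  have hχ1 : HasDerivAt χ 1 0 := by
    have := (hasDerivAt_id (0 : ℂ)).div hgd.hasDerivAt h0
    simpa [hg.zero] using! this
  have hs : HasStrictDerivAt χ 1 0 := by
    have := hχa.hasStrictDerivAt
    rwa [hχ1.deriv] at this
  have hmap := hs.map_nhds_eq one_ne_zero
  have hχ0 : χ 0 = 0 := by simp [hχ]
  rw [hχ0] at hmap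
  have h1 : χ '' (ball 0 ρ ∩ {x | g x ≠ 0}) ∈ 𝓝 (0 : ℂ) := by
    rw [← hmap]
    exact image_mem_map (inter_mem (ball_mem_nhds 0 hρ) hne)
  obtain ⟨δ, hδ, hsub⟩ := Metric.mem_nhds_iff.mp h1
  refine ⟨δ⁻¹, inv_pos.mpr hδ, fun z hz => ?_⟩
  have hz0 : 0 < ‖z‖ := (inv_pos.mpr hδ).trans hz
  have hzne : z ≠ 0 := norm_pos_iff.mp hz0
  obtain ⟨x, ⟨hx, hgx⟩, hxz⟩ := hsub (show z⁻¹ ∈ ball (0 : ℂ) δ by
    rw [mem_ball_zero_iff, norm_inv]
    exact inv_lt_of_inv_lt₀ hδ hz)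
  have hx0 : x ≠ 0 := by
    rintro rfl
    rw [hχ0] at hxz
    exact (inv_ne_zero hzne) hxz.symm
  refine ⟨x, ⟨hx0, mem_ball_zero_iff.mp hx⟩, ?_⟩
  have h2 : x / g x = z⁻¹ := hxz
  change x⁻¹ * g x = z
  have h3 : (x / g x)⁻¹ = z := by rw [h2, inv_inv]
  rw [← h3, inv_div, div_eq_inv_mul]

theorem isOpen_UU {R ρ : ℝ} {g : ℂ → ℂ} (hg : IsExt R g) (hρR : ρ ≤ R) :
    IsOpen (UU g ρ) := by
  set A : Set ℂ := {x | x ≠ 0 ∧ ‖x‖ < ρ} with hA
  have hAo : IsOpen A := isOpen_ne.inter (isOpen_lt continuous_norm continuous_const)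
  have hd : DifferentiableOn ℂ (fun x => x⁻¹ * g x) A := by
    intro x hx
    have hxR : x ∈ ball (0 : ℂ) R := mem_ball_zero_iff.mpr (hx.2.trans_le hρR)
    have h1 := hg.diff.differentiableAt (isOpen_ball.mem_nhds hxR)
    exact ((differentiableAt_inv hx.1).mul h1).differentiableWithinAt
  have hinj : InjOn (fun x => x⁻¹ * g x) A := fun x hx y hy h =>
    hg.inj x (mem_ball_zero_iff.mpr (hx.2.trans_le hρR)) y
      (mem_ball_zero_iff.mpr (hy.2.trans_le hρR)) hx.1 hy.1 h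
  exact Pool.Agent.Helper202.Univ.isOpen_image hAo hd hinj hAo subset_rfl

/-- The exterior map in the logarithmic coordinate. -/
noncomputable def Ps (g : ℂ → ℂ) (ζ : ℂ) : ℂ := Complex.exp (-ζ) * g (Complex.exp ζ)

theorem Ps_eq (g : ℂ → ℂ) (ζ : ℂ) : Ps g ζ = (Complex.exp ζ)⁻¹ * g (Complex.exp ζ) := by
  rw [Ps, Complex.exp_neg]

theorem Ps_periodic (g : ℂ → ℂ) (ζ : ℂ) : Ps g (ζ + 2 * Real.pi * I) = Ps g ζ := by
  rw [Ps_eq, Ps_eq, Complex.exp_add, Complex.exp_two_pi_mul_I, mul_one]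

theorem Ps_diff {R : ℝ} (hR : 0 < R) {g : ℂ → ℂ} (hg : IsExt R g) {ζ : ℂ}
    (hζ : ζ.re < Real.log R) : DifferentiableAt ℂ (Ps g) ζ := by
  have h1 : Complex.exp ζ ∈ ball (0 : ℂ) R := by
    rw [mem_ball_zero_iff, Complex.norm_exp]
    exact (Real.lt_log_iff_exp_lt hR).mp hζ
  have h2 := hg.diff.differentiableAt (isOpen_ball.mem_nhds h1)
  have h3 : DifferentiableAt ℂ (fun ζ => g (Complex.exp ζ)) ζ :=
    DifferentiableAt.comp ζ h2 Complex.differentiableAt_exp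
  have h4 : DifferentiableAt ℂ (fun ζ : ℂ => Complex.exp (-ζ)) ζ := by fun_prop
  exact h4.mul h3

end Pool.Agent.H713R2.AR
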