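import Mathlib
import Pool.Agent.H713R2.AR.AF2

set_option autoImplicit false

open Complex Topology Filter Metric MeasureTheory Set

namespace Pool.Agent.H713R2.AR

open Pool.Agent.H713R2

/-- Iterated integrals over rectangles. -/
theorem iterated_rect {h : ℂ → ℂ} {a b c d : ℝ} (hab : a ≤ b) (hcd : c ≤ d)
    (hi : IntegrableOn h (Icc a b ×ℂ Icc c d)) :
    ∫ x : ℝ in a..b, ∫ y : ℝ in c..d, h (x + y * I) = ∫ z in Ioo a b ×ℂ Ioo c d, h z := by
  have hpre : Complex.measurableEquivRealProd ⁻¹' (Ioo a b ×ˢ Ioo c d) = Ioo a b ×ℂ Ioo c d := rfl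
  have h1 := Complex.volume_preserving_equiv_real_prod.setIntegral_preimage_emb
    Complex.measurableEquivRealProd.measurableEmbedding
    (fun p : ℝ × ℝ => h (Complex.measurableEquivRealProd.symm p)) (Ioo a b ×ˢ Ioo c d)
  simp only [MeasurableEquiv.symm_apply_apply] at h1
  rw [hpre] at h1
  rw [h1, Measure.volume_eq_prod, setIntegral_prod]
  · rw [intervalIntegral.integral_of_le hab, integral_Ioc_eq_integral_Ioo]
    apply setIntegral_congr_fun measurableSet_Ioo
    intro x _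
    simp only
    rw [intervalIntegral.integral_of_le hcd, integral_Ioc_eq_integral_Ioo]
    apply setIntegral_congr_fun measurableSet_Ioo
    intro y _
    simp only
    congr 1
    exact (mk_eq_add_mul_I x y).symm
  · have h2 := (Complex.volume_preserving_equiv_real_prod.integrableOn_comp_preimage
      Complex.measurableEquivRealProd.measurableEmbedding
      (f := fun p : ℝ × ℝ => h (Complex.measurableEquivRealProd.symm p))
      (s := Ioo a b ×ˢ Ioo c d)).mp
    apply h2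
    rw [hpre]
    have h3 : (fun p : ℝ × ℝ => h (Complex.measurableEquivRealProd.symm p)) ∘
        Complex.measurableEquivRealProd = h := by
      funext z; simp
    rw [h3]
    apply hi.mono_set
    rintro z ⟨hz1, hz2⟩
    exact ⟨Ioo_subset_Icc_self hz1, Ioo_subset_Icc_self hz2⟩

theorem slit_null : volume (slitPlaneᶜ : Set ℂ) = 0 := by
  have h1 : (slitPlaneᶜ : Set ℂ) ⊆ (LinearMap.ker Complex.imLm : Set ℂ) := by
    intro z hz
    have h2 : ¬ (0 < z.re ∨ z.im ≠ 0) := hz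
    push Not at h2
    exact h2.2
  apply measure_mono_null h1
  apply Measure.addHaar_submodule
  intro h
  have h2 : I ∈ (⊤ : Submodule ℝ ℂ) := Submodule.mem_top
  rw [← h] at h2
  have h3 : (I : ℂ).im = 0 := h2
  simp at h3

/-- Stokes' formula for the pull back by the exterior map. -/
theorem rect_formula {R ρ ε : ℝ} (hε : 0 < ε) (hερ : ε < ρ) (hρR : ρ < R) {g : ℂ → ℂ}
    (hg : IsExt R g) {F : ℂ → ℂ} (hF : ContDiff ℝ 1 F)
    (hF0 : ∀ x : ℂ, x ≠ 0 → ‖x‖ ≤ ε → F (x⁻¹ * g x) = 0)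
    (hG0 : ∀ x : ℂ, x ≠ 0 → ‖x‖ ≤ ε → GG F (x⁻¹ * g x) = 0) :
    I * ∫ y : ℝ in (-Real.pi)..Real.pi, F (Ps g (Real.log ρ + y * I)) *
      deriv (Ps g) (Real.log ρ + y * I) = ∫ z in UU g ρ, GG F z := by
  have hpi := Real.pi_pos
  have hR : 0 < R := by linarith
  have hρ : 0 < ρ := by linarith
  set S : Set ℂ := {ζ : ℂ | ζ.re < Real.log R} with hS
  have hSo : IsOpen S := isOpen_lt Complex.continuous_re continuous_const
  have hPd : DifferentiableOn ℂ (Ps g) S := fun ζ hζ => (Ps_diff hR hg hζ).differentiableWithinAt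
  have hP1 : ∀ ζ ∈ S, HasDerivAt (Ps g) (deriv (Ps g) ζ) ζ := fun ζ hζ =>
    (hPd.differentiableAt (hSo.mem_nhds hζ)).hasDerivAt
  have hP2 : ∀ ζ ∈ S, HasDerivAt (deriv (Ps g)) (deriv (deriv (Ps g)) ζ) ζ := fun ζ hζ =>
    ((hPd.deriv hSo).differentiableAt (hSo.mem_nhds hζ)).hasDerivAt
  have hFd : Differentiable ℝ F := hF.differentiable one_ne_zero
  set f : ℂ → ℂ := fun ζ => F (Ps g ζ) * deriv (Ps g) ζ with hf
  set f' : ℂ → ℂ →L[ℝ] ℂ := fun ζ =>
    F (Ps g ζ) • ((ContinuousLinearMap.toSpanSingleton ℂ (deriv (deriv (Ps g)) ζ)).restrictScalars ℝ)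
    + (deriv (Ps g) ζ) • ((fderiv ℝ F (Ps g ζ)).comp
      ((ContinuousLinearMap.toSpanSingleton ℂ (deriv (Ps g) ζ)).restrictScalars ℝ)) with hf'
  have hfd : ∀ ζ ∈ S, HasFDerivAt f (f' ζ) ζ := by
    intro ζ hζ
    have h1 : HasFDerivAt (fun ζ => F (Ps g ζ)) ((fderiv ℝ F (Ps g ζ)).comp
      ((ContinuousLinearMap.toSpanSingleton ℂ (deriv (Ps g) ζ)).restrictScalars ℝ)) ζ :=
      (hFd (Ps g ζ)).hasFDerivAt.comp ζ ((hP1 ζ hζ).hasFDerivAt.restrictScalars ℝ)
    have h2 := (hP2 ζ hζ).hasFDerivAt.restrictScalars ℝ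
    exact h1.mul h2
  have hval : ∀ ζ, I • f' ζ 1 - f' ζ I = ((‖deriv (Ps g) ζ‖ ^ 2 : ℝ) : ℂ) * GG F (Ps g ζ) := by
    intro ζ
    have h1 := GG_lin (fderiv ℝ F (Ps g ζ)) (deriv (Ps g) ζ)
    simp only [hf', GG]
    rw [← h1]
    simp
    ring
  have hcont : ContinuousOn f S := fun ζ hζ => (hfd ζ hζ).continuousAt.continuousWithinAt
  have hGc : Continuous (GG F) := by
    unfold GG
    have h1 : ∀ v : ℂ, Continuous (fun z => fderiv ℝ F z v) := fun v =>
      (hF.continuous_fderiv one_ne_zero).clm_apply continuous_const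
    exact (continuous_const.mul (h1 1)).sub (h1 I)
  have hvc : ContinuousOn (fun ζ => ((‖deriv (Ps g) ζ‖ ^ 2 : ℝ) : ℂ) * GG F (Ps g ζ)) S := by
    have h1 : ContinuousOn (deriv (Ps g)) S := (hPd.deriv hSo).continuousOn
    have h2 : ContinuousOn (Ps g) S := hPd.continuousOn
    exact (Complex.continuous_ofReal.comp_continuousOn (h1.norm.pow 2)).mul
      (hGc.comp_continuousOn h2)
  have hlog : Real.log ε < Real.log ρ := Real.log_lt_log hε hερ
  have hlogR : Real.log ρ < Real.log R := Real.log_lt_log hρ hρR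
  have hsub : (Icc (Real.log ε) (Real.log ρ) ×ℂ Icc (-Real.pi) Real.pi) ⊆ S := by
    rintro ζ ⟨h1, _⟩
    exact lt_of_le_of_lt h1.2 hlogR
  have hcompact : IsCompact (Icc (Real.log ε) (Real.log ρ) ×ℂ Icc (-Real.pi) Real.pi) :=
    isCompact_Icc.reProdIm isCompact_Icc
  have hint : IntegrableOn (fun ζ => ((‖deriv (Ps g) ζ‖ ^ 2 : ℝ) : ℂ) * GG F (Ps g ζ))
      (Icc (Real.log ε) (Real.log ρ) ×ℂ Icc (-Real.pi) Real.pi) :=
    (hvc.mono hsub).integrableOn_compact hcompact
  have hu1 : uIcc (Real.log ε) (Real.log ρ) = Icc (Real.log ε) (Real.log ρ) := uIcc_of_le hlog.le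
  have hu2 : uIcc (-Real.pi) Real.pi = Icc (-Real.pi) Real.pi := uIcc_of_le (by linarith)
  have key := Complex.integral_boundary_rect_of_hasFDerivAt_real_off_countable f f'
    (Real.log ε + (-Real.pi : ℝ) * I) (Real.log ρ + (Real.pi : ℝ) * I) ∅ countable_empty ?_ ?_ ?_
  · have e1 : ((Real.log ε : ℂ) + (-Real.pi : ℝ) * I).re = Real.log ε := by simp
    have e2 : ((Real.log ε : ℂ) + (-Real.pi : ℝ) * I).im = -Real.pi := by simp
    have e3 : ((Real.log ρ : ℂ) + (Real.pi : ℝ) * I).re = Real.log ρ := by simp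
    have e4 : ((Real.log ρ : ℂ) + (Real.pi : ℝ) * I).im = Real.pi := by simp
    rw [e1, e2, e3, e4] at key
    -- the horizontal sides cancel
    have hper : ∀ x : ℝ, f (x + (-Real.pi : ℝ) * I) = f (x + (Real.pi : ℝ) * I) := by
      intro x
      have h1 : (x : ℂ) + (Real.pi : ℝ) * I = (x + (-Real.pi : ℝ) * I) + 2 * Real.pi * I := by
        push_cast; ring
      have h2 : ∀ ζ, deriv (Ps g) (ζ + 2 * Real.pi * I) = deriv (Ps g) ζ := by
        intro ζ
        have h3 : (fun ζ => Ps g (ζ + 2 * Real.pi * I)) = Ps g := by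
          funext ζ; exact Ps_periodic g ζ
        rw [← deriv_comp_add_const, h3]
      simp only [hf]
      rw [h1, Ps_periodic, h2]
    have hleft : ∀ y : ℝ, f (Real.log ε + y * I) = 0 := by
      intro y
      simp only [hf]
      rw [Ps_eq, hF0 _ (Complex.exp_ne_zero _) ?_, zero_mul]
      rw [Complex.norm_exp]
      simp [Real.exp_log hε]
    simp only [hval] at key
    simp only [hper, hleft, sub_self, zero_add, intervalIntegral.integral_zero,
      sub_zero, smul_eq_mul, mul_zero] at key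
    rw [iterated_rect hlog.le (by linarith) hint] at key
    rw [key]
    -- change of variables
    set O : Set ℂ := Ioo (Real.log ε) (Real.log ρ) ×ℂ Ioo (-Real.pi) Real.pi with hO
    have hOS : O ⊆ S := fun ζ hζ => lt_trans hζ.1.2 hlogR
    have hOm : MeasurableSet O := (isOpen_Ioo.reProdIm isOpen_Ioo).measurableSet
    have hnorm : ∀ ζ ∈ O, ε < ‖Complex.exp ζ‖ ∧ ‖Complex.exp ζ‖ < ρ := by
      intro ζ hζ
      rw [Complex.norm_exp]
      exact ⟨(Real.log_lt_iff_lt_exp hε).mp hζ.1.1, (Real.lt_log_iff_exp_lt hρ).mp hζ.1.2⟩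
    have hinj : InjOn (Ps g) O := by
      intro ζ hζ ζ' hζ' h
      rw [Ps_eq, Ps_eq] at h
      have h1 := hg.inj _ (mem_ball_zero_iff.mpr ((hnorm ζ hζ).2.trans hρR)) _
        (mem_ball_zero_iff.mpr ((hnorm ζ' hζ').2.trans hρR)) (Complex.exp_ne_zero _)
        (Complex.exp_ne_zero _) h
      exact Complex.exp_inj_of_neg_pi_lt_of_le_pi hζ.2.1 hζ.2.2.le hζ'.2.1 hζ'.2.2.le h1
    have hcv := integral_image_eq_integral_abs_det_fderiv_smul (volume : Measure ℂ) hOm
      (f := Ps g) (f' := fun ζ => (ContinuousLinearMap.toSpanSingleton ℂ (deriv (Ps g) ζ)).restrictScalars ℝ)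
      (fun ζ hζ => ((hP1 ζ (hOS hζ)).hasFDerivAt.restrictScalars ℝ).hasFDerivWithinAt) hinj (GG F)
    simp only [det_mul_real, abs_sq] at hcv
    have h5 : ∫ ζ in O, ((‖deriv (Ps g) ζ‖ ^ 2 : ℝ) : ℂ) * GG F (Ps g ζ) =
        ∫ z in Ps g '' O, GG F z := by
      rw [hcv]
      apply setIntegral_congr_fun hOm
      intro ζ _
      simp only [real_smul]
      try rw [abs_of_nonneg (sq_nonneg ‖deriv (Ps g) ζ‖)]
    rw [h5]
    symm
    apply setIntegral_eq_of_subset_of_ae_sdiff_eq_zero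
      (isOpen_UU hg hρR.le).measurableSet.nullMeasurableSet
    · rintro _ ⟨ζ, hζ, rfl⟩
      rw [Ps_eq]
      exact ⟨Complex.exp ζ, ⟨Complex.exp_ne_zero _, (hnorm ζ hζ).2⟩, rfl⟩
    · have hnull : volume ((fun x : ℂ => x⁻¹ * g x) '' ({x | x ≠ 0 ∧ ‖x‖ < ρ} ∩ slitPlaneᶜ)) = 0 := by
        apply addHaar_image_eq_zero_of_differentiableOn_of_addHaar_eq_zero
        · intro x hx
          have hxR : x ∈ ball (0 : ℂ) R := mem_ball_zero_iff.mpr (hx.1.2.trans hρR)
          have h1 := hg.diff.differentiableAt (isOpen_ball.mem_nhds hxR)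
          exact (((differentiableAt_inv hx.1.1).mul h1).restrictScalars ℝ).differentiableWithinAt
        · exact measure_mono_null inter_subset_right slit_null
      have hae := compl_mem_ae_iff.mpr hnull
      filter_upwards [hae] with z hz hzd
      obtain ⟨⟨x, ⟨hx0, hxρ⟩, rfl⟩, hzn⟩ := hzd
      simp only at hzn hz ⊢
      by_cases hxε : ‖x‖ ≤ ε
      · exact hG0 x hx0 hxε
      · exfalso
        push Not at hxε
        by_cases hxs : x ∈ slitPlane
        · apply hzn
          refine ⟨Complex.log x, ⟨⟨?_, ?_⟩, ⟨?_, ?_⟩⟩, ?_⟩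
          · rw [Complex.log_re]; exact Real.log_lt_log hε hxε
          · rw [Complex.log_re]; exact Real.log_lt_log (norm_pos_iff.mpr hx0) hxρ
          · rw [Complex.log_im]; exact Complex.neg_pi_lt_arg x
          · rw [Complex.log_im]
            exact lt_of_le_of_ne (Complex.arg_le_pi x) (Complex.mem_slitPlane_iff_arg.mp hxs).1
          · rw [Ps_eq, Complex.exp_log hx0]
        · exact hz ⟨x, ⟨⟨hx0, hxρ⟩, hxs⟩, rfl⟩
  · have e1 : ((Real.log ε : ℂ) + (-Real.pi : ℝ) * I).re = Real.log ε := by simp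
    have e2 : ((Real.log ε : ℂ) + (-Real.pi : ℝ) * I).im = -Real.pi := by simp
    have e3 : ((Real.log ρ : ℂ) + (Real.pi : ℝ) * I).re = Real.log ρ := by simp
    have e4 : ((Real.log ρ : ℂ) + (Real.pi : ℝ) * I).im = Real.pi := by simp
    rw [e1, e2, e3, e4, hu1, hu2]
    exact hcont.mono hsub
  · have e1 : ((Real.log ε : ℂ) + (-Real.pi : ℝ) * I).re = Real.log ε := by simp
    have e3 : ((Real.log ρ : ℂ) + (Real.pi : ℝ) * I).re = Real.log ρ := by simp
    rw [e1, e3]
    intro ζ hζ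
    apply hfd
    have := hζ.1.1.2
    rw [max_eq_right hlog.le] at this
    exact lt_trans this hlogR
  · have e1 : ((Real.log ε : ℂ) + (-Real.pi : ℝ) * I).re = Real.log ε := by simp
    have e2 : ((Real.log ε : ℂ) + (-Real.pi : ℝ) * I).im = -Real.pi := by simp
    have e3 : ((Real.log ρ : ℂ) + (Real.pi : ℝ) * I).re = Real.log ρ := by simp
    have e4 : ((Real.log ρ : ℂ) + (Real.pi : ℝ) * I).im = Real.pi := by simp
    rw [e1, e2, e3, e4, hu1, hu2]
    simp only [hval]
    exact hint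

end Pool.Agent.H713R2.AR
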