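import Mathlib
import Pool.Agent.H713R2.AR.AF3

set_option autoImplicit false

open Complex Topology Filter Metric MeasureTheory Set Polynomial

namespace Pool.Agent.H713R2.AR

open Pool.Agent.H713R2

/-- Fourier coefficients of a power series on a circle. -/
theorem integral_exp_tc' {F : ℂ → ℂ} {R r : ℝ} (hF : DifferentiableOn ℂ F (ball 0 R)) (hr : 0 < r)
    (hr1 : r < R) (k : ℕ) :
    ∫ θ in (-Real.pi)..Real.pi, Complex.exp (-(k * θ * I)) * F (circleMap 0 r θ) =
      2 * Real.pi * (tc F k * r ^ k) := by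
  have h1 := circleIntegral_tc hr hr1 hF k
  have hper : Function.Periodic
      (fun θ : ℝ => Complex.exp (-(k * θ * I)) * F (circleMap 0 r θ)) (2 * Real.pi) := by
    intro θ
    have h2 : circleMap 0 r (θ + 2 * Real.pi) = circleMap 0 r θ := periodic_circleMap 0 r θ
    have h3 : Complex.exp (-(k * ((θ + 2 * Real.pi : ℝ) : ℂ) * I)) = Complex.exp (-(k * θ * I)) := by
      have : -(k * ((θ + 2 * Real.pi : ℝ) : ℂ) * I) = -(k * θ * I) - k * (2 * Real.pi * I) := by
        push_cast; ring
      rw [this, Complex.exp_sub, Complex.exp_nat_mul_two_pi_mul_I, div_one]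
    simp only
    rw [h2, h3]
  have h4 := hper.intervalIntegral_add_eq (-Real.pi) 0
  rw [show -Real.pi + 2 * Real.pi = Real.pi by ring, zero_add] at h4
  rw [h4]
  rw [circleIntegral] at h1
  have h5 : ∀ θ : ℝ, deriv (circleMap 0 r) θ • (F (circleMap 0 r θ) / circleMap 0 r θ ^ (k + 1)) =
      (I / r ^ k) * (Complex.exp (-(k * θ * I)) * F (circleMap 0 r θ)) := by
    intro θ
    have hrC : (r : ℂ) ≠ 0 := by exact_mod_cast hr.ne'
    have h6 : circleMap 0 r θ = r * Complex.exp (θ * I) := by simp [circleMap]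
    have h7 : Complex.exp (-(k * θ * I)) = (Complex.exp (θ * I) ^ k)⁻¹ := by
      rw [← Complex.exp_nat_mul, ← Complex.exp_neg]
      congr 1; ring
    have h8 : Complex.exp (θ * I) ≠ 0 := Complex.exp_ne_zero _
    rw [deriv_circleMap, h7, smul_eq_mul]
    generalize F (circleMap 0 r θ) = v
    rw [h6, mul_pow]
    field_simp
    rw [pow_succ, pow_succ]
    ring
  simp only [h5] at h1
  rw [intervalIntegral.integral_const_mul] at h1
  have hrC : ((r : ℂ) ^ k) ≠ 0 := pow_ne_zero _ (by exact_mod_cast hr.ne')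
  have hI := I_ne_zero
  generalize (∫ θ in (0:ℝ)..(2 * Real.pi), Complex.exp (-(k * θ * I)) * F (circleMap 0 r θ)) = J
    at h1 ⊢
  have h9 : J = (r ^ k / I) * (I / r ^ k * J) := by field_simp
  rw [h9, h1]
  field_simp

/-- Parseval's formula on a circle. -/
theorem parseval_tc {H L : ℂ → ℂ} {R r : ℝ} (hH : DifferentiableOn ℂ H (ball 0 R))
    (hL : DifferentiableOn ℂ L (ball 0 R)) (hr : 0 < r) (hr1 : r < R) :
    HasSum (fun k => 2 * Real.pi * ((starRingEnd ℂ) (tc H k) * tc L k * (r : ℂ) ^ (2 * k)))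
      (∫ θ in (-Real.pi)..Real.pi, (starRingEnd ℂ) (H (circleMap 0 r θ)) * L (circleMap 0 r θ)) := by
  have hmem : ∀ θ : ℝ, circleMap 0 r θ ∈ ball (0 : ℂ) R := by
    intro θ
    rw [mem_ball_zero_iff, norm_circleMap_zero, abs_of_pos hr]
    exact hr1
  have hLc : Continuous (fun θ : ℝ => L (circleMap 0 r θ)) :=
    hL.continuousOn.comp_continuous (continuous_circleMap 0 r) hmem
  obtain ⟨C, hC⟩ := (isCompact_Icc (a := -Real.pi) (b := Real.pi)).exists_bound_of_continuousOn
      hLc.continuousOn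
  have hC0 : 0 ≤ C := (norm_nonneg _).trans (hC 0 ⟨by linarith [Real.pi_pos], Real.pi_pos.le⟩)
  have hsumr : Summable (fun k => ‖tc H k‖ * r ^ k) := by
    have h1 := summable_norm_tc hH (show (r : ℂ) ∈ ball (0 : ℂ) R by
      rw [mem_ball_zero_iff, Complex.norm_real, Real.norm_eq_abs, abs_of_pos hr]; exact hr1)
    refine h1.congr fun k => ?_
    rw [norm_mul, norm_pow, Complex.norm_real, Real.norm_eq_abs, abs_of_pos hr]
  have h := intervalIntegral.hasSum_integral_of_dominated_convergence
    (μ := volume) (a := -Real.pi) (b := Real.pi)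
    (F := fun k θ => ((starRingEnd ℂ) (tc H k) * r ^ k) *
      (Complex.exp (-(k * θ * I)) * L (circleMap 0 r θ)))
    (f := fun θ => (starRingEnd ℂ) (H (circleMap 0 r θ)) * L (circleMap 0 r θ))
    (fun k _ => ‖tc H k‖ * r ^ k * C) ?_ ?_ ?_ ?_ ?_
  · have h2 : (fun k : ℕ => ∫ θ in (-Real.pi)..Real.pi, ((starRingEnd ℂ) (tc H k) * r ^ k) *
        (Complex.exp (-(k * θ * I)) * L (circleMap 0 r θ))) =
        fun k => 2 * Real.pi * ((starRingEnd ℂ) (tc H k) * tc L k * (r : ℂ) ^ (2 * k)) := by
      funext k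
      rw [intervalIntegral.integral_const_mul, integral_exp_tc' hL hr hr1 k]
      ring
    rw [← h2]
    exact h
  · intro k
    apply Continuous.aestronglyMeasurable
    apply continuous_const.mul
    apply Continuous.mul _ hLc
    fun_prop
  · intro k
    refine Filter.Eventually.of_forall fun θ hθ => ?_
    rw [uIoc_of_le (by linarith [Real.pi_pos])] at hθ
    have h1 := hC θ (Ioc_subset_Icc_self hθ)
    have h2 : ‖Complex.exp (-(k * θ * I))‖ = 1 := by
      rw [show (-((k : ℂ) * θ * I)) = ((-(k * θ) : ℝ) : ℂ) * I by push_cast; ring]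
      exact Complex.norm_exp_ofReal_mul_I _
    rw [norm_mul, norm_mul, norm_mul, h2, one_mul, RCLike.norm_conj, norm_pow, Complex.norm_real,
      Real.norm_eq_abs, abs_of_pos hr]
    exact mul_le_mul_of_nonneg_left h1 (by positivity)
  · exact Filter.Eventually.of_forall fun θ _ => hsumr.mul_right C
  · exact intervalIntegrable_const
  · refine Filter.Eventually.of_forall fun θ _ => ?_
    have h1 := (hasSum_tc hH (hmem θ)).map (starRingEnd ℂ) Complex.continuous_conj
    have h2 := h1.mul_right (L (circleMap 0 r θ))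
    have h3 : (fun k : ℕ => ((starRingEnd ℂ) (tc H k) * r ^ k) *
        (Complex.exp (-(k * θ * I)) * L (circleMap 0 r θ))) =
        fun k => ((starRingEnd ℂ) ∘ fun k => tc H k * circleMap 0 r θ ^ k) k *
          L (circleMap 0 r θ) := by
      funext k
      simp only [Function.comp_apply, map_mul, map_pow]
      have h6 : (starRingEnd ℂ) (circleMap 0 r θ) = r * Complex.exp (-(θ * I)) := by
        simp [circleMap, ← Complex.exp_conj]
      rw [h6, mul_pow, ← Complex.exp_nat_mul]
      rw [show (k : ℂ) * -(θ * I) = -(k * θ * I) by ring]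
      ring
    rw [h3]
    exact h2

end Pool.Agent.H713R2.AR
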