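import Mathlib
import Pool.Agent.H713R2.AR.AF4

set_option autoImplicit false

open Complex Topology Filter Metric MeasureTheory Set Polynomial

namespace Pool.Agent.H713R2.AR

open Pool.Agent.H713R2

/-- The function used in Stokes' formula. -/
noncomputable def FF (Θ : ContDiffBump (0 : ℂ)) (Q : ℂ[X]) (z : ℂ) : ℂ :=
  (Θ z : ℂ) * ((starRingEnd ℂ) (Q.eval z) * (derivative Q).eval z)

theorem contDiff_FF (Θ : ContDiffBump (0 : ℂ)) (Q : ℂ[X]) : ContDiff ℝ 1 (FF Θ Q) := by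
  unfold FF
  have h1 : ContDiff ℝ 1 (fun z : ℂ => (Θ z : ℂ)) := Complex.ofRealCLM.contDiff.comp Θ.contDiff
  have h2 : ∀ P : ℂ[X], ContDiff ℝ 1 (fun z : ℂ => P.eval z) := fun P =>
    (P.differentiable.contDiff (n := 1)).restrict_scalars ℝ
  have h3 : ContDiff ℝ 1 (fun z : ℂ => (starRingEnd ℂ) (Q.eval z)) :=
    Complex.conjCLE.contDiff.comp (h2 Q)
  exact h1.mul (h3.mul (h2 _))

theorem GG_congr {F G : ℂ → ℂ} {z : ℂ} (h : F =ᶠ[𝓝 z] G) : GG F z = GG G z := by
  unfold GG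
  rw [h.fderiv_eq]

theorem GG_FF_out (Θ : ContDiffBump (0 : ℂ)) (Q : ℂ[X]) {z : ℂ} (hz : Θ.rOut < ‖z‖) :
    FF Θ Q z = 0 ∧ GG (FF Θ Q) z = 0 := by
  have h0 : ∀ w : ℂ, Θ.rOut < ‖w‖ → FF Θ Q w = 0 := by
    intro w hw
    unfold FF
    rw [Θ.zero_of_le_dist (by rw [dist_zero_right]; exact hw.le)]
    simp
  refine ⟨h0 z hz, ?_⟩
  have h1 : FF Θ Q =ᶠ[𝓝 z] fun _ => 0 := by
    have : {w : ℂ | Θ.rOut < ‖w‖} ∈ 𝓝 z :=
      (isOpen_lt continuous_const continuous_norm).mem_nhds hz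
    filter_upwards [this] with w hw using h0 w hw
  rw [GG_congr h1]
  simp [GG]

theorem GG_FF_in (Θ : ContDiffBump (0 : ℂ)) (Q : ℂ[X]) {z : ℂ} (hz : ‖z‖ < Θ.rIn) :
    FF Θ Q z = (starRingEnd ℂ) (Q.eval z) * (derivative Q).eval z ∧
      GG (FF Θ Q) z = 2 * I * ((‖(derivative Q).eval z‖ ^ 2 : ℝ) : ℂ) := by
  have h0 : ∀ w : ℂ, ‖w‖ < Θ.rIn →
      FF Θ Q w = (starRingEnd ℂ) (Q.eval w) * (derivative Q).eval w := by
    intro w hw
    unfold FF
    rw [Θ.one_of_mem_closedBall (by rw [mem_closedBall_zero_iff]; exact hw.le)]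
    simp
  refine ⟨h0 z hz, ?_⟩
  have h1 : FF Θ Q =ᶠ[𝓝 z] fun w => (starRingEnd ℂ) (Q.eval w) * (derivative Q).eval w := by
    have : {w : ℂ | ‖w‖ < Θ.rIn} ∈ 𝓝 z :=
      (isOpen_lt continuous_norm continuous_const).mem_nhds hz
    filter_upwards [this] with w hw using h0 w hw
  rw [GG_congr h1]
  have h2 : ∀ P : ℂ[X], HasFDerivAt (fun w : ℂ => P.eval w)
      ((ContinuousLinearMap.toSpanSingleton ℂ ((derivative P).eval z)).restrictScalars ℝ) z :=
    fun P => (P.hasDerivAt z).hasFDerivAt.restrictScalars ℝ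
  have h3 : HasFDerivAt (fun w : ℂ => (starRingEnd ℂ) (Q.eval w))
      ((Complex.conjCLE : ℂ →L[ℝ] ℂ).comp
        ((ContinuousLinearMap.toSpanSingleton ℂ ((derivative Q).eval z)).restrictScalars ℝ)) z :=
    (Complex.conjCLE : ℂ →L[ℝ] ℂ).hasFDerivAt.comp z (h2 Q)
  have h4 := h3.mul (h2 (derivative Q))
  have h4' : fderiv ℝ (fun w => (starRingEnd ℂ) (Q.eval w) * (derivative Q).eval w) z = _ :=
    h4.fderiv
  unfold GG
  rw [h4']
  simp
  have h5 : (((‖(derivative Q).eval z‖ : ℝ) : ℂ)) ^ 2 =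
      (starRingEnd ℂ) ((derivative Q).eval z) * (derivative Q).eval z := by
    rw [← Complex.ofReal_pow, Complex.sq_norm, Complex.normSq_eq_conj_mul_self]
  rw [h5]
  ring

/-- The area formula. -/
theorem area_formula {R ρ : ℝ} (hρ : 0 < ρ) (hρR : ρ < R) {g : ℂ → ℂ}
    (hg : IsExt R g) {Q : ℂ[X]} {D : ℕ} {H : ℂ → ℂ} (hH : DifferentiableOn ℂ H (ball 0 R))
    (hHQ : ∀ x ∈ ball (0 : ℂ) R, x ≠ 0 → H x = x ^ D * Q.eval (x⁻¹ * g x)) :
    HasSum (fun k : ℕ => ((D : ℝ) - k) * (‖tc H k‖ ^ 2 * ρ ^ (2 * k)))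
      (ρ ^ (2 * D) / Real.pi * ∫ z in (UU g ρ)ᶜ, ‖(derivative Q).eval z‖ ^ 2) ∧
    IntegrableOn (fun z => ‖(derivative Q).eval z‖ ^ 2) (UU g ρ)ᶜ := by
  have hR : 0 < R := hρ.trans hρR
  obtain ⟨S, hS, hSU⟩ := exists_large hg hρ hρR.le
  have hcompc : IsCompact (UU g ρ)ᶜ := by
    apply Metric.isCompact_of_isClosed_isBounded (isOpen_UU hg hρR.le).isClosed_compl
    apply (isBounded_closedBall (x := (0:ℂ)) (r := S)).subset
    intro z hz
    rw [mem_closedBall_zero_iff]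
    by_contra hcon
    push Not at hcon
    exact hz (hSU z hcon)
  have hcontQ : ∀ P : ℂ[X], Continuous (fun z : ℂ => P.eval z) := fun P => P.continuous
  have hIntQ : IntegrableOn (fun z => ‖(derivative Q).eval z‖ ^ 2) (UU g ρ)ᶜ :=
    (((hcontQ _).norm.pow 2).continuousOn).integrableOn_compact hcompc
  refine ⟨?_, hIntQ⟩
  -- the circle
  have hmem : ∀ θ : ℝ, circleMap 0 ρ θ ∈ ball (0 : ℂ) R := by
    intro θ
    rw [mem_ball_zero_iff, norm_circleMap_zero, abs_of_pos hρ]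
    exact hρR
  have hcm0 : ∀ θ : ℝ, circleMap 0 ρ θ ≠ 0 := fun θ => by
    intro h
    have := norm_circleMap_zero ρ θ
    rw [h, norm_zero, abs_of_pos hρ] at this
    linarith
  have hcirc : Continuous (fun θ : ℝ => (circleMap 0 ρ θ)⁻¹ * g (circleMap 0 ρ θ)) := by
    apply Continuous.mul
    · exact (continuous_circleMap 0 ρ).inv₀ hcm0
    · exact hg.diff.continuousOn.comp_continuous (continuous_circleMap 0 ρ) hmem
  obtain ⟨C, hC⟩ := (isCompact_Icc (a := -Real.pi) (b := Real.pi)).exists_bound_of_continuousOn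
      hcirc.continuousOn
  set S1 : ℝ := max S C + 1 with hS1
  have hS1S : S < S1 := by rw [hS1]; linarith [le_max_left S C]
  have hS1C : C < S1 := by rw [hS1]; linarith [le_max_right S C]
  have hS1p : 0 < S1 := hS.trans hS1S
  let Θ : ContDiffBump (0 : ℂ) := ⟨S1, S1 + 1, hS1p, by linarith⟩
  -- small x
  have hgc : ContinuousAt g 0 := (hg.diff.differentiableAt (ball_mem_nhds 0 hR)).continuousAt
  have hev : ∀ᶠ x in 𝓝 (0 : ℂ), 1 / 2 < ‖g x‖ := by
    have : Tendsto (fun x => ‖g x‖) (𝓝 0) (𝓝 ‖g 0‖) := hgc.norm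
    rw [hg.zero, norm_one] at this
    exact this.eventually (lt_mem_nhds (by norm_num))
  obtain ⟨δ, hδ, hδg⟩ := Metric.eventually_nhds_iff_ball.mp hev
  set ε : ℝ := min (min (δ / 2) (1 / (2 * (S1 + 2)))) (ρ / 2) with hεdef
  have hε : 0 < ε := by rw [hεdef]; positivity
  have hε1 : ε < δ := by
    have : ε ≤ δ / 2 := (min_le_left _ _).trans (min_le_left _ _)
    linarith
  have hε2 : ε ≤ 1 / (2 * (S1 + 2)) := (min_le_left _ _).trans (min_le_right _ _)
  have hε3 : ε < ρ := by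
    have : ε ≤ ρ / 2 := min_le_right _ _
    linarith
  have hbig : ∀ x : ℂ, x ≠ 0 → ‖x‖ ≤ ε → Θ.rOut < ‖x⁻¹ * g x‖ := by
    intro x hx0 hx
    have h1 : 1 / 2 < ‖g x‖ := hδg x (mem_ball_zero_iff.mpr (hx.trans_lt hε1))
    have hxp : 0 < ‖x‖ := norm_pos_iff.mpr hx0
    have h2 : ‖x‖ ≤ 1 / (2 * (S1 + 2)) := hx.trans hε2
    rw [norm_mul, norm_inv]
    change S1 + 1 < _
    have h3 : 2 * (S1 + 2) ≤ ‖x‖⁻¹ := by
      rw [le_inv_comm₀ (by positivity) hxp, ← one_div]; exact h2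
    nlinarith
  have hF := contDiff_FF Θ Q
  have hrect := rect_formula hε hε3 hρR hg hF
    (fun x hx0 hx => (GG_FF_out Θ Q (hbig x hx0 hx)).1)
    (fun x hx0 hx => (GG_FF_out Θ Q (hbig x hx0 hx)).2)
  have hcs : HasCompactSupport (FF Θ Q) := by
    apply HasCompactSupport.of_support_subset_isCompact (isCompact_closedBall (0 : ℂ) Θ.rOut)
    intro z hz
    rw [mem_closedBall_zero_iff]
    by_contra hcon
    push Not at hcon
    exact hz (GG_FF_out Θ Q hcon).1
  have hint0 := integral_GG hF hcs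
  have hGc : Continuous (GG (FF Θ Q)) := by
    unfold GG
    have h1 : ∀ v : ℂ, Continuous (fun z => fderiv ℝ (FF Θ Q) z v) := fun v =>
      (hF.continuous_fderiv one_ne_zero).clm_apply continuous_const
    exact (continuous_const.mul (h1 1)).sub (h1 I)
  have hGcs : HasCompactSupport (GG (FF Θ Q)) := by
    apply HasCompactSupport.of_support_subset_isCompact (isCompact_closedBall (0 : ℂ) Θ.rOut)
    intro z hz
    rw [mem_closedBall_zero_iff]
    by_contra hcon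
    push Not at hcon
    exact hz (GG_FF_out Θ Q hcon).2
  have hGi : Integrable (GG (FF Θ Q)) := hGc.integrable_of_hasCompactSupport hGcs
  have hUm : MeasurableSet (UU g ρ) := (isOpen_UU hg hρR.le).measurableSet
  have hsplit := integral_add_compl hUm hGi
  rw [hint0] at hsplit
  have hcompl : ∫ z in (UU g ρ)ᶜ, GG (FF Θ Q) z =
      2 * I * ((∫ z in (UU g ρ)ᶜ, ‖(derivative Q).eval z‖ ^ 2 : ℝ) : ℂ) := by
    rw [← integral_complex_ofReal, ← integral_const_mul]
    apply setIntegral_congr_fun hUm.compl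
    intro z hz
    have hz1 : ‖z‖ ≤ S := by
      by_contra hcon
      push Not at hcon
      exact hz (hSU z hcon)
    exact (GG_FF_in Θ Q (hz1.trans_lt hS1S)).2
  rw [hcompl, ← hrect] at hsplit
  -- the boundary integral
  set L : ℂ → ℂ := fun x => x * deriv H x - D * H x with hLdef
  have hL : DifferentiableOn ℂ L (ball 0 R) :=
    (differentiableOn_id.mul (hH.deriv isOpen_ball)).sub (hH.const_mul _)
  have hbd : ∫ y : ℝ in (-Real.pi)..Real.pi, FF Θ Q (Ps g (Real.log ρ + y * I)) *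
      deriv (Ps g) (Real.log ρ + y * I) =
      ((ρ : ℂ) ^ (2 * D))⁻¹ * ∫ θ in (-Real.pi)..Real.pi,
        (starRingEnd ℂ) (H (circleMap 0 ρ θ)) * L (circleMap 0 ρ θ) := by
    rw [← intervalIntegral.integral_const_mul]
    apply intervalIntegral.integral_congr
    intro θ hθ
    rw [uIcc_of_le (by linarith [Real.pi_pos])] at hθ
    simp only
    set ζ : ℂ := Real.log ρ + θ * I with hζ
    have hexp : Complex.exp ζ = circleMap 0 ρ θ := by
      rw [hζ, Complex.exp_add, ← Complex.ofReal_exp, Real.exp_log hρ, circleMap, zero_add]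
    have hre : ζ.re < Real.log R := by
      have : ζ.re = Real.log ρ := by simp [hζ]
      rw [this]
      exact Real.log_lt_log hρ hρR
    have hPs : Ps g ζ = (circleMap 0 ρ θ)⁻¹ * g (circleMap 0 ρ θ) := by rw [Ps_eq, hexp]
    have hnorm : ‖Ps g ζ‖ < Θ.rIn := by
      rw [hPs]
      exact (hC θ hθ).trans_lt hS1C
    rw [(GG_FF_in Θ Q hnorm).1]
    -- derivative of the composition
    have hd1 : HasDerivAt (Ps g) (deriv (Ps g) ζ) ζ := (Ps_diff hR hg hre).hasDerivAt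
    have hd2 : HasDerivAt (fun ζ => Q.eval (Ps g ζ)) ((derivative Q).eval (Ps g ζ) * deriv (Ps g) ζ) ζ :=
      (Q.hasDerivAt (Ps g ζ)).comp ζ hd1
    have hQe : ∀ ξ : ℂ, ξ.re < Real.log R →
        Q.eval (Ps g ξ) = Complex.exp (-(D * ξ)) * H (Complex.exp ξ) := by
      intro ξ hξ
      have h1 : Complex.exp ξ ∈ ball (0 : ℂ) R := by
        rw [mem_ball_zero_iff, Complex.norm_exp]
        exact (Real.lt_log_iff_exp_lt hR).mp hξ
      rw [hHQ _ h1 (Complex.exp_ne_zero _), Ps_eq, Complex.exp_neg, Complex.exp_nat_mul]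
      rw [inv_mul_cancel_left₀ (pow_ne_zero _ (Complex.exp_ne_zero _))]
    have hd3 : HasDerivAt (fun ξ => Complex.exp (-(D * ξ)) * H (Complex.exp ξ))
        (Complex.exp (-(D * ζ)) * L (circleMap 0 ρ θ)) ζ := by
      have h1 : HasDerivAt H (deriv H (Complex.exp ζ)) (Complex.exp ζ) := by
        rw [hexp]
        exact (hH.differentiableAt (isOpen_ball.mem_nhds (hmem θ))).hasDerivAt
      have h2 : HasDerivAt (fun ξ => H (Complex.exp ξ)) (deriv H (Complex.exp ζ) * Complex.exp ζ) ζ :=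
        h1.comp ζ (Complex.hasDerivAt_exp ζ)
      have h3 : HasDerivAt (fun ξ : ℂ => Complex.exp (-(D * ξ))) (Complex.exp (-(D * ζ)) * (-(D * 1))) ζ :=
        (((hasDerivAt_id ζ).const_mul (D : ℂ)).neg).cexp
      have h4 := h3.mul h2
      refine h4.congr_deriv ?_
      rw [hLdef, ← hexp]
      ring
    have heq : (fun ζ => Q.eval (Ps g ζ)) =ᶠ[𝓝 ζ] fun ξ => Complex.exp (-(D * ξ)) * H (Complex.exp ξ) := by
      have : {ξ : ℂ | ξ.re < Real.log R} ∈ 𝓝 ζ :=
        (isOpen_lt Complex.continuous_re continuous_const).mem_nhds hre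
      filter_upwards [this] with ξ hξ using hQe ξ hξ
    have hder : (derivative Q).eval (Ps g ζ) * deriv (Ps g) ζ =
        Complex.exp (-(D * ζ)) * L (circleMap 0 ρ θ) :=
      hd2.unique (hd3.congr_of_eventuallyEq heq)
    rw [mul_assoc, hder, hQe ζ hre, map_mul, hexp]
    have h9 : (starRingEnd ℂ) (Complex.exp (-(D * ζ))) * Complex.exp (-(D * ζ)) =
        ((ρ : ℂ) ^ (2 * D))⁻¹ := by
      rw [← Complex.normSq_eq_conj_mul_self, ← Complex.sq_norm, Complex.norm_exp]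
      have : (-(D * ζ)).re = -(D * Real.log ρ) := by simp [hζ]
      rw [this, Real.exp_neg, Real.exp_nat_mul, Real.exp_log hρ]
      push_cast
      rw [pow_mul, inv_pow, ← pow_mul, ← pow_mul, mul_comm D 2]
    linear_combination ((starRingEnd ℂ) (H (circleMap 0 ρ θ)) * L (circleMap 0 ρ θ)) * h9
  rw [hbd] at hsplit
  have hpars := parseval_tc hH hL hρ hρR
  have hLtc : ∀ k, tc L k = ((k : ℂ) - D) * tc H k := by
    intro k
    have h1 := tc_unique (a := fun k => ((k : ℂ) - D) * tc H k) (F := L) hR hL ?_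
    · rw [← h1]
    · filter_upwards [ball_mem_nhds (0 : ℂ) hR] with x hx
      have h2 := hasSum_tc hH hx
      have h3 := hasSum_tc (hH.deriv isOpen_ball) hx
      have h4 : HasSum (fun k : ℕ => (k : ℂ) * tc H k * x ^ k) (x * deriv H x) := by
        have h5 := h3.mul_left x
        rw [← hasSum_nat_add_iff' 1]
        simp only [Finset.range_one, Finset.sum_singleton, Nat.cast_zero, zero_mul, sub_zero]
        have h6 : (fun k : ℕ => ((k + 1 : ℕ) : ℂ) * tc H (k + 1) * x ^ (k + 1)) =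
            fun k => x * (tc (deriv H) k * x ^ k) := by
          funext k
          rw [tc_deriv, pow_succ]
          push_cast
          ring
        rw [h6]
        exact h5
      have h5 := h4.sub (h2.mul_left (D : ℂ))
      have h7 : (fun k : ℕ => ((k : ℂ) - D) * tc H k * x ^ k) =
          fun k : ℕ => (k : ℂ) * tc H k * x ^ k - D * (tc H k * x ^ k) := by
        funext k; ring
      rw [h7]
      exact h5
  rw [← Complex.hasSum_ofReal]
  generalize (∫ θ in (-Real.pi)..Real.pi,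
        (starRingEnd ℂ) (H (circleMap 0 ρ θ)) * L (circleMap 0 ρ θ)) = J at hpars hsplit
  have hpiC : (Real.pi : ℂ) ≠ 0 := by exact_mod_cast Real.pi_pos.ne'
  have hρC : (ρ : ℂ) ≠ 0 := by exact_mod_cast hρ.ne'
  have h10 := hpars.mul_left (-(2 * Real.pi : ℂ)⁻¹)
  have h11 : (fun k : ℕ => -(2 * Real.pi : ℂ)⁻¹ *
      (2 * Real.pi * ((starRingEnd ℂ) (tc H k) * tc L k * (ρ : ℂ) ^ (2 * k)))) =
      fun k : ℕ => ((((D : ℝ) - k) * (‖tc H k‖ ^ 2 * ρ ^ (2 * k)) : ℝ) : ℂ) := by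
    funext k
    rw [hLtc k]
    have h12 : ((‖tc H k‖ ^ 2 : ℝ) : ℂ) = (starRingEnd ℂ) (tc H k) * tc H k := by
      rw [Complex.sq_norm, Complex.normSq_eq_conj_mul_self]
    push_cast at h12 ⊢
    rw [h12]
    field_simp
    ring
  rw [h11] at h10
  have h13 : -(2 * Real.pi : ℂ)⁻¹ * J =
      ((ρ ^ (2 * D) / Real.pi * ∫ z in (UU g ρ)ᶜ, ‖(derivative Q).eval z‖ ^ 2 : ℝ) : ℂ) := by
    generalize (∫ z in (UU g ρ)ᶜ, ‖(derivative Q).eval z‖ ^ 2) = A at hsplit
    have h14 : J = -(2 * (ρ : ℂ) ^ (2 * D) * A) := by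
      have h15 : I * (((ρ : ℂ) ^ (2 * D))⁻¹ * J + 2 * A) = 0 := by
        rw [← hsplit]; ring
      have h16 := (mul_eq_zero.mp h15).resolve_left I_ne_zero
      have h17 : (ρ : ℂ) ^ (2 * D) * (((ρ : ℂ) ^ (2 * D))⁻¹ * J + 2 * A) = 0 := by rw [h16, mul_zero]
      rw [mul_add, mul_inv_cancel_left₀ (pow_ne_zero _ hρC)] at h17
      linear_combination h17
    rw [h14]
    push_cast
    field_simp
  rw [h13] at h10
  exact h10

end Pool.Agent.H713R2.AR
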