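import Mathlib
import Pool.Agent.H713R2.AR.AF5

set_option autoImplicit false

open Complex Topology Filter Metric MeasureTheory Set Polynomial

namespace Pool.Agent.H713R2.AR

open Pool.Agent.H713R2

/-- Faber polynomials, from the Taylor coefficients `a n j` of the powers of `g`. -/
noncomputable def Fb (a : ℕ → ℕ → ℂ) : ℕ → ℂ[X]
  | n => X ^ n - ∑ k : Fin n, C (a n (n - k)) * Fb a k
decreasing_by exact k.2

/-- Coefficients of `x ^ n * (Fb a n).eval (x⁻¹ * g x)`. -/
noncomputable def hb (a : ℕ → ℕ → ℂ) : ℕ → ℕ → ℂ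
  | n, j => a n j - ∑ k : Fin n, if n - k ≤ j then a n (n - k) * hb a k (j - (n - k)) else 0
termination_by n _ => n
decreasing_by exact k.2

/-- The function `x ^ n * (Fb a n).eval (x⁻¹ * g x)`. -/
noncomputable def Hb (g : ℂ → ℂ) (a : ℕ → ℕ → ℂ) : ℕ → ℂ → ℂ
  | n, x => g x ^ n - ∑ k : Fin n, a n (n - k) * (x ^ (n - (k : ℕ)) * Hb g a k x)
termination_by n _ => n
decreasing_by exact k.2

theorem Fb_eq (a : ℕ → ℕ → ℂ) (n : ℕ) :
    Fb a n = X ^ n - ∑ k : Fin n, C (a n (n - k)) * Fb a k := by
  rw [Fb]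

theorem hb_eq (a : ℕ → ℕ → ℂ) (n j : ℕ) :
    hb a n j = a n j - ∑ k : Fin n, if n - k ≤ j then a n (n - k) * hb a k (j - (n - k)) else 0 := by
  rw [hb]

theorem Hb_eq (g : ℂ → ℂ) (a : ℕ → ℕ → ℂ) (n : ℕ) (x : ℂ) :
    Hb g a n x = g x ^ n - ∑ k : Fin n, a n (n - k) * (x ^ (n - (k : ℕ)) * Hb g a k x) := by
  rw [Hb]

/-- Taylor coefficients of the powers. -/
noncomputable def pc (g : ℂ → ℂ) (n j : ℕ) : ℂ := tc (fun x => g x ^ n) j

theorem Hb_eval (g : ℂ → ℂ) (a : ℕ → ℕ → ℂ) {x : ℂ} (hx : x ≠ 0) (n : ℕ) :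
    Hb g a n x = x ^ n * (Fb a n).eval (x⁻¹ * g x) := by
  induction n using Nat.strong_induction_on with
  | _ n ih =>
    rw [Hb_eq, Fb_eq, eval_sub, eval_pow, eval_X, eval_finsetSum, mul_sub, Finset.mul_sum, mul_pow,
      ← mul_assoc, ← mul_pow, mul_inv_cancel₀ hx, one_pow, one_mul]
    congr 1
    apply Finset.sum_congr rfl
    intro k _
    rw [eval_mul, eval_C, ih k k.2]
    have h1 : x ^ n = x ^ (n - (k : ℕ)) * x ^ (k : ℕ) := by
      rw [← pow_add, Nat.sub_add_cancel k.2.le]
    rw [h1]
    ring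

theorem Hb_diff {R : ℝ} {g : ℂ → ℂ} (hg : DifferentiableOn ℂ g (ball 0 R)) (a : ℕ → ℕ → ℂ) (n : ℕ) :
    DifferentiableOn ℂ (Hb g a n) (ball 0 R) := by
  induction n using Nat.strong_induction_on with
  | _ n ih =>
    have h1 : Hb g a n = fun x => g x ^ n -
        ∑ k : Fin n, a n (n - k) * (x ^ (n - (k : ℕ)) * Hb g a k x) := by
      funext x; exact Hb_eq g a n x
    rw [h1]
    apply (hg.pow n).sub
    apply DifferentiableOn.fun_sum
    intro k _
    exact ((differentiableOn_pow _).mul (ih k k.2)).const_mul _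

theorem Hb_tc {R : ℝ} (hR : 0 < R) {g : ℂ → ℂ} (hg : DifferentiableOn ℂ g (ball 0 R)) (n : ℕ) :
    tc (Hb g (pc g) n) = hb (pc g) n := by
  induction n using Nat.strong_induction_on with
  | _ n ih =>
    symm
    apply tc_unique hR (Hb_diff hg _ n)
    filter_upwards [ball_mem_nhds (0 : ℂ) hR] with x hx
    rw [Hb_eq]
    have h1 : ∀ j, hb (pc g) n j * x ^ j = pc g n j * x ^ j - ∑ k : Fin n,
        pc g n (n - k) * (if n - k ≤ j then hb (pc g) k (j - (n - k)) * x ^ j else 0) := by
      intro j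
      rw [hb_eq, sub_mul, Finset.sum_mul]
      congr 1
      apply Finset.sum_congr rfl
      intro k _
      split_ifs
      · ring
      · ring
    simp only [h1]
    apply HasSum.sub
    · exact hasSum_tc (hg.pow n) hx
    · apply hasSum_sum
      intro k _
      apply HasSum.mul_left
      have h2 := (hasSum_tc (Hb_diff hg (pc g) k) hx).mul_left (x ^ (n - (k : ℕ)))
      rw [ih k k.2] at h2
      rw [← hasSum_nat_add_iff' (n - (k : ℕ))]
      have h3 : ∑ i ∈ Finset.range (n - (k : ℕ)),
          (if n - (k : ℕ) ≤ i then hb (pc g) k (i - (n - k)) * x ^ i else 0) = 0 := by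
        apply Finset.sum_eq_zero
        intro i hi
        rw [if_neg]
        have := Finset.mem_range.mp hi
        omega
      rw [h3, sub_zero]
      have h4 : (fun i => if n - (k : ℕ) ≤ i + (n - (k : ℕ)) then
          hb (pc g) k (i + (n - (k : ℕ)) - (n - k)) * x ^ (i + (n - (k : ℕ))) else 0) =
          fun i => x ^ (n - (k : ℕ)) * (hb (pc g) k i * x ^ i) := by
        funext i
        rw [if_pos (by omega), Nat.add_sub_cancel, pow_add]
        ring
      rw [h4]
      exact h2

theorem hb_zero {a : ℕ → ℕ → ℂ} (ha : ∀ n, a n 0 = 1) (n : ℕ) : hb a n 0 = 1 := by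
  rw [hb_eq, ha n]
  have : ∑ k : Fin n, (if n - (k : ℕ) ≤ 0 then a n (n - k) * hb a k (0 - (n - k)) else 0) = 0 := by
    apply Finset.sum_eq_zero
    intro k _
    rw [if_neg]
    have := k.2
    omega
  rw [this, sub_zero]

theorem hb_vanish {a : ℕ → ℕ → ℂ} (ha : ∀ n, a n 0 = 1) (n : ℕ) :
    ∀ j, 1 ≤ j → j ≤ n → hb a n j = 0 := by
  induction n using Nat.strong_induction_on with
  | _ n ih =>
    intro j hj1 hjn
    rw [hb_eq]
    have hlt : n - j < n := by omega
    rw [Finset.sum_eq_single (⟨n - j, hlt⟩ : Fin n)]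
    · simp only
      rw [if_pos (by omega), show n - (n - j) = j by omega, Nat.sub_self, hb_zero ha, mul_one, sub_self]
    · intro k _ hk
      have hkn := k.2
      have hk' : (k : ℕ) ≠ n - j := fun h => hk (Fin.ext h)
      split_ifs with h
      · rw [ih k hkn (j - (n - k)) (by omega) (by omega), mul_zero]
      · rfl
    · intro h
      exact absurd (Finset.mem_univ _) h

theorem pc_zero {R : ℝ} {g : ℂ → ℂ} (hg : IsExt R g) (n : ℕ) : pc g n 0 = 1 := by
  rw [pc, tc_zero]
  simp [hg.zero]

theorem hb_differentiableOn {s : Set ℂ} {a : ℂ → ℕ → ℕ → ℂ}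
    (ha : ∀ n j, DifferentiableOn ℂ (fun t => a t n j) s) (n : ℕ) :
    ∀ j, DifferentiableOn ℂ (fun t => hb (a t) n j) s := by
  induction n using Nat.strong_induction_on with
  | _ n ih =>
    intro j
    have h1 : (fun t => hb (a t) n j) = fun t => a t n j - ∑ k : Fin n,
        if n - k ≤ j then a t n (n - k) * hb (a t) k (j - (n - k)) else 0 := by
      funext t; exact hb_eq (a t) n j
    rw [h1]
    apply (ha n j).sub
    apply DifferentiableOn.fun_sum
    intro k _
    split_ifs
    · exact (ha n _).mul (ih k k.2 _)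
    · exact differentiableOn_const _

theorem exists_antideriv (P : ℂ[X]) : ∃ Q : ℂ[X], derivative Q = P := by
  induction P using Polynomial.induction_on' with
  | add p q hp hq =>
    obtain ⟨P, rfl⟩ := hp
    obtain ⟨Q, rfl⟩ := hq
    exact ⟨P + Q, derivative_add⟩
  | monomial n a =>
    refine ⟨monomial (n + 1) (a / (n + 1)), ?_⟩
    rw [derivative_monomial, Nat.add_sub_cancel]
    congr 1
    have : ((n : ℂ) + 1) ≠ 0 := by exact_mod_cast Nat.succ_ne_zero n
    push_cast
    field_simp

/-- Symmetry of the Faber coefficients. -/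
theorem hb_symm {R : ℝ} (hR : 0 < R) {g : ℂ → ℂ} (hg : IsExt R g) {m n : ℕ} (hm : 1 ≤ m)
    (hn : 1 ≤ n) : (m : ℂ) * hb (pc g) n (m + n) = n * hb (pc g) m (m + n) := by
  set A : ℂ → ℂ := Hb g (pc g) m with hA
  set B : ℂ → ℂ := Hb g (pc g) n with hB
  have hAd : DifferentiableOn ℂ A (ball 0 R) := Hb_diff hg.diff _ m
  have hBd : DifferentiableOn ℂ B (ball 0 R) := Hb_diff hg.diff _ n
  set L : ℂ → ℂ := fun x => x * deriv B x - n * B x with hLdef
  have hLd : DifferentiableOn ℂ L (ball 0 R) :=
    (differentiableOn_id.mul (hBd.deriv isOpen_ball)).sub (hBd.const_mul _)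
  -- vanishing of the residue
  have hres : tc (fun x => A x * L x) (m + n) = 0 := by
    have hr2 : (0 : ℝ) < R / 2 := by linarith
    have h1 := circleIntegral_tc (F := fun x => A x * L x) hr2 (by linarith) (hAd.mul hLd) (m + n)
    obtain ⟨P, hP⟩ := exists_antideriv (Fb (pc g) m * derivative (Fb (pc g) n))
    have h2 : ∮ z in C(0, R / 2), (A z * L z) / z ^ (m + n + 1) = 0 := by
      apply circleIntegral.integral_eq_zero_of_hasDerivWithinAt' (f := fun z => P.eval (z⁻¹ * g z))
      intro z hz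
      have hzn : ‖z‖ = R / 2 := by
        rw [mem_sphere_zero_iff_norm, abs_of_pos hr2] at hz; exact hz
      have hz0 : z ≠ 0 := by
        rw [← norm_pos_iff, hzn]; exact hr2
      have hzb : z ∈ ball (0 : ℂ) R := by rw [mem_ball_zero_iff, hzn]; linarith
      apply HasDerivAt.hasDerivWithinAt
      have hψ : DifferentiableAt ℂ (fun z => z⁻¹ * g z) z :=
        (differentiableAt_inv hz0).mul (hg.diff.differentiableAt (isOpen_ball.mem_nhds hzb))
      have hψd := hψ.hasDerivAt
      have h3 : HasDerivAt (fun z => P.eval (z⁻¹ * g z))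
          ((derivative P).eval (z⁻¹ * g z) * deriv (fun z => z⁻¹ * g z) z) z :=
        HasDerivAt.comp z (h₂ := fun w => P.eval w) (h := fun z => z⁻¹ * g z)
          (P.hasDerivAt (z⁻¹ * g z)) hψd
      refine h3.congr_deriv ?_
      have h4 : HasDerivAt (fun z => (Fb (pc g) n).eval (z⁻¹ * g z))
          ((derivative (Fb (pc g) n)).eval (z⁻¹ * g z) * deriv (fun z => z⁻¹ * g z) z) z :=
        HasDerivAt.comp z (h₂ := fun w => (Fb (pc g) n).eval w) (h := fun z => z⁻¹ * g z)
          ((Fb (pc g) n).hasDerivAt (z⁻¹ * g z)) hψd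
      have h5 : HasDerivAt (fun z => (z ^ n)⁻¹ * B z) (L z / z ^ (n + 1)) z := by
        have h6 := ((hasDerivAt_pow n z).inv (pow_ne_zero n hz0)).mul
          (hBd.differentiableAt (isOpen_ball.mem_nhds hzb)).hasDerivAt
        refine h6.congr_deriv ?_
        rw [hLdef]
        simp only
        have h7 : z ^ n = z ^ (n - 1) * z := by
          rw [← pow_succ, Nat.sub_add_cancel hn]
        rw [pow_succ z n]
        simp only [Pi.inv_apply]
        generalize B z = b
        generalize deriv B z = b'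
        rw [h7]
        have h8 : z ^ (n - 1) ≠ 0 := pow_ne_zero _ hz0
        generalize z ^ (n - 1) = w at h8
        field_simp
        ring
      have h6 : (fun z => (Fb (pc g) n).eval (z⁻¹ * g z)) =ᶠ[𝓝 z] fun z => (z ^ n)⁻¹ * B z := by
        filter_upwards [isOpen_ne.mem_nhds hz0] with y hy
        rw [hB, Hb_eval g _ hy n, inv_mul_cancel_left₀ (pow_ne_zero _ hy)]
      have h7 := h4.unique (h5.congr_of_eventuallyEq h6)
      rw [hP, eval_mul, mul_assoc, h7, hA, Hb_eval g _ hz0 m]
      rw [show m + n + 1 = m + (n + 1) by ring, pow_add z m (n + 1)]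
      have h8 : z ^ m ≠ 0 := pow_ne_zero _ hz0
      have h9 : z ^ (n + 1) ≠ 0 := pow_ne_zero _ hz0
      field_simp
    rw [h2] at h1
    have h3 : (2 * Real.pi * I : ℂ) ≠ 0 := by
      simp [Real.pi_ne_zero]
    exact (mul_eq_zero.mp h1.symm).resolve_left h3
  -- Taylor coefficients of L
  have hLtc : ∀ k, tc L k = ((k : ℂ) - n) * tc B k := by
    intro k
    have h1 := tc_unique (a := fun k => ((k : ℂ) - n) * tc B k) (F := L) hR hLd ?_
    · rw [← h1]
    · filter_upwards [ball_mem_nhds (0 : ℂ) hR] with x hx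
      have h2 := hasSum_tc hBd hx
      have h3 := hasSum_tc (hBd.deriv isOpen_ball) hx
      have h4 : HasSum (fun k : ℕ => (k : ℂ) * tc B k * x ^ k) (x * deriv B x) := by
        have h5 := h3.mul_left x
        rw [← hasSum_nat_add_iff' 1]
        simp only [Finset.range_one, Finset.sum_singleton, Nat.cast_zero, zero_mul, sub_zero]
        have h6 : (fun k : ℕ => ((k + 1 : ℕ) : ℂ) * tc B (k + 1) * x ^ (k + 1)) =
            fun k => x * (tc (deriv B) k * x ^ k) := by
          funext k
          rw [tc_deriv, pow_succ]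
          push_cast
          ring
        rw [h6]
        exact h5
      have h5 := h4.sub (h2.mul_left (n : ℂ))
      have h7 : (fun k : ℕ => ((k : ℂ) - n) * tc B k * x ^ k) =
          fun k : ℕ => (k : ℂ) * tc B k * x ^ k - n * (tc B k * x ^ k) := by
        funext k; ring
      rw [h7]
      exact h5
  rw [tc_mul hR hAd hLd] at hres
  have ha := pc_zero hg
  have hsum : ∑ p ∈ Finset.HasAntidiagonal.antidiagonal (m + n), tc A p.1 * tc L p.2 =
      (m : ℂ) * hb (pc g) n (m + n) - n * hb (pc g) m (m + n) := by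
    rw [Finset.sum_eq_add (0, m + n) (m + n, 0)]
    · rw [hLtc, hLtc, hA, hB, Hb_tc hR hg.diff, Hb_tc hR hg.diff]
      simp only
      rw [hb_zero ha, hb_zero ha]
      push_cast
      ring
    · intro h
      have := congrArg Prod.fst h
      simp only at this
      omega
    · rintro ⟨i, j⟩ hij ⟨h1, h2⟩
      have hij' : i + j = m + n := Finset.HasAntidiagonal.mem_antidiagonal.mp hij
      simp only
      rw [hLtc, hA, hB, Hb_tc hR hg.diff, Hb_tc hR hg.diff]
      have hi0 : i ≠ 0 := by
        rintro rfl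
        apply h1
        rw [zero_add] at hij'
        rw [hij']
      have hj0 : j ≠ 0 := by
        rintro rfl
        apply h2
        rw [add_zero] at hij'
        rw [hij']
      by_cases him : i ≤ m
      · rw [hb_vanish ha m i (by omega) him]; ring
      · rw [hb_vanish ha n j (by omega) (by omega)]; ring
    · intro h
      exact absurd (Finset.HasAntidiagonal.mem_antidiagonal.mpr (by simp)) h
    · intro h
      exact absurd (Finset.HasAntidiagonal.mem_antidiagonal.mpr (by simp)) h
  rw [hsum] at hres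
  linear_combination hres

end Pool.Agent.H713R2.AR
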