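import Mathlib
import Pool.Agent.H713R2.AR.Fab

set_option autoImplicit false

open Complex Topology Filter Metric MeasureTheory Set Polynomial

namespace Pool.Agent.H713R2.AR

open Pool.Agent.H713R2

/-- The Taylor coefficients of `∑ w n * x ^ (N-1-n) * H_{n+1}`. -/
theorem tc_comb {R : ℝ} (hR : 0 < R) {g : ℂ → ℂ} (hg : DifferentiableOn ℂ g (ball 0 R))
    (w : ℕ → ℂ) (N : ℕ) (k : ℕ) :
    tc (fun x => ∑ n ∈ Finset.range N, w n * (x ^ (N - 1 - n) * Hb g (pc g) (n + 1) x)) k =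
      ∑ n ∈ Finset.range N, w n * (if N - 1 - n ≤ k then hb (pc g) (n + 1) (k - (N - 1 - n)) else 0) := by
  have h := tc_unique (a := fun k => ∑ n ∈ Finset.range N, w n *
      (if N - 1 - n ≤ k then hb (pc g) (n + 1) (k - (N - 1 - n)) else 0))
    (F := fun x => ∑ n ∈ Finset.range N, w n * (x ^ (N - 1 - n) * Hb g (pc g) (n + 1) x)) hR ?_ ?_
  · rw [← h]
  · apply DifferentiableOn.fun_sum
    intro n _
    exact ((differentiableOn_pow _).mul (Hb_diff hg _ _)).const_mul _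
  · filter_upwards [ball_mem_nhds (0 : ℂ) hR] with x hx
    have h1 : ∀ j : ℕ, (∑ n ∈ Finset.range N, w n *
        (if N - 1 - n ≤ j then hb (pc g) (n + 1) (j - (N - 1 - n)) else 0)) * x ^ j =
        ∑ n ∈ Finset.range N, w n *
        (if N - 1 - n ≤ j then hb (pc g) (n + 1) (j - (N - 1 - n)) * x ^ j else 0) := by
      intro j
      rw [Finset.sum_mul]
      apply Finset.sum_congr rfl
      intro n _
      split_ifs
      · ring
      · ring
    simp only [h1]
    apply hasSum_sum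
    intro n _
    apply HasSum.mul_left
    have h2 := (hasSum_tc (Hb_diff hg (pc g) (n + 1)) hx).mul_left (x ^ (N - 1 - n))
    rw [Hb_tc hR hg] at h2
    rw [← hasSum_nat_add_iff' (N - 1 - n)]
    have h3 : ∑ i ∈ Finset.range (N - 1 - n),
        (if N - 1 - n ≤ i then hb (pc g) (n + 1) (i - (N - 1 - n)) * x ^ i else 0) = 0 := by
      apply Finset.sum_eq_zero
      intro i hi
      rw [if_neg]
      have := Finset.mem_range.mp hi
      omega
    rw [h3, sub_zero]
    have h4 : (fun i => if N - 1 - n ≤ i + (N - 1 - n) then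
        hb (pc g) (n + 1) (i + (N - 1 - n) - (N - 1 - n)) * x ^ (i + (N - 1 - n)) else 0) =
        fun i => x ^ (N - 1 - n) * (hb (pc g) (n + 1) i * x ^ i) := by
      funext i
      rw [if_pos (by omega), Nat.add_sub_cancel, pow_add]
      ring
    rw [h4]
    exact h2

/-- The area inequality for a combination of Faber polynomials. -/
theorem area_ineq {R ρ : ℝ} (hρ : 0 < ρ) (hρR : ρ < R) {g : ℂ → ℂ} (hg : IsExt R g)
    (w : ℕ → ℂ) (N J : ℕ) :
    ∑ j ∈ Finset.range J, ((j : ℝ) + 1) * ρ ^ (2 * (j + 1)) *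
      ‖∑ n ∈ Finset.range N, w n * hb (pc g) (n + 1) (n + 1 + (j + 1))‖ ^ 2 ≤
    ∑ n ∈ Finset.range N, ((n : ℝ) + 1) * (ρ ^ (2 * (n + 1)))⁻¹ * ‖w n‖ ^ 2 := by
  have hR : 0 < R := hρ.trans hρR
  have ha := pc_zero hg
  set H : ℂ → ℂ := fun x => ∑ n ∈ Finset.range N, w n * (x ^ (N - 1 - n) * Hb g (pc g) (n + 1) x)
    with hH
  have hHd : DifferentiableOn ℂ H (ball 0 R) := by
    apply DifferentiableOn.fun_sum
    intro n _
    exact ((differentiableOn_pow _).mul (Hb_diff hg.diff _ _)).const_mul _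
  set Q : ℂ[X] := ∑ n ∈ Finset.range N, C (w n) * Fb (pc g) (n + 1) with hQ
  have hHQ : ∀ x ∈ ball (0 : ℂ) R, x ≠ 0 → H x = x ^ N * Q.eval (x⁻¹ * g x) := by
    intro x _ hx0
    rw [hH, hQ, eval_finsetSum, Finset.mul_sum]
    apply Finset.sum_congr rfl
    intro n hn
    have hn' := Finset.mem_range.mp hn
    rw [Hb_eval g _ hx0, eval_mul, eval_C]
    have h1 : x ^ N = x ^ (N - 1 - n) * x ^ (n + 1) := by
      rw [← pow_add]; congr 1; omega
    rw [h1]; ring
  obtain ⟨hsum, -⟩ := area_formula hρ hρR hg hHd hHQ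
  set S : ℝ := ρ ^ (2 * N) / Real.pi * ∫ z in (UU g ρ)ᶜ, ‖(derivative Q).eval z‖ ^ 2 with hS
  have hS0 : 0 ≤ S := by
    rw [hS]
    apply mul_nonneg
    · have := Real.pi_pos; positivity
    · apply integral_nonneg; intro z; positivity
  -- partial sums
  have hpart : 0 ≤ ∑ k ∈ Finset.range (N + 1 + J), ((N : ℝ) - k) * (‖tc H k‖ ^ 2 * ρ ^ (2 * k)) := by
    refine hS0.trans ?_
    have h1 := sum_le_hasSum (Finset.range (N + 1 + J)) (fun k hk => ?_) hsum.neg
    · rw [Finset.sum_neg_distrib] at h1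
      linarith
    · have hk' : N + 1 + J ≤ k := by
        by_contra hcon
        exact hk (Finset.mem_range.mpr (by omega))
      have h2 : (N : ℝ) ≤ k := by exact_mod_cast (by omega : N ≤ k)
      have h3 : 0 ≤ ‖tc H k‖ ^ 2 * ρ ^ (2 * k) := by positivity
      simp only [Left.nonneg_neg_iff]
      exact mul_nonpos_of_nonpos_of_nonneg (by linarith) h3
  have hlow : ∀ k < N, tc H k = w (N - 1 - k) := by
    intro k hk
    rw [hH, tc_comb hR hg.diff, Finset.sum_eq_single (N - 1 - k)]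
    · rw [if_pos (by omega), show k - (N - 1 - (N - 1 - k)) = 0 by omega, hb_zero ha, mul_one]
    · intro n hn hne
      have hn' := Finset.mem_range.mp hn
      split_ifs with h
      · rw [hb_vanish ha _ _ (by omega) (by omega), mul_zero]
      · rw [mul_zero]
    · intro h
      exact absurd (Finset.mem_range.mpr (by omega)) h
  have hhigh : ∀ j, tc H (N + 1 + j) =
      ∑ n ∈ Finset.range N, w n * hb (pc g) (n + 1) (n + 1 + (j + 1)) := by
    intro j
    rw [hH, tc_comb hR hg.diff]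
    apply Finset.sum_congr rfl
    intro n hn
    have hn' := Finset.mem_range.mp hn
    rw [if_pos (by omega)]
    congr 2
    omega
  rw [Finset.sum_range_add, Finset.sum_range_succ, sub_self, zero_mul, add_zero] at hpart
  have h1 : ∑ k ∈ Finset.range N, ((N : ℝ) - k) * (‖tc H k‖ ^ 2 * ρ ^ (2 * k)) =
      ρ ^ (2 * N) * ∑ n ∈ Finset.range N, ((n : ℝ) + 1) * (ρ ^ (2 * (n + 1)))⁻¹ * ‖w n‖ ^ 2 := by
    rw [← Finset.sum_range_reflect, Finset.mul_sum]
    apply Finset.sum_congr rfl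
    intro n hn
    have hn' := Finset.mem_range.mp hn
    rw [hlow _ (by omega), show N - 1 - (N - 1 - n) = n by omega]
    have h2 : ((N - 1 - n : ℕ) : ℝ) = (N : ℝ) - 1 - n := by
      rw [Nat.sub_sub, Nat.cast_sub (by omega)]; push_cast; ring
    rw [h2]
    have h3 : ρ ^ (2 * N) = ρ ^ (2 * (N - 1 - n)) * ρ ^ (2 * (n + 1)) := by
      rw [← pow_add]; congr 1; omega
    rw [h3]
    have h4 : ρ ^ (2 * (n + 1)) ≠ 0 := pow_ne_zero _ hρ.ne'
    field_simp
    ring
  have h2 : ∑ x ∈ Finset.range J, ((N : ℝ) - ((N + 1 + x : ℕ) : ℝ)) *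
      (‖tc H (N + 1 + x)‖ ^ 2 * ρ ^ (2 * (N + 1 + x))) =
      -(ρ ^ (2 * N) * ∑ j ∈ Finset.range J, ((j : ℝ) + 1) * ρ ^ (2 * (j + 1)) *
      ‖∑ n ∈ Finset.range N, w n * hb (pc g) (n + 1) (n + 1 + (j + 1))‖ ^ 2) := by
    rw [Finset.mul_sum, ← Finset.sum_neg_distrib]
    apply Finset.sum_congr rfl
    intro j _
    rw [hhigh]
    push_cast
    ring
  rw [h1, h2] at hpart
  have h3 : 0 < ρ ^ (2 * N) := by positivity
  nlinarith [hpart, h3]

/-- The area formula for a Faber polynomial. -/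
theorem area_eq {R ρ : ℝ} (hρ : 0 < ρ) (hρR : ρ < R) {g : ℂ → ℂ} (hg : IsExt R g)
    {m : ℕ} (hm : 1 ≤ m) :
    HasSum (fun j : ℕ => ((j : ℝ) + 1) * ρ ^ (2 * (j + 1)) * ‖hb (pc g) m (m + (j + 1))‖ ^ 2)
      (m * (ρ ^ (2 * m))⁻¹ -
        1 / Real.pi * ∫ z in (UU g ρ)ᶜ, ‖(derivative (Fb (pc g) m)).eval z‖ ^ 2) := by
  have hR : 0 < R := hρ.trans hρR
  have ha := pc_zero hg
  obtain ⟨hsum, -⟩ := area_formula hρ hρR hg (Hb_diff hg.diff (pc g) m)
    (fun x _ hx0 => Hb_eval g _ hx0 m)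
  rw [Hb_tc hR hg.diff] at hsum
  rw [← hasSum_nat_add_iff' (m + 1), Finset.sum_eq_single 0] at hsum
  · have h1 := hsum.mul_left (-(ρ ^ (2 * m))⁻¹)
    have hρm : ρ ^ (2 * m) ≠ 0 := pow_ne_zero _ hρ.ne'
    convert! h1 using 1
    · funext j
      rw [show j + (m + 1) = m + (j + 1) by ring]
      rw [show 2 * (m + (j + 1)) = 2 * m + 2 * (j + 1) by ring, pow_add]
      push_cast
      field_simp
      ring
    · rw [hb_zero ha]
      simp
      field_simp
      ring
  · intro k hk hk0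
    have hk' := Finset.mem_range.mp hk
    rw [hb_vanish ha m k (by omega) (by omega)]
    simp
  · intro h
    exact absurd (Finset.mem_range.mpr (by omega)) h

end Pool.Agent.H713R2.AR
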