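import Mathlib
import Pool.Agent.H713R2.AR.SP1

set_option autoImplicit false

open Complex Topology Filter Metric MeasureTheory Set Polynomial

namespace Pool.Agent.H713R2.AR

open Pool.Agent.H713R2

theorem integral_affine (a b : ℂ) {s : ℝ} (hs : 0 < s) :
    ∫ θ in (-Real.pi)..Real.pi, ‖a + circleMap 0 s θ * b‖ ^ 2 =
      2 * Real.pi * (‖a‖ ^ 2 + s ^ 2 * ‖b‖ ^ 2) := by
  have hpar := parseval_tc (H := fun x => a + x * b) (L := fun x => a + x * b) (R := s + 1) (r := s)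
    (by fun_prop) (by fun_prop) hs (by linarith)
  have hF : DifferentiableOn ℂ (fun x : ℂ => a + x * b) (ball 0 (s + 1)) := by fun_prop
  have htc : tc (fun x : ℂ => a + x * b) = fun k => if k = 0 then a else if k = 1 then b else 0 := by
    symm
    apply tc_unique (r := s + 1) (by linarith) hF
    refine Filter.Eventually.of_forall fun x => ?_
    have h1 : HasSum (fun k : ℕ => (if k = 0 then a else if k = 1 then b else 0) * x ^ k)
        (∑ k ∈ Finset.range 2, (if k = 0 then a else if k = 1 then b else 0) * x ^ k) := by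
      apply hasSum_sum_of_ne_finset_zero
      intro k hk
      have : 2 ≤ k := by
        by_contra hcon
        exact hk (Finset.mem_range.mpr (by omega))
      rw [if_neg (by omega), if_neg (by omega), zero_mul]
    rw [Finset.sum_range_succ, Finset.sum_range_one] at h1
    simp only [if_true, one_ne_zero, if_false, pow_zero, mul_one, pow_one] at h1
    rw [mul_comm x b]
    exact h1
  rw [htc] at hpar
  have h2 : HasSum (fun k : ℕ => 2 * (Real.pi : ℂ) * ((starRingEnd ℂ)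
      (if k = 0 then a else if k = 1 then b else 0) *
      (if k = 0 then a else if k = 1 then b else 0) * (s : ℂ) ^ (2 * k)))
      (∑ k ∈ Finset.range 2, 2 * (Real.pi : ℂ) * ((starRingEnd ℂ)
      (if k = 0 then a else if k = 1 then b else 0) *
      (if k = 0 then a else if k = 1 then b else 0) * (s : ℂ) ^ (2 * k))) := by
    apply hasSum_sum_of_ne_finset_zero
    intro k hk
    have : 2 ≤ k := by
      by_contra hcon
      exact hk (Finset.mem_range.mpr (by omega))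
    rw [if_neg (by omega), if_neg (by omega), mul_zero, zero_mul, mul_zero]
  have h3 := hpar.unique h2
  rw [Finset.sum_range_succ, Finset.sum_range_one] at h3
  simp only [if_true, one_ne_zero, if_false, pow_zero, mul_one, mul_zero] at h3
  have h4 : ∀ z : ℂ, (starRingEnd ℂ) z * z = ((‖z‖ ^ 2 : ℝ) : ℂ) := fun z => by
    rw [Complex.sq_norm, Complex.normSq_eq_conj_mul_self]
  simp only [h4] at h3
  have h5 : (∫ θ in (-Real.pi)..Real.pi, ((‖a + circleMap 0 s θ * b‖ ^ 2 : ℝ) : ℂ)) =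
      ((∫ θ in (-Real.pi)..Real.pi, ‖a + circleMap 0 s θ * b‖ ^ 2 : ℝ) : ℂ) :=
    intervalIntegral.integral_ofReal
  rw [h5] at h3
  have h6 : ((∫ θ in (-Real.pi)..Real.pi, ‖a + circleMap 0 s θ * b‖ ^ 2 : ℝ) : ℂ) =
      ((2 * Real.pi * (‖a‖ ^ 2 + s ^ 2 * ‖b‖ ^ 2) : ℝ) : ℂ) := by
    rw [h3]; push_cast; ring
  exact_mod_cast h6

theorem bessel_two {f : ℂ → ℂ} (hf : DifferentiableOn ℂ f (ball 0 1)) {s : ℝ} (hs : 0 < s)
    (hs1 : s < 1) :
    2 * Real.pi * (‖f 0‖ ^ 2 + s ^ 2 * ‖deriv f 0‖ ^ 2) ≤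
      ∫ θ in (-Real.pi)..Real.pi, ‖f (circleMap 0 s θ)‖ ^ 2 := by
  have h := bessel hf hs hs1 2
  rw [Finset.sum_range_succ, Finset.sum_range_one] at h
  have h1 : tc f 1 = deriv f 0 := by simp [tc]
  rw [tc_zero, h1] at h
  simpa [mul_comm] using h

/-- Averaging over circles. -/
theorem average {J N : ℕ} {p q : ℕ → ℝ} (hp : ∀ j, 0 ≤ p j) {f : ℕ → ℂ → ℂ}
    (hf : ∀ j, DifferentiableOn ℂ (f j) (ball 0 1)) {α η : ℕ → ℂ}
    (h : ∀ t ∈ ball (0 : ℂ) 1, ∑ j ∈ Finset.range J, p j * ‖f j t‖ ^ 2 ≤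
      ∑ n ∈ Finset.range N, q n * ‖α n + t * η n‖ ^ 2) :
    ∑ j ∈ Finset.range J, p j * (‖f j 0‖ ^ 2 + ‖deriv (f j) 0‖ ^ 2) ≤
      ∑ n ∈ Finset.range N, q n * (‖α n‖ ^ 2 + ‖η n‖ ^ 2) := by
  have hpi := Real.pi_pos
  have key : ∀ s : ℝ, 0 < s → s < 1 →
      ∑ j ∈ Finset.range J, p j * (‖f j 0‖ ^ 2 + s ^ 2 * ‖deriv (f j) 0‖ ^ 2) ≤
      ∑ n ∈ Finset.range N, q n * (‖α n‖ ^ 2 + s ^ 2 * ‖η n‖ ^ 2) := by
    intro s hs hs1
    have hmem : ∀ θ : ℝ, circleMap 0 s θ ∈ ball (0 : ℂ) 1 := by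
      intro θ
      rw [mem_ball_zero_iff, norm_circleMap_zero, abs_of_pos hs]
      exact hs1
    have hfc : ∀ j, Continuous (fun θ : ℝ => p j * ‖f j (circleMap 0 s θ)‖ ^ 2) := fun j =>
      continuous_const.mul (((hf j).continuousOn.comp_continuous (continuous_circleMap 0 s)
        hmem).norm.pow 2)
    have hqc : ∀ n, Continuous (fun θ : ℝ => q n * ‖α n + circleMap 0 s θ * η n‖ ^ 2) := fun n =>
      continuous_const.mul ((continuous_const.add
        ((continuous_circleMap 0 s).mul continuous_const)).norm.pow 2)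
    have h1 : ∫ θ in (-Real.pi)..Real.pi, ∑ j ∈ Finset.range J, p j * ‖f j (circleMap 0 s θ)‖ ^ 2 ≤
        ∫ θ in (-Real.pi)..Real.pi,
          ∑ n ∈ Finset.range N, q n * ‖α n + circleMap 0 s θ * η n‖ ^ 2 := by
      apply intervalIntegral.integral_mono_on (by linarith)
      · exact (continuous_finsetSum _ fun j _ => hfc j).intervalIntegrable _ _
      · exact (continuous_finsetSum _ fun n _ => hqc n).intervalIntegrable _ _
      · intro θ _
        exact h _ (hmem θ)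
    rw [intervalIntegral.integral_finsetSum (fun j _ => (hfc j).intervalIntegrable _ _),
      intervalIntegral.integral_finsetSum (fun n _ => (hqc n).intervalIntegrable _ _)] at h1
    simp only [intervalIntegral.integral_const_mul, integral_affine _ _ hs] at h1
    have h2 : 2 * Real.pi * ∑ j ∈ Finset.range J, p j * (‖f j 0‖ ^ 2 + s ^ 2 * ‖deriv (f j) 0‖ ^ 2) ≤
        ∑ j ∈ Finset.range J, p j * ∫ θ in (-Real.pi)..Real.pi, ‖f j (circleMap 0 s θ)‖ ^ 2 := by
      rw [Finset.mul_sum]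
      apply Finset.sum_le_sum
      intro j _
      have h3 := mul_le_mul_of_nonneg_left (bessel_two (hf j) hs hs1) (hp j)
      calc 2 * Real.pi * (p j * (‖f j 0‖ ^ 2 + s ^ 2 * ‖deriv (f j) 0‖ ^ 2)) =
          p j * (2 * Real.pi * (‖f j 0‖ ^ 2 + s ^ 2 * ‖deriv (f j) 0‖ ^ 2)) := by ring
        _ ≤ _ := h3
    have h4 : ∑ n ∈ Finset.range N, q n * (2 * Real.pi * (‖α n‖ ^ 2 + s ^ 2 * ‖η n‖ ^ 2)) =
        2 * Real.pi * ∑ n ∈ Finset.range N, q n * (‖α n‖ ^ 2 + s ^ 2 * ‖η n‖ ^ 2) := by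
      rw [Finset.mul_sum]
      apply Finset.sum_congr rfl
      intro n _
      ring
    rw [h4] at h1
    exact le_of_mul_le_mul_left (h2.trans h1) (by positivity)
  have hc1 : Continuous (fun s : ℝ => ∑ j ∈ Finset.range J,
      p j * (‖f j 0‖ ^ 2 + s ^ 2 * ‖deriv (f j) 0‖ ^ 2)) := by fun_prop
  have hc2 : Continuous (fun s : ℝ => ∑ n ∈ Finset.range N,
      q n * (‖α n‖ ^ 2 + s ^ 2 * ‖η n‖ ^ 2)) := by fun_prop
  have ht1 := (hc1.tendsto 1).mono_left (nhdsWithin_le_nhds (s := Iio (1 : ℝ)))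
  have ht2 := (hc2.tendsto 1).mono_left (nhdsWithin_le_nhds (s := Iio (1 : ℝ)))
  have h5 := le_of_tendsto_of_tendsto ht1 ht2 (by
    have h6 : Ioo (0 : ℝ) 1 ∈ 𝓝[<] (1 : ℝ) := Ioo_mem_nhdsLT (by norm_num)
    filter_upwards [h6] with s hs using key s hs.1 hs.2)
  simpa using h5

/-- The algebra of the optimisation. -/
theorem optimise {X V p A : ℝ} (hX : 0 ≤ X) (hV : 0 ≤ V) (hVp : V ≤ p) (hp : 0 < p) (hA : 0 ≤ A)
    (h : ∀ s : ℝ, 0 ≤ s → (X + s * V) ^ 2 ≤ p * (A + s ^ 2 * V)) : X ^ 2 ≤ A * (p - V) := by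
  rcases eq_or_lt_of_le hVp with h1 | h1
  · subst h1
    have hX0 : X = 0 := by
      by_contra hne
      have hXp : 0 < X := lt_of_le_of_ne hX (Ne.symm hne)
      have h2 := h (A / X) (by positivity)
      have h3 : (A / X) * X = A := by field_simp
      nlinarith [h2, sq_nonneg X, mul_pos hp hXp, mul_nonneg hA hp.le]
    rw [hX0]; simp
  · set b := p - V with hb
    have hbp : 0 < b := by rw [hb]; linarith
    have hpV : p = b + V := by rw [hb]; ring
    have h2 := h (X / b) (by positivity)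
    have h3 : X / b * b = X := by field_simp
    set y := X / b with hy
    rw [hpV, ← h3] at h2
    rw [← h3]
    have h4 : 0 < b + V := by linarith
    have h5 : (b + V) * (y ^ 2 * (b + V)) ≤ (b + V) * (A + y ^ 2 * V) := by nlinarith [h2]
    have h6 := le_of_mul_le_mul_left h5 h4
    nlinarith [h6]

end Pool.Agent.H713R2.AR
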