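import Mathlib
import Pool.Agent.H713R2.AR.SP2

set_option autoImplicit false

open Complex Topology Filter Metric MeasureTheory Set Polynomial

namespace Pool.Agent.H713R2.AR

open Pool.Agent.H713R2

theorem family_avg {R ρ : ℝ} (hρ : 0 < ρ) (hρR : ρ < R) {g : ℂ → ℂ → ℂ}
    (hg : ∀ t ∈ ball (0 : ℂ) 1, IsExt R (g t))
    (hhol : ∀ n j, DifferentiableOn ℂ (fun t => pc (g t) n j) (ball 0 1))
    (l N J : ℕ) (η : ℕ → ℂ) :
    ∑ j ∈ Finset.range J, (((j : ℝ) + 1) * ρ ^ (2 * (j + 1))) *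
      (‖hb (pc (g 0)) (l + 1) (l + 1 + (j + 1))‖ ^ 2 +
        ‖deriv (fun t => hb (pc (g t)) (l + 1) (l + 1 + (j + 1))) 0 +
          ∑ n ∈ Finset.range (N + l + 1), η n * hb (pc (g 0)) (n + 1) (n + 1 + (j + 1))‖ ^ 2) ≤
      ((l : ℝ) + 1) * (ρ ^ (2 * (l + 1)))⁻¹ +
        ∑ n ∈ Finset.range (N + l + 1), ((n : ℝ) + 1) * (ρ ^ (2 * (n + 1)))⁻¹ * ‖η n‖ ^ 2 := by
  set α : ℕ → ℂ := fun n => if n = l then 1 else 0 with hα
  have hγ : ∀ n j, DifferentiableOn ℂ (fun t => hb (pc (g t)) n j) (ball 0 1) :=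
    fun n j => hb_differentiableOn hhol n j
  set f : ℕ → ℂ → ℂ := fun j t => ∑ n ∈ Finset.range (N + l + 1),
    (α n + t * η n) * hb (pc (g t)) (n + 1) (n + 1 + (j + 1)) with hf
  have h0 : (0 : ℂ) ∈ ball (0 : ℂ) 1 := mem_ball_self one_pos
  have hfd : ∀ j, DifferentiableOn ℂ (f j) (ball 0 1) := by
    intro j
    apply DifferentiableOn.fun_sum
    intro n _
    exact (by fun_prop : DifferentiableOn ℂ (fun t => α n + t * η n) (ball 0 1)).mul (hγ _ _)
  have havg := average (p := fun j => ((j : ℝ) + 1) * ρ ^ (2 * (j + 1)))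
    (q := fun n => ((n : ℝ) + 1) * (ρ ^ (2 * (n + 1)))⁻¹) (J := J) (N := N + l + 1)
    (fun j => by positivity) hfd (α := α) (η := η)
    (fun t ht => area_ineq hρ hρR (hg t ht) (fun n => α n + t * η n) (N + l + 1) J)
  have hf0 : ∀ j, f j 0 = hb (pc (g 0)) (l + 1) (l + 1 + (j + 1)) := by
    intro j
    rw [hf]
    simp only
    rw [Finset.sum_eq_single l]
    · simp [hα]
    · intro n _ hn
      simp [hα, hn]
    · intro h
      exact absurd (Finset.mem_range.mpr (by omega)) h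
  have hf1 : ∀ j, deriv (f j) 0 = deriv (fun t => hb (pc (g t)) (l + 1) (l + 1 + (j + 1))) 0 +
      ∑ n ∈ Finset.range (N + l + 1), η n * hb (pc (g 0)) (n + 1) (n + 1 + (j + 1)) := by
    intro j
    have h1 : ∀ n ∈ Finset.range (N + l + 1), HasDerivAt
        (fun t => (α n + t * η n) * hb (pc (g t)) (n + 1) (n + 1 + (j + 1)))
        (η n * hb (pc (g 0)) (n + 1) (n + 1 + (j + 1)) +
          α n * deriv (fun t => hb (pc (g t)) (n + 1) (n + 1 + (j + 1))) 0) 0 := by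
      intro n _
      have h2 : HasDerivAt (fun t : ℂ => α n + t * η n) (η n) 0 := by
        simpa using ((hasDerivAt_id (0 : ℂ)).mul_const (η n)).const_add (α n)
      have h3 := ((hγ (n + 1) (n + 1 + (j + 1))).differentiableAt
        (isOpen_ball.mem_nhds h0)).hasDerivAt
      have h4 := h2.mul h3
      refine h4.congr_deriv ?_
      simp
    have h2 := HasDerivAt.fun_sum h1
    rw [h2.deriv, Finset.sum_add_distrib, add_comm]
    congr 1
    rw [Finset.sum_eq_single l]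
    · simp [hα]
    · intro n _ hn
      simp [hα, hn]
    · intro h
      exact absurd (Finset.mem_range.mpr (by omega)) h
  simp only [hf0, hf1] at havg
  refine havg.trans (le_of_eq ?_)
  simp only [mul_add]
  rw [Finset.sum_add_distrib]
  congr 1
  rw [Finset.sum_eq_single l]
  · simp [hα]
  · intro n _ hn
    simp [hα, hn]
  · intro h
    exact absurd (Finset.mem_range.mpr (by omega)) h

theorem family_ineq {R ρ : ℝ} (hρ : 0 < ρ) (hρR : ρ < R) {g : ℂ → ℂ → ℂ}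
    (hg : ∀ t ∈ ball (0 : ℂ) 1, IsExt R (g t))
    (hhol : ∀ n j, DifferentiableOn ℂ (fun t => pc (g t) n j) (ball 0 1))
    (l : ℕ) {m : ℕ} (hm : 1 ≤ m) :
    (m * ‖deriv (fun t => hb (pc (g t)) (l + 1) (l + 1 + m)) 0‖) ^ 2 ≤
      (1 / Real.pi * ∫ z in (UU (g 0) ρ)ᶜ, ‖(derivative (Fb (pc (g 0)) (l + 1))).eval z‖ ^ 2) *
      (1 / Real.pi * ∫ z in (UU (g 0) ρ)ᶜ, ‖(derivative (Fb (pc (g 0)) m)).eval z‖ ^ 2) := by
  have h0 : (0 : ℂ) ∈ ball (0 : ℂ) 1 := mem_ball_self one_pos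
  have hg0 := hg 0 h0
  have hR : 0 < R := hρ.trans hρR
  have hpi := Real.pi_pos
  set A : ℝ := 1 / Real.pi * ∫ z in (UU (g 0) ρ)ᶜ, ‖(derivative (Fb (pc (g 0)) (l + 1))).eval z‖ ^ 2 with hA
  set B : ℝ := 1 / Real.pi * ∫ z in (UU (g 0) ρ)ᶜ, ‖(derivative (Fb (pc (g 0)) m)).eval z‖ ^ 2 with hB
  have hA0 : 0 ≤ A := by
    rw [hA]; apply mul_nonneg (by positivity); apply integral_nonneg; intro z; positivity
  have hB0 : 0 ≤ B := by
    rw [hB]; apply mul_nonneg (by positivity); apply integral_nonneg; intro z; positivity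
  have hsA := area_eq hρ hρR hg0 (show 1 ≤ l + 1 by omega)
  have hsB := area_eq hρ hρR hg0 hm
  rw [← hA] at hsA
  rw [← hB] at hsB
  set b' : ℂ := deriv (fun t => hb (pc (g t)) (l + 1) (l + 1 + m)) 0 with hb'
  set v : ℕ → ℂ := fun n => hb (pc (g 0)) m (m + (n + 1)) with hv
  set p : ℝ := m * (ρ ^ (2 * m))⁻¹ with hp
  have hmR : (0 : ℝ) < m := by exact_mod_cast hm
  have hp0 : 0 < p := by rw [hp]; positivity
  set V : ℕ → ℝ := fun N => ∑ n ∈ Finset.range (N + l + 1), ((n : ℝ) + 1) * ρ ^ (2 * (n + 1)) * ‖v n‖ ^ 2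
    with hV
  have hV0 : ∀ N, 0 ≤ V N := fun N => Finset.sum_nonneg fun n _ => by positivity
  have hVp : ∀ N, V N ≤ p := by
    intro N
    have h1 := sum_le_hasSum (Finset.range (N + l + 1)) (fun n _ => by positivity) hsB
    exact h1.trans (by linarith)
  -- the inequality for every N, s
  have key : ∀ N, (m * ‖b'‖) ^ 2 ≤ A * (p - V N) := by
    intro N
    by_cases hbz : b' = 0
    · rw [hbz]
      simp only [norm_zero, mul_zero, ne_eq, OfNat.ofNat_ne_zero, not_false_eq_true, zero_pow]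
      exact mul_nonneg hA0 (by linarith [hVp N])
    apply optimise (by positivity) (hV0 N) (hVp N) hp0 hA0
    intro s hs
    set ω : ℂ := b' / (‖b'‖ : ℂ) with hω
    have hbn : (‖b'‖ : ℂ) ≠ 0 := by
      exact_mod_cast (norm_pos_iff.mpr hbz).ne'
    have hωn : ‖ω‖ = 1 := by
      rw [hω, norm_div, Complex.norm_real, norm_norm, div_self]
      exact (norm_pos_iff.mpr hbz).ne'
    have hωb : b' = ‖b'‖ * ω := by rw [hω]; field_simp
    set η : ℕ → ℂ := fun n => (s : ℂ) * ω * ρ ^ (2 * (n + 1)) * (starRingEnd ℂ) (v n) with hη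
    -- value of the perturbed coefficient
    have hu : (m : ℂ) * (b' + ∑ n ∈ Finset.range (N + l + 1), η n * hb (pc (g 0)) (n + 1) (n + 1 + m)) =
        ((m * ‖b'‖ + s * V N : ℝ) : ℂ) * ω := by
      rw [mul_add, Finset.mul_sum]
      have h1 : ∀ n ∈ Finset.range (N + l + 1),
          (m : ℂ) * (η n * hb (pc (g 0)) (n + 1) (n + 1 + m)) =
          (s : ℂ) * ω * ((((n : ℝ) + 1) * ρ ^ (2 * (n + 1)) * ‖v n‖ ^ 2 : ℝ) : ℂ) := by
        intro n _
        have h2 := hb_symm hR hg0 hm (show 1 ≤ n + 1 by omega)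
        have h3 : ((‖v n‖ ^ 2 : ℝ) : ℂ) = (starRingEnd ℂ) (v n) * v n := by
          rw [Complex.sq_norm, Complex.normSq_eq_conj_mul_self]
        have h4 : (m : ℂ) * hb (pc (g 0)) (n + 1) (n + 1 + m) = (n + 1) * v n := by
          rw [show n + 1 + m = m + (n + 1) by ring, h2, hv]
          push_cast; ring
        push_cast at h3 ⊢
        rw [h3, hη]
        simp only
        linear_combination ((s : ℂ) * ω * ρ ^ (2 * (n + 1)) * (starRingEnd ℂ) (v n)) * h4
      rw [Finset.sum_congr rfl h1, ← Finset.mul_sum, ← Complex.ofReal_sum]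
      rw [show (∑ i ∈ Finset.range (N + l + 1), ((i : ℝ) + 1) * ρ ^ (2 * (i + 1)) * ‖v i‖ ^ 2) = V N
        from rfl]
      conv_lhs => rw [hωb]
      push_cast
      ring
    have hηn : ∑ n ∈ Finset.range (N + l + 1), ((n : ℝ) + 1) * (ρ ^ (2 * (n + 1)))⁻¹ * ‖η n‖ ^ 2 =
        s ^ 2 * V N := by
      rw [hV]
      simp only
      rw [Finset.mul_sum]
      apply Finset.sum_congr rfl
      intro n _
      have h1 : ‖η n‖ = s * ρ ^ (2 * (n + 1)) * ‖v n‖ := by
        rw [hη]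
        simp only
        rw [norm_mul, norm_mul, norm_mul, hωn, norm_pow, Complex.norm_real, Complex.norm_real,
          RCLike.norm_conj, Real.norm_eq_abs, Real.norm_eq_abs, abs_of_pos hρ, abs_of_nonneg hs,
          mul_one]
      rw [h1]
      have h2 : ρ ^ (2 * (n + 1)) ≠ 0 := pow_ne_zero _ hρ.ne'
      field_simp
    -- the averaged inequality, for large J
    have hJ : ∀ J, m ≤ J → ∑ j ∈ Finset.range J, (((j : ℝ) + 1) * ρ ^ (2 * (j + 1))) *
        ‖hb (pc (g 0)) (l + 1) (l + 1 + (j + 1))‖ ^ 2 +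
        m * ρ ^ (2 * m) * ‖b' + ∑ n ∈ Finset.range (N + l + 1), η n * hb (pc (g 0)) (n + 1) (n + 1 + m)‖ ^ 2
        ≤ ((l : ℝ) + 1) * (ρ ^ (2 * (l + 1)))⁻¹ + s ^ 2 * V N := by
      intro J hmJ
      have h1 := family_avg hρ hρR hg hhol l N J η
      rw [hηn] at h1
      refine le_trans ?_ h1
      simp only [mul_add]
      rw [Finset.sum_add_distrib]
      apply add_le_add_right
      have h2 : m - 1 ∈ Finset.range J := Finset.mem_range.mpr (by omega)
      have h3 := Finset.single_le_sum (f := fun j : ℕ => ((j : ℝ) + 1) * ρ ^ (2 * (j + 1)) *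
        ‖deriv (fun t => hb (pc (g t)) (l + 1) (l + 1 + (j + 1))) 0 +
          ∑ n ∈ Finset.range (N + l + 1), η n * hb (pc (g 0)) (n + 1) (n + 1 + (j + 1))‖ ^ 2)
        (fun j _ => by positivity) h2
      refine le_trans (le_of_eq ?_) h3
      rw [show m - 1 + 1 = m by omega]
      have h4 : ((m - 1 : ℕ) : ℝ) + 1 = m := by
        rw [Nat.cast_sub hm]; push_cast; ring
      rw [h4]
    have hlim : ((l + 1 : ℕ) : ℝ) * (ρ ^ (2 * (l + 1)))⁻¹ - A +
        m * ρ ^ (2 * m) * ‖b' + ∑ n ∈ Finset.range (N + l + 1), η n * hb (pc (g 0)) (n + 1) (n + 1 + m)‖ ^ 2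
        ≤ ((l : ℝ) + 1) * (ρ ^ (2 * (l + 1)))⁻¹ + s ^ 2 * V N := by
      have h1 := (hsA.tendsto_sum_nat).add_const (m * ρ ^ (2 * m) *
        ‖b' + ∑ n ∈ Finset.range (N + l + 1), η n * hb (pc (g 0)) (n + 1) (n + 1 + m)‖ ^ 2)
      apply le_of_tendsto h1
      filter_upwards [Filter.eventually_ge_atTop m] with J hmJ using hJ J hmJ
    have h1 : ‖(m : ℂ) * (b' + ∑ n ∈ Finset.range (N + l + 1),
        η n * hb (pc (g 0)) (n + 1) (n + 1 + m))‖ = m * ‖b'‖ + s * V N := by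
      rw [hu, norm_mul, hωn, mul_one, Complex.norm_real, Real.norm_eq_abs, abs_of_nonneg]
      have := hV0 N
      positivity
    rw [norm_mul, Complex.norm_natCast] at h1
    rw [← h1]
    generalize ‖b' + ∑ n ∈ Finset.range (N + l + 1), η n * hb (pc (g 0)) (n + 1) (n + 1 + m)‖ = u
      at hlim h1
    have h2 : m * ρ ^ (2 * m) * u ^ 2 ≤ A + s ^ 2 * V N := by
      have : ((l + 1 : ℕ) : ℝ) * (ρ ^ (2 * (l + 1)))⁻¹ = ((l : ℝ) + 1) * (ρ ^ (2 * (l + 1)))⁻¹ := by
        push_cast; rfl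
      rw [this] at hlim
      linarith
    have h3 : ((m : ℝ) * u) ^ 2 = p * (m * ρ ^ (2 * m) * u ^ 2) := by
      rw [hp]
      have : ρ ^ (2 * m) ≠ 0 := pow_ne_zero _ hρ.ne'
      field_simp
    rw [h3]
    exact mul_le_mul_of_nonneg_left h2 hp0.le
  have htV : Tendsto V atTop (𝓝 (p - B)) := by
    have h1 := hsB.tendsto_sum_nat
    exact h1.comp (tendsto_add_atTop_nat (l + 1))
  have h1 : Tendsto (fun N => A * (p - V N)) atTop (𝓝 (A * (p - (p - B)))) :=
    (htV.const_sub p).const_mul A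
  have h2 := ge_of_tendsto' h1 key
  rw [sub_sub_cancel] at h2
  exact h2

end Pool.Agent.H713R2.AR
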