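import Mathlib
import Pool.Agent.H713R2.AR.SP3
import Pool.Agent.H713R2.Ext1

set_option autoImplicit false

open Complex Topology Filter Metric MeasureTheory Set

namespace Pool.Agent.H713R2.AR

open Pool.Agent.H713R2 Pool.Agent.H712R2

theorem isOpen_AA (d j : ℕ) : IsOpen (AA d j) := by
  have h1 : AA d j = ⋂ i ∈ Set.Icc 1 j, {q : ℂ × ℂ | ‖q.2‖ ^ (d ^ j) * ‖P d i q.1‖ < 1} := by
    ext q
    simp only [AA, mem_ofPred_eq, mem_iInter, Set.mem_Icc]
    constructor
    · intro h i hi; exact h i hi.1 hi.2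
    · intro h i h1 h2; exact h i ⟨h1, h2⟩
  rw [h1]
  apply Set.Finite.isOpen_biInter (Set.finite_Icc 1 j)
  intro i _
  apply isOpen_lt _ continuous_const
  exact (continuous_snd.norm.pow _).mul ((continuous_P d i).comp continuous_fst).norm

/-- A sequence of inverse Böttcher-type maps, with the recursion between the levels. -/
structure IsSeq (d : ℕ) (G : ℕ → ℂ × ℂ → ℂ) : Prop where
  isG : ∀ j, IsG d j (G j)
  base : ∀ q, G 0 q = 1
  relation : ∀ j c x, (c, x) ∈ AA d (j + 1) → G (j + 1) (c, x) ^ d = G j (c, x ^ d) - c * x ^ d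

/-- One step of the construction. -/
theorem step_g {d : ℕ} (hd : 2 ≤ d) (j : ℕ) {g : ℂ × ℂ → ℂ} (hg : IsG d j g) :
    ∃ g', IsG d (j + 1) g' ∧
      ∀ c x, (c, x) ∈ AA d (j + 1) → g' (c, x) ^ d = g (c, x ^ d) - c * x ^ d := by
  have hd0 : d ≠ 0 := by omega
  have hdC : (d : ℂ) ≠ 0 := by exact_mod_cast hd0
  -- the function T
  set T : ℂ × ℂ → ℂ := fun q => g q - q.1 * q.2 with hT
  have hTc : ContinuousOn T (AA' d j) := by
    apply ContinuousOn.sub (hg.cont.mono (AA'_subset d j))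
    fun_prop
  have hT0 : ∀ c x, (c, x) ∈ AA' d j → T (c, 0) = 1 := by
    intro c x _; simp [hT, hg.zero]
  have hTne : ∀ q ∈ AA' d j, T q ≠ 0 := by
    rintro ⟨c, y⟩ hq h0
    by_cases hy : y = 0
    · subst hy; simp [hT, hg.zero] at h0
    · have h1 : y⁻¹ * g (c, y) = c := by
        have : g (c, y) = c * y := by simpa [hT, sub_eq_zero] using h0
        rw [this]; field_simp
      have h2 := hg.conj c y (AA'_subset d j hq) hy
      rw [h1, iter_c hd] at h2
      have h3 := hq (j + 1) (by omega) le_rfl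
      simp only at h3
      rw [h2, norm_pow, norm_inv, ← mul_pow, mul_inv_cancel₀ (norm_ne_zero_iff.mpr hy),
        one_pow] at h3
      exact lt_irrefl _ h3
  obtain ⟨h, hhc, hhe, hh0⟩ := exists_log_star (A := AA' d j) AA_star hTc hT0 hTne
  -- the new map
  set g' : ℂ × ℂ → ℂ := fun q => Complex.exp (h (q.1, q.2 ^ d) / d) with hg'
  have hpow : ∀ c x, (c, x) ∈ AA d (j + 1) → g' (c, x) ^ d = g (c, x ^ d) - c * x ^ d := by
    intro c x hx
    have hx' := (mem_AA_succ c x).mp hx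
    simp only [hg']
    rw [← Complex.exp_nat_mul]
    have : (d : ℂ) * (h (c, x ^ d) / d) = h (c, x ^ d) := by field_simp
    rw [this, hhe _ hx']
  have hne' : ∀ q, g' q ≠ 0 := fun q => Complex.exp_ne_zero _
  -- one step of the conjugacy
  have hstep : ∀ c x, (c, x) ∈ AA d (j + 1) → x ≠ 0 →
      fc d c (x⁻¹ * g' (c, x)) = (x ^ d)⁻¹ * g (c, x ^ d) := by
    intro c x hx hx0
    unfold fc
    rw [mul_pow, hpow c x hx, inv_pow]
    have : x ^ d ≠ 0 := pow_ne_zero _ hx0
    field_simp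
    ring
  have hsub : ∀ c x, (c, x) ∈ AA d (j + 1) → (c, x ^ d) ∈ AA d j := fun c x hx =>
    AA'_subset d j ((mem_AA_succ c x).mp hx)
  refine ⟨g', ⟨?_, ?_, ?_, fun q _ => hne' q, ?_, ?_⟩, hpow⟩
  · simp only [hg']
    apply Continuous.comp_continuousOn Complex.continuous_exp
    apply ContinuousOn.div_const
    have hc : ContinuousOn (fun q : ℂ × ℂ => (q.1, q.2 ^ d)) (AA d (j + 1)) := by fun_prop
    exact hhc.comp hc (fun q hq => (mem_AA_succ q.1 q.2).mp hq)
  · intro c
    simp only [hg', zero_pow hd0]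
    rw [hh0 c 0 (mem_AA'_zero hd j c)]
    simp
  · intro c x hx hx0
    rw [Function.iterate_succ_apply, hstep c x hx hx0,
      hg.conj c (x ^ d) (hsub c x hx) (pow_ne_zero _ hx0)]
    rw [← inv_pow, ← pow_mul]
    congr 1
    ring
  · intro c x x' hx hx' hx0 hx0' heq
    have h1 : (x ^ d)⁻¹ * g (c, x ^ d) = (x' ^ d)⁻¹ * g (c, x' ^ d) := by
      rw [← hstep c x hx hx0, ← hstep c x' hx' hx0', heq]
    have h2 := hg.inj c _ _ (hsub c x hx) (hsub c x' hx') (pow_ne_zero _ hx0)
      (pow_ne_zero _ hx0') h1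
    have h3 : g' (c, x) = g' (c, x') := by simp only [hg', h2]
    rw [h3] at heq
    have := mul_right_cancel₀ (hne' (c, x')) heq
    exact inv_injective this
  · intro c z hz hz0 hlt
    rw [Function.iterate_succ_apply] at hz0 hlt
    by_cases hu : fc d c z = 0
    · -- then the orbit of `0` would be too large
      exfalso
      by_cases hj : j = 0
      · subst hj
        simp [hu] at hz0
      · have h1 := hlt j (by omega) (by omega)
        rw [hu] at h1
        exact lt_irrefl _ h1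
    obtain ⟨y, hy0, hyA, hy⟩ := hg.surj c (fc d c z) hu hz0 (fun i h1 h2 => hlt i h1 (by omega))
    obtain ⟨x, hx⟩ := IsAlgClosed.exists_pow_nat_eq y (Nat.pos_of_ne_zero hd0)
    have hx0 : x ≠ 0 := by
      rintro rfl
      rw [zero_pow hd0] at hx
      exact hy0 hx.symm
    have hnorm : ‖y‖ ^ (d ^ j) = ‖(fc d c)^[j] (fc d c z)‖⁻¹ := by
      have := hg.conj c y hyA hy0
      rw [hy] at this
      rw [this, norm_pow, norm_inv, inv_pow, inv_inv]
    have hyA' : (c, y) ∈ AA' d j := by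
      intro i h1 h2
      have h3 := hlt i h1 h2
      simp only
      rw [hnorm]
      have hpos : 0 < ‖(fc d c)^[j] (fc d c z)‖ := norm_pos_iff.mpr hz0
      rw [inv_mul_lt_iff₀ hpos, mul_one]
      exact h3
    have hxA : (c, x) ∈ AA d (j + 1) := by
      rw [mem_AA_succ, hx]; exact hyA'
    have h4 : (x⁻¹ * g' (c, x)) ^ d = z ^ d := by
      have h5 := hstep c x hxA hx0
      rw [hx, hy] at h5
      unfold fc at h5
      exact add_right_cancel h5
    -- adjust by a root of unity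
    have hχ0 : x⁻¹ * g' (c, x) ≠ 0 := mul_ne_zero (inv_ne_zero hx0) (hne' _)
    set ω : ℂ := z / (x⁻¹ * g' (c, x)) with hω
    have hω1 : ω ^ d = 1 := by
      rw [hω, div_pow, h4, div_self (pow_ne_zero _ hz)]
    have hω0 : ω ≠ 0 := div_ne_zero hz hχ0
    refine ⟨ω⁻¹ * x, mul_ne_zero (inv_ne_zero hω0) hx0, ?_, ?_⟩
    · rw [mem_AA_succ, mul_pow, inv_pow, hω1, inv_one, one_mul, hx]; exact hyA'
    · have h6 : g' (c, ω⁻¹ * x) = g' (c, x) := by
        simp only [hg', mul_pow, inv_pow, hω1, inv_one, one_mul]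
      rw [h6, mul_inv, inv_inv, mul_assoc, hω, div_mul_cancel₀ _ hχ0]

theorem isG_zero (d : ℕ) : IsG d 0 (fun _ => 1) := by
  refine ⟨continuousOn_const, fun _ => rfl, ?_, fun _ _ => one_ne_zero, ?_, ?_⟩
  · intro c x _ _; simp
  · intro c x x' _ _ hx hx' h
    simpa using h
  · intro c z hz _ _
    refine ⟨z⁻¹, inv_ne_zero hz, ?_, by simp⟩
    intro i h1 h2; omega

open Classical in
/-- The sequence of maps. -/
noncomputable def GSeq {d : ℕ} (hd : 2 ≤ d) : (j : ℕ) → {g : ℂ × ℂ → ℂ // IsG d j g}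
  | 0 => ⟨fun _ => 1, isG_zero d⟩
  | j + 1 => ⟨(step_g hd j (GSeq hd j).2).choose, (step_g hd j (GSeq hd j).2).choose_spec.1⟩

theorem exists_seq {d : ℕ} (hd : 2 ≤ d) : ∃ G, IsSeq d G := by
  refine ⟨fun j => (GSeq hd j).1, fun j => (GSeq hd j).2, fun q => rfl, ?_⟩
  intro j
  exact (step_g hd j (GSeq hd j).2).choose_spec.2

theorem AA_zero_mem {d : ℕ} (c x : ℂ) : (c, x) ∈ AA d 0 := by
  intro i h1 h2; omega

/-- Holomorphic dependence on the second variable. -/
theorem seq_diff {d : ℕ} (hd : 2 ≤ d) {G : ℕ → ℂ × ℂ → ℂ} (hG : IsSeq d G) (j : ℕ) :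
    ∀ c x, (c, x) ∈ AA d j → DifferentiableAt ℂ (fun x => G j (c, x)) x := by
  induction j with
  | zero =>
    intro c x _
    have h1 : (fun x => G 0 (c, x)) = fun _ => 1 := by funext x; exact hG.base _
    rw [h1]
    exact differentiableAt_const _
  | succ j ih =>
    intro c x hx
    have hopen : {y : ℂ | (c, y) ∈ AA d (j + 1)} ∈ 𝓝 x :=
      ((isOpen_AA d (j + 1)).preimage (by fun_prop : Continuous fun y : ℂ => (c, y))).mem_nhds hx
    have hcont : ContinuousAt (fun x => G (j + 1) (c, x)) x := by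
      have h1 : ContinuousAt (G (j + 1)) (c, x) :=
        (hG.isG (j + 1)).cont.continuousAt ((isOpen_AA d (j + 1)).mem_nhds hx)
      exact h1.comp (f := fun x : ℂ => (c, x)) (by fun_prop)
    apply differentiableAt_of_pow (N := d) (p := fun y => G j (c, y ^ d) - c * y ^ d) (by omega) hcont
      ((hG.isG (j + 1)).ne _ hx)
    · have h2 := ih c (x ^ d) (AA'_subset d j ((mem_AA_succ c x).mp hx))
      have h3 : DifferentiableAt ℂ (fun y => G j (c, y ^ d)) x :=
        DifferentiableAt.comp x (g := fun y => G j (c, y)) (f := fun y => y ^ d) h2 (by fun_prop)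
      exact h3.sub (by fun_prop)
    · filter_upwards [hopen] with y hy
      exact hG.relation j c y hy

end Pool.Agent.H713R2.AR
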