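import Mathlib
import Pool.Agent.H713R2.AR.GD
import Pool.Agent.H713R2.Ident

set_option autoImplicit false

open Complex Topology Filter Metric MeasureTheory Set

namespace Pool.Agent.H713R2.AR

open Pool.Agent.H713R2 Pool.Agent.H712R2

/-- The relations between the coefficients of the powers of a power series. -/
structure PowSeq (a : ℕ → ℕ → ℂ) : Prop where
  zero : ∀ n, a n 0 = 1
  base : ∀ k, 1 ≤ k → a 0 k = 0
  succ : ∀ n k, a (n + 1) k = ∑ p ∈ Finset.HasAntidiagonal.antidiagonal k, a n p.1 * a 1 p.2

theorem powSeq_pc {R : ℝ} {g : ℂ → ℂ} (hR : 0 < R) (hg : DifferentiableOn ℂ g (ball 0 R))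
    (h0 : g 0 = 1) : PowSeq (pc g) := by
  refine ⟨fun n => ?_, fun k hk => ?_, fun n k => ?_⟩
  · rw [pc, tc_zero]; simp [h0]
  · obtain ⟨k, rfl⟩ : ∃ l, k = l + 1 := ⟨k - 1, by omega⟩
    rw [pc]
    have h1 : (fun x => g x ^ 0) = fun _ => (1 : ℂ) := by funext x; simp
    rw [h1, tc_const_succ]
  · have h1 := tc_mul (F := fun x => g x ^ n) (G := fun x => g x ^ 1) hR (hg.pow n) (hg.pow 1) k
    simp only [pc]
    rw [← h1]
    congr 1
    funext x
    rw [pow_succ, pow_one]

theorem PowSeq.low {a : ℕ → ℕ → ℂ} (h : PowSeq a) {k : ℕ} (hk : 1 ≤ k)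
    (hv : ∀ i, 1 ≤ i → i < k → a 1 i = 0) (n : ℕ) : a n k = n * a 1 k := by
  induction n with
  | zero => rw [h.base k hk]; simp
  | succ n ih =>
    rw [h.succ, Finset.sum_eq_add (k, 0) (0, k)]
    · rw [h.zero, h.zero, ih]
      push_cast; ring
    · intro heq
      have := congrArg Prod.fst heq
      simp only at this
      omega
    · rintro ⟨i, l⟩ hil ⟨h1, h2⟩
      have hil' : i + l = k := Finset.HasAntidiagonal.mem_antidiagonal.mp hil
      have hl0 : l ≠ 0 := by
        rintro rfl
        apply h1
        rw [add_zero] at hil'
        rw [hil']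
      have hi0 : i ≠ 0 := by
        rintro rfl
        apply h2
        rw [zero_add] at hil'
        rw [hil']
      rw [hv l (by omega) (by omega), mul_zero]
    · intro hn
      exact absurd (Finset.HasAntidiagonal.mem_antidiagonal.mpr (by simp)) hn
    · intro hn
      exact absurd (Finset.HasAntidiagonal.mem_antidiagonal.mpr (by simp)) hn

/-- Differentiability of all the coefficients from those of one power. -/
theorem powSeq_diff {s : Set ℂ} {a : ℂ → ℕ → ℕ → ℂ} (h : ∀ t ∈ s, PowSeq (a t)) {d : ℕ} (hd : 1 ≤ d)
    (had : ∀ k, DifferentiableOn ℂ (fun t => a t d k) s) :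
    ∀ k n, DifferentiableOn ℂ (fun t => a t n k) s := by
  intro k
  induction k using Nat.strong_induction_on with
  | _ k ih =>
    by_cases hk : k = 0
    · subst hk
      intro n
      exact (differentiableOn_const (1 : ℂ)).congr fun t ht => (h t ht).zero n
    have hk1 : 1 ≤ k := by omega
    have key : ∀ n, DifferentiableOn ℂ (fun t => a t n k - n * a t 1 k) s := by
      intro n
      induction n with
      | zero =>
        refine (differentiableOn_const (0 : ℂ)).congr fun t ht => ?_
        rw [(h t ht).base k hk1]; simp
      | succ n ihn =>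
        have h1 : ∀ t ∈ s, a t (n + 1) k - ((n + 1 : ℕ) : ℂ) * a t 1 k =
            (a t n k - n * a t 1 k) +
              ∑ p ∈ (Finset.HasAntidiagonal.antidiagonal k).filter (fun p => p.1 ≠ 0 ∧ p.2 ≠ 0),
                a t n p.1 * a t 1 p.2 := by
          intro t ht
          have h := h t ht
          rw [h.succ]
          have h2 := Finset.sum_filter_add_sum_filter_not (Finset.HasAntidiagonal.antidiagonal k)
            (fun p => p.1 ≠ 0 ∧ p.2 ≠ 0) (fun p => a t n p.1 * a t 1 p.2)
          rw [← h2]
          have h3 : ∑ p ∈ (Finset.HasAntidiagonal.antidiagonal k).filter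
              (fun p => ¬ (p.1 ≠ 0 ∧ p.2 ≠ 0)), a t n p.1 * a t 1 p.2 = a t n k + a t 1 k := by
            rw [Finset.sum_eq_add (k, 0) (0, k)]
            · rw [h.zero, h.zero]; ring
            · intro heq
              have := congrArg Prod.fst heq
              simp only at this
              omega
            · rintro ⟨i, l⟩ hil ⟨h1, h2⟩
              exfalso
              rw [Finset.mem_filter] at hil
              obtain ⟨hil1, hil2⟩ := hil
              have hil' : i + l = k := Finset.HasAntidiagonal.mem_antidiagonal.mp hil1
              simp only at hil2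
              apply hil2
              constructor
              · rintro rfl
                apply h2
                rw [zero_add] at hil'
                rw [hil']
              · rintro rfl
                apply h1
                rw [add_zero] at hil'
                rw [hil']
            · intro hn
              exfalso; apply hn
              rw [Finset.mem_filter]
              exact ⟨Finset.HasAntidiagonal.mem_antidiagonal.mpr (by simp), by simp⟩
            · intro hn
              exfalso; apply hn
              rw [Finset.mem_filter]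
              exact ⟨Finset.HasAntidiagonal.mem_antidiagonal.mpr (by simp), by simp⟩
          rw [h3]
          push_cast; ring
        refine DifferentiableOn.congr ?_ h1
        apply ihn.add
        apply DifferentiableOn.fun_sum
        rintro ⟨i, l⟩ hil
        rw [Finset.mem_filter] at hil
        have hil' : i + l = k := Finset.HasAntidiagonal.mem_antidiagonal.mp hil.1
        have hil2 := hil.2
        simp only at hil2 ⊢
        exact (ih i (by omega) n).mul (ih l (by omega) 1)
    have hdC : (d : ℂ) ≠ 0 := by exact_mod_cast (by omega : d ≠ 0)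
    have h1 : DifferentiableOn ℂ (fun t => a t 1 k) s := by
      have h2 : (fun t => a t 1 k) = fun t => (d : ℂ)⁻¹ * (a t d k - (a t d k - d * a t 1 k)) := by
        funext t
        field_simp
        ring
      rw [h2]
      exact ((had k).sub (key d)).const_mul _
    intro n
    have h2 : (fun t => a t n k) = fun t => (a t n k - n * a t 1 k) + n * a t 1 k := by
      funext t; ring
    rw [h2]
    exact (key n).add (h1.const_mul _)

theorem tc_comp_pow {d : ℕ} (hd : 1 ≤ d) {F : ℂ → ℂ} {r s : ℝ} (hr : 0 < r) (hrs : r ^ d ≤ s)
    (hF : DifferentiableOn ℂ F (ball 0 s)) (k : ℕ) :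
    tc (fun x => F (x ^ d)) k = if d ∣ k then tc F (k / d) else 0 := by
  have hmaps : ∀ x ∈ ball (0 : ℂ) r, x ^ d ∈ ball (0 : ℂ) s := by
    intro x hx
    rw [mem_ball_zero_iff] at hx ⊢
    rw [norm_pow]
    exact (pow_lt_pow_left₀ hx (norm_nonneg _) (by omega)).trans_le hrs
  have h := tc_unique (a := fun k => if d ∣ k then tc F (k / d) else 0) (F := fun x => F (x ^ d)) hr
    (hF.comp (by fun_prop) hmaps) ?_
  · rw [← h]
  · filter_upwards [ball_mem_nhds (0 : ℂ) hr] with x hx
    have h1 := hasSum_tc hF (hmaps x hx)
    have hinj : Function.Injective (fun k : ℕ => d * k) := fun a b hab =>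
      Nat.eq_of_mul_eq_mul_left (by omega) hab
    rw [← hinj.hasSum_iff (f := fun k => (if d ∣ k then tc F (k / d) else 0) * x ^ k)]
    · convert! h1 using 1
      funext k
      simp only [Function.comp_apply, dvd_mul_right, if_true]
      rw [Nat.mul_div_cancel_left k (by omega), pow_mul]
    · intro k hk
      rw [if_neg, zero_mul]
      rintro ⟨m, rfl⟩
      exact hk ⟨m, rfl⟩

end Pool.Agent.H713R2.AR
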