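import Mathlib
import Pool.Agent.H713R2.AR.CO

set_option autoImplicit false

open Complex Topology Filter Metric MeasureTheory Set Polynomial

namespace Pool.Agent.H713R2.AR

open Pool.Agent.H713R2 Pool.Agent.H712R2

/-- The critical orbit is bounded by `2`. -/
def Bd (d : ℕ) (c : ℂ) : Prop := ∀ i, ‖P d i c‖ ≤ 2

theorem mem_AA_of_Bd {d : ℕ} (hd : 2 ≤ d) {j : ℕ} {c x : ℂ} (hc : Bd d c)
    (hx : x ∈ ball (0 : ℂ) (rad d j)) : (c, x) ∈ AA d j := by
  intro i _ _
  simp only
  have h1 : ‖x‖ ^ (d ^ j) < 1 / 2 := by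
    rw [← rad_pow hd j]
    exact pow_lt_pow_left₀ (mem_ball_zero_iff.mp hx) (norm_nonneg _) (pow_ne_zero _ (by omega))
  have h2 := hc i
  have h3 := norm_nonneg (P d i c)
  have h4 : 0 ≤ ‖x‖ ^ (d ^ j) := by positivity
  nlinarith

theorem isExt_seq {d : ℕ} (hd : 2 ≤ d) {G : ℕ → ℂ × ℂ → ℂ} (hG : IsSeq d G) (j : ℕ) {c : ℂ}
    (hc : Bd d c) : IsExt (rad d j) (fun x => G j (c, x)) where
  diff := fun x hx =>
    (seq_diff hd hG j c x (mem_AA_of_Bd hd hc hx)).differentiableWithinAt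
  zero := (hG.isG j).zero c
  inj := fun x hx y hy hx0 hy0 h =>
    (hG.isG j).inj c x y (mem_AA_of_Bd hd hc hx) (mem_AA_of_Bd hd hc hy) hx0 hy0 h

theorem rad_succ {d : ℕ} (hd : 2 ≤ d) (j : ℕ) : rad d (j + 1) ^ d = rad d j := by
  have h1 : (rad d (j + 1) ^ d) ^ (d ^ j) = rad d j ^ (d ^ j) := by
    rw [← pow_mul, rad_pow hd, ← pow_succ', rad_pow hd]
  exact (pow_left_inj₀ (pow_nonneg (rad_pos d _).le _) (rad_pos d j).le
    (pow_ne_zero _ (by omega))).mp h1

theorem tc_const_mul_id (c : ℂ) (k : ℕ) : tc (fun y : ℂ => c * y) k = if k = 1 then c else 0 := by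
  have h := tc_unique (a := fun k => if k = 1 then c else 0) (F := fun y : ℂ => c * y) one_pos
    (by fun_prop) ?_
  · rw [← h]
  · refine Filter.Eventually.of_forall fun x => ?_
    have h1 := hasSum_single (f := fun k : ℕ => (if k = 1 then c else 0) * x ^ k) 1 (by
      intro k hk
      rw [if_neg hk, zero_mul])
    simpa using h1

/-- The recursion for the coefficients. -/
theorem pc_succ {d : ℕ} (hd : 2 ≤ d) {G : ℕ → ℂ × ℂ → ℂ} (hG : IsSeq d G) (j : ℕ) {c : ℂ}
    (hc : Bd d c) (k : ℕ) :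
    pc (fun x => G (j + 1) (c, x)) d k =
      if d ∣ k then pc (fun x => G j (c, x)) 1 (k / d) - (if k / d = 1 then c else 0) else 0 := by
  have hR := rad_pos d (j + 1)
  have hRj := rad_pos d j
  have hD := (isExt_seq hd hG j hc).diff
  have h1 : tc (fun x => (fun y => G j (c, y) - c * y) (x ^ d)) k =
      if d ∣ k then tc (fun y => G j (c, y) - c * y) (k / d) else 0 :=
    tc_comp_pow (by omega) hR (rad_succ hd j).le (hD.sub (by fun_prop)) k
  have h2 : pc (fun x => G (j + 1) (c, x)) d k =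
      tc (fun x => (fun y => G j (c, y) - c * y) (x ^ d)) k := by
    have h3 := tc_unique (a := pc (fun x => G (j + 1) (c, x)) d)
      (F := fun x => (fun y => G j (c, y) - c * y) (x ^ d)) hR ?_ ?_
    · rw [h3]
    · apply DifferentiableOn.comp (g := fun y => G j (c, y) - c * y) (t := ball 0 (rad d j))
      · exact hD.sub (by fun_prop)
      · fun_prop
      · intro x hx
        rw [mem_ball_zero_iff] at hx ⊢
        rw [norm_pow, ← rad_succ hd j]
        exact pow_lt_pow_left₀ hx (norm_nonneg _) (by omega)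
    · filter_upwards [ball_mem_nhds (0 : ℂ) hR] with x hx
      have h4 := hasSum_tc ((isExt_seq hd hG (j + 1) hc).diff.pow d) hx
      have h5 := hG.relation j c x (mem_AA_of_Bd hd hc hx)
      rw [← h5]
      exact h4
  rw [h2, h1]
  congr 1
  rw [tc_sub hRj hD (by fun_prop), tc_const_mul_id]
  congr 1
  simp only [pc, pow_one]

theorem pc_one {d : ℕ} (hd : 2 ≤ d) {G : ℕ → ℂ × ℂ → ℂ} (hG : IsSeq d G) (j : ℕ) {c : ℂ}
    (hc : Bd d c) : ∀ k, 1 ≤ k → k < d → pc (fun x => G j (c, x)) 1 k = 0 := by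
  have hps : ∀ j, PowSeq (pc (fun x => G j (c, x))) := fun j =>
    powSeq_pc (rad_pos d j) (isExt_seq hd hG j hc).diff ((hG.isG j).zero c)
  have hdC : (d : ℂ) ≠ 0 := by exact_mod_cast (by omega : d ≠ 0)
  cases j with
  | zero =>
    intro k hk _
    obtain ⟨k, rfl⟩ : ∃ l, k = l + 1 := ⟨k - 1, by omega⟩
    have h1 : (fun x => (fun x => G 0 (c, x)) x ^ 1) = fun _ => (1 : ℂ) := by
      funext x; simp [hG.base]
    rw [pc, h1, tc_const_succ]
  | succ j =>
    intro k
    induction k using Nat.strong_induction_on with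
    | _ k ih =>
      intro hk hkd
      have h1 := (hps (j + 1)).low hk (fun i hi hik => ih i hik hi (by omega)) d
      rw [pc_succ hd hG j hc, if_neg (fun h => by have := Nat.le_of_dvd (by omega) h; omega)] at h1
      exact (mul_eq_zero.mp h1.symm).resolve_left hdC

theorem pc_low {d : ℕ} (hd : 2 ≤ d) {G : ℕ → ℂ × ℂ → ℂ} (hG : IsSeq d G) (j : ℕ) {c : ℂ}
    (hc : Bd d c) (n k : ℕ) (hk : 1 ≤ k) (hkd : k < d) : pc (fun x => G j (c, x)) n k = 0 := by
  have hps : PowSeq (pc (fun x => G j (c, x))) :=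
    powSeq_pc (rad_pos d j) (isExt_seq hd hG j hc).diff ((hG.isG j).zero c)
  rw [hps.low hk (fun i hi hik => pc_one hd hG j hc i hi (by omega)) n,
    pc_one hd hG j hc k hk hkd, mul_zero]

theorem pc_one_d {d : ℕ} (hd : 2 ≤ d) {G : ℕ → ℂ × ℂ → ℂ} (hG : IsSeq d G) (j : ℕ) {c : ℂ}
    (hc : Bd d c) : pc (fun x => G (j + 1) (c, x)) 1 d = -c / d := by
  have hps : PowSeq (pc (fun x => G (j + 1) (c, x))) :=
    powSeq_pc (rad_pos d (j + 1)) (isExt_seq hd hG (j + 1) hc).diff ((hG.isG (j + 1)).zero c)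
  have hdC : (d : ℂ) ≠ 0 := by exact_mod_cast (by omega : d ≠ 0)
  have h1 := hps.low (k := d) (by omega)
    (fun i hi hik => pc_one hd hG (j + 1) hc i hi hik) d
  rw [pc_succ hd hG j hc, if_pos dvd_rfl, Nat.div_self (by omega), if_pos rfl,
    pc_one hd hG j hc 1 le_rfl (by omega)] at h1
  rw [eq_div_iff hdC, mul_comm, ← h1]
  ring

/-- Holomorphic dependence of the coefficients on a parameter. -/
theorem pc_holo {d : ℕ} (hd : 2 ≤ d) {G : ℕ → ℂ × ℂ → ℂ} (hG : IsSeq d G) {s : Set ℂ} {γ : ℂ → ℂ}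
    (hγ : DifferentiableOn ℂ γ s) (hB : ∀ t ∈ s, Bd d (γ t)) (j : ℕ) :
    ∀ n k, DifferentiableOn ℂ (fun t => pc (fun x => G j (γ t, x)) n k) s := by
  have hps : ∀ j, ∀ t ∈ s, PowSeq (pc (fun x => G j (γ t, x))) := fun j t ht =>
    powSeq_pc (rad_pos d j) (isExt_seq hd hG j (hB t ht)).diff ((hG.isG j).zero _)
  induction j with
  | zero =>
    intro n k
    have h1 : (fun t => pc (fun x => G 0 (γ t, x)) n k) = fun _ => tc (fun _ => (1 : ℂ)) k := by
      funext t
      simp only [pc]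
      congr 1
      funext x
      rw [hG.base, one_pow]
    rw [h1]
    exact differentiableOn_const _
  | succ j ih =>
    intro n k
    refine powSeq_diff (hps (j + 1)) (d := d) (by omega) ?_ k n
    intro k
    refine DifferentiableOn.congr ?_ (fun t ht => pc_succ hd hG j (hB t ht) k)
    by_cases hdk : d ∣ k
    · simp only [if_pos hdk]
      apply (ih 1 _).sub
      by_cases hk1 : k / d = 1
      · simp only [if_pos hk1]; exact hγ
      · simp only [if_neg hk1]; exact differentiableOn_const _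
    · simp only [if_neg hdk]; exact differentiableOn_const _

end Pool.Agent.H713R2.AR
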