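import Mathlib
import Pool.Prelude.Def_F_c31e40fa
import Pool.Agent.H713R2.AR.MB
import Pool.Agent.Helper113.Gorin.Schottky
import Pool.Agent.H712R2.MultibrotConnected

set_option autoImplicit false

open Complex Topology Filter Metric MeasureTheory Set N62a1eb23

namespace Pool.Agent.H713R2.AR

open Pool.Agent.H713R2 Pool.Agent.H712R2

theorem P_ne_zero {d : ℕ} (hd : 2 ≤ d) {c : ℂ}
    (hno : ¬ ∃ m z, IsAttractingCycle (fun z => z ^ d + c) m z) {n : ℕ} (hn : 1 ≤ n) :
    P d n c ≠ 0 := by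
  intro h
  apply hno
  have hdiff : ∀ m, Differentiable ℂ ((fun z : ℂ => z ^ d + c)^[m]) := fun m =>
    (by fun_prop : Differentiable ℂ (fun z : ℂ => z ^ d + c)).iterate m
  refine ⟨n, 0, by omega, h, hdiff n 0, ?_⟩
  obtain ⟨m, rfl⟩ : ∃ m, n = m + 1 := ⟨n - 1, by omega⟩
  have h1 : HasDerivAt (fun z : ℂ => z ^ d + c) 0 0 := by
    have h2 := (hasDerivAt_pow d (0 : ℂ)).add_const c
    rw [zero_pow (by omega : d - 1 ≠ 0), mul_zero] at h2
    exact h2
  have h3 : HasDerivAt ((fun z : ℂ => z ^ d + c)^[m])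
      (deriv ((fun z : ℂ => z ^ d + c)^[m]) ((fun z : ℂ => z ^ d + c) 0))
      ((fun z : ℂ => z ^ d + c) 0) := (hdiff m _).hasDerivAt
  have h4 := h3.comp (0 : ℂ) h1
  rw [mul_zero] at h4
  rw [Function.iterate_succ, h4.deriv, norm_zero]
  exact one_pos

/-- The local step: a third omitted value comes from the next iterate. -/
theorem half_ball {d : ℕ} (hd : 2 ≤ d) {c : ℂ} {s : ℝ} (hs : 0 < s) (hc : c ∈ multibrotSet d)
    (hno : ∀ c' ∈ ball c s, ¬ ∃ m z, IsAttractingCycle (fun z => z ^ d + c') m z) :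
    ball c (s / 2) ⊆ multibrotSet d := by
  have hPne : ∀ c' ∈ ball c s, ∀ n, 1 ≤ n → P d n c' ≠ 0 := fun c' hc' n hn =>
    P_ne_zero hd (hno c' hc') hn
  have hne : ∀ c' ∈ ball c s, c' ≠ 0 := fun c' hc' => by
    have := hPne c' hc' 1 le_rfl
    rwa [P_one hd] at this
  have hc0 : c ≠ 0 := hne c (mem_ball_self hs)
  have hcb := (mem_multibrot_iff hd c).mp hc
  set M : ℝ := 1 + 2 * 2 ^ d / ‖c‖ with hM
  set C : ℝ := Real.exp (Real.pi * Real.exp (Real.pi * (M + 386))) with hC
  have hmap : ∀ w ∈ ball (0 : ℂ) 1, c + s * w ∈ ball c s := by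
    intro w hw
    rw [mem_ball_zero_iff] at hw
    rw [mem_ball_iff_norm, add_sub_cancel_left, norm_mul, Complex.norm_real, Real.norm_eq_abs,
      abs_of_pos hs]
    nlinarith
  intro c' hc'
  set w : ℂ := (c' - c) / s with hw
  have hsC : (s : ℂ) ≠ 0 := by exact_mod_cast hs.ne'
  have hcw : c + s * w = c' := by rw [hw]; field_simp; ring
  have hwn : w ∈ ball (0 : ℂ) (1 / 2) := by
    rw [mem_ball_zero_iff, hw, norm_div, Complex.norm_real, Real.norm_eq_abs, abs_of_pos hs,
      div_lt_iff₀ hs]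
    rw [mem_ball_iff_norm] at hc'
    linarith
  have hc's : c' ∈ ball c s := ball_subset_ball (by linarith) hc'
  have hbound : ∀ n, 1 ≤ n → ‖P d n c'‖ ^ d ≤ (C + 1) * ‖c'‖ := by
    intro n hn
    set f : ℂ → ℂ := fun w => 1 + 2 * (P d n (c + s * w)) ^ d / (c + s * w) with hf
    have hfd : DifferentiableOn ℂ f (ball 0 1) := by
      intro x hx
      apply DifferentiableAt.differentiableWithinAt
      have h1 : DifferentiableAt ℂ (fun w : ℂ => c + s * w) x := by fun_prop
      have h2 : DifferentiableAt ℂ (fun w : ℂ => P d n (c + s * w)) x :=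
        DifferentiableAt.comp x (differentiable_P d n _) h1
      exact (((h2.pow d).const_mul 2).div h1 (hne _ (hmap x hx))).const_add 1
    have h1 : ∀ x ∈ ball (0 : ℂ) 1, f x ≠ 1 := by
      intro x hx h
      have h2 : 2 * (P d n (c + s * x)) ^ d / (c + s * x) = 0 := by
        have : f x - 1 = 0 := by rw [h, sub_self]
        rw [← this, hf]; ring
      rcases div_eq_zero_iff.mp h2 with h3 | h3
      · have h4 := (mul_eq_zero.mp h3).resolve_left two_ne_zero
        exact hPne _ (hmap x hx) n hn (pow_eq_zero_iff (by omega) |>.mp h4)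
      · exact hne _ (hmap x hx) h3
    have h2 : ∀ x ∈ ball (0 : ℂ) 1, f x ≠ -1 := by
      intro x hx h
      have hx0 := hne _ (hmap x hx)
      have h3 : 1 + 2 * (P d n (c + s * x)) ^ d / (c + s * x) = -1 := h
      have h4 : (P d n (c + s * x)) ^ d + (c + s * x) = 0 := by
        field_simp at h3
        linear_combination h3 / 2
      rw [← P_succ] at h4
      exact hPne _ (hmap x hx) (n + 1) (by omega) h4
    have h3 : ‖f 0‖ ≤ M := by
      simp only [hf, mul_zero, add_zero]
      refine (norm_add_le _ _).trans ?_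
      rw [norm_one, norm_div, norm_mul, norm_pow, hM]
      have h4 : ‖P d n c‖ ^ d ≤ 2 ^ d := pow_le_pow_left₀ (norm_nonneg _) (hcb n) d
      have h5 : ‖(2 : ℂ)‖ = 2 := by simp
      rw [h5]
      gcongr
    have h4 := H113G.schottky_all f M hfd h1 h2 h3 w hwn
    simp only [hf, hcw] at h4
    have hc'0 : 0 < ‖c'‖ := norm_pos_iff.mpr (hne c' hc's)
    have h5 : ‖2 * P d n c' ^ d / c'‖ ≤ C + 1 := by
      have h6 : ‖2 * P d n c' ^ d / c'‖ ≤ ‖1 + 2 * P d n c' ^ d / c'‖ + ‖(1 : ℂ)‖ := by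
        have := norm_sub_le (1 + 2 * P d n c' ^ d / c') 1
        rwa [add_sub_cancel_left] at this
      rw [norm_one] at h6
      linarith
    rw [norm_div, norm_mul, norm_pow, div_le_iff₀ hc'0] at h5
    have h6 : ‖(2 : ℂ)‖ = 2 := by simp
    rw [h6] at h5
    have h7 : 0 ≤ ‖P d n c'‖ ^ d := by positivity
    linarith
  -- the orbit is bounded
  change ¬ Tendsto (fun k => P d k c') atTop (Bornology.cobounded ℂ)
  intro htend
  have h1 : Tendsto (fun k => ‖P d k c'‖) atTop atTop := tendsto_norm_cobounded_atTop.comp htend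
  have h2 := (h1.eventually (eventually_gt_atTop (max 1 ((C + 1) * ‖c'‖)))).and
    (eventually_ge_atTop 1)
  obtain ⟨n, hn1, hn2⟩ := h2.exists
  have h3 := hbound n hn2
  have h4 : 1 < ‖P d n c'‖ := (le_max_left _ _).trans_lt hn1
  have h5 : (C + 1) * ‖c'‖ < ‖P d n c'‖ := (le_max_right _ _).trans_lt hn1
  have h6 : ‖P d n c'‖ ≤ ‖P d n c'‖ ^ d := le_self_pow₀ h4.le (by omega)
  linarith

/-- A ball around a parameter of the Multibrot set without hyperbolic parameters is contained in the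
Multibrot set. -/
theorem ball_subset {d : ℕ} (hd : 2 ≤ d) {c : ℂ} {r : ℝ} (hr : 0 < r) (hc : c ∈ multibrotSet d)
    (hno : ∀ c' ∈ ball c r, ¬ ∃ m z, IsAttractingCycle (fun z => z ^ d + c') m z) :
    ball c r ⊆ multibrotSet d := by
  have hpre : IsPreconnected (ball c r) := (convex_ball c r).isPreconnected
  have hloc : ∀ x ∈ ball c r, x ∈ multibrotSet d → x ∈ interior (multibrotSet d) := by
    intro x hx hxM
    obtain ⟨s, hs, hsub⟩ := Metric.isOpen_iff.mp isOpen_ball x hx
    have h1 := half_ball hd hs hxM (fun c' hc' => hno c' (hsub hc'))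
    exact mem_interior.mpr ⟨ball x (s / 2), h1, isOpen_ball, mem_ball_self (by linarith)⟩
  have hcl : IsClosed (multibrotSet d) := (isCompact_multibrot hd).isClosed
  have h1 := hpre.subset_of_closure_inter_subset (u := interior (multibrotSet d)) isOpen_interior
    ⟨c, mem_ball_self hr, hloc c (mem_ball_self hr) hc⟩ ?_
  · exact h1.trans interior_subset
  · rintro x ⟨hx1, hx2⟩
    exact hloc x hx2 (closure_minimal interior_subset hcl hx1)

end Pool.Agent.H713R2.AR
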