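import Mathlib
import Pool.Agent.H713R2.AR.HB

set_option autoImplicit false

open Complex Topology Filter Metric MeasureTheory Set N62a1eb23 Polynomial

namespace Pool.Agent.H713R2.AR

open Pool.Agent.H713R2 Pool.Agent.H712R2

theorem fc_grow {d : ℕ} (hd : 2 ≤ d) {c : ℂ} (hc : ‖c‖ ≤ 2) {w : ℂ} (hw : 3 < ‖w‖) :
    2 * ‖w‖ ≤ ‖fc d c w‖ := by
  unfold fc
  have h1 : ‖w‖ ^ 2 ≤ ‖w‖ ^ d := pow_le_pow_right₀ (by linarith) hd
  have h2 : ‖w ^ d‖ - ‖c‖ ≤ ‖w ^ d + c‖ := by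
    have := norm_sub_le (w ^ d + c) c
    rw [add_sub_cancel_right] at this
    linarith
  rw [norm_pow] at h2
  nlinarith

/-- The level sets. -/
def EE (d : ℕ) (c : ℂ) (j : ℕ) : Set ℂ := {z | ‖(fc d c)^[j] z‖ ≤ 3}

theorem EE_anti {d : ℕ} (hd : 2 ≤ d) {c : ℂ} (hc : ‖c‖ ≤ 2) : Antitone (EE d c) := by
  apply antitone_nat_of_succ_le
  intro j z hz
  have hz' : ‖(fc d c)^[j + 1] z‖ ≤ 3 := hz
  rw [Function.iterate_succ_apply'] at hz'
  by_contra hcon
  have hcon' : 3 < ‖(fc d c)^[j] z‖ := not_le.mp hcon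
  have := fc_grow hd hc hcon'
  linarith

theorem iInter_EE {d : ℕ} (hd : 2 ≤ d) {c : ℂ} (hc : ‖c‖ ≤ 2) :
    ⋂ j, EE d c j = {z | ¬ Tendsto (fun k => (fun z => z ^ d + c)^[k] z) atTop
      (Bornology.cobounded ℂ)} := by
  ext z
  rw [mem_iInter, mem_ofPred_eq]
  have hfc : (fun z : ℂ => z ^ d + c) = fc d c := rfl
  rw [hfc]
  constructor
  · intro h htend
    have h1 : Tendsto (fun k => ‖(fc d c)^[k] z‖) atTop atTop :=
      tendsto_norm_cobounded_atTop.comp htend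
    obtain ⟨k, hk⟩ := (h1.eventually (eventually_gt_atTop 3)).exists
    have h2 : ‖(fc d c)^[k] z‖ ≤ 3 := h k
    linarith
  · intro h j
    by_contra hcon
    have hcon' : 3 < ‖(fc d c)^[j] z‖ := not_le.mp hcon
    apply h
    have hgrow : ∀ k, (2 : ℝ) ^ k * 3 < ‖(fc d c)^[j + k] z‖ := by
      intro k
      induction k with
      | zero => simpa using hcon'
      | succ k ih =>
        have h1 : (1 : ℝ) ≤ 2 ^ k := one_le_pow₀ (by norm_num)
        have h2 := fc_grow hd hc (w := (fc d c)^[j + k] z) (by linarith)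
        rw [← add_assoc, Function.iterate_succ_apply', pow_succ]
        linarith
    rw [← tendsto_norm_atTop_iff_cobounded]
    rw [← tendsto_add_atTop_iff_nat j]
    apply tendsto_atTop_mono (f := fun k : ℕ => (2 : ℝ) ^ k)
    · intro k
      have := hgrow k
      rw [add_comm j k] at this
      have h2 : (0 : ℝ) < 2 ^ k := by positivity
      linarith
    · exact tendsto_pow_atTop_atTop_of_one_lt (by norm_num)

theorem continuous_iter (d : ℕ) (c : ℂ) (j : ℕ) : Continuous ((fc d c)^[j]) := by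
  have h1 : Continuous (fc d c) := by unfold fc; fun_prop
  exact h1.iterate j

theorem isCompact_EE {d : ℕ} (hd : 2 ≤ d) {c : ℂ} (hc : ‖c‖ ≤ 2) (j : ℕ) : IsCompact (EE d c j) := by
  apply Metric.isCompact_of_isClosed_isBounded
  · exact isClosed_le (continuous_iter d c j).norm continuous_const
  · apply (isBounded_closedBall (x := (0:ℂ)) (r := 3)).subset
    intro z hz
    rw [mem_closedBall_zero_iff]
    exact EE_anti hd hc (Nat.zero_le j) hz

/-- The radius with `ρ ^ (-d ^ j) = 3`. -/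
noncomputable def rho (d j : ℕ) : ℝ := (1 / 3 : ℝ) ^ (((d ^ j : ℕ) : ℝ)⁻¹)

theorem rho_pow {d : ℕ} (hd : 2 ≤ d) (m : ℕ) : rho d m ^ (d ^ m) = 1 / 3 :=
  Real.rpow_inv_natCast_pow (by norm_num) (pow_ne_zero _ (by omega))

theorem rho_pos (d m : ℕ) : 0 < rho d m := Real.rpow_pos_of_pos (by norm_num) _

theorem rho_lt {d : ℕ} (hd : 2 ≤ d) (m : ℕ) : rho d m < rad d m := by
  rw [← pow_lt_pow_iff_left₀ (rho_pos d m).le (rad_pos d m).le
    (pow_ne_zero m (by omega : d ≠ 0)), rho_pow hd, rad_pow hd]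
  norm_num

theorem compl_UU_subset {d : ℕ} (hd : 2 ≤ d) {G : ℕ → ℂ × ℂ → ℂ} (hG : IsSeq d G) (j : ℕ) {c : ℂ}
    (hc : Bd d c) : (UU (fun x => G j (c, x)) (rho d j))ᶜ ⊆ EE d c j := by
  intro z hz
  by_contra hcon
  have hcon' : 3 < ‖(fc d c)^[j] z‖ := not_le.mp hcon
  apply hz
  have hz0 : z ≠ 0 := by
    rintro rfl
    have : ‖(fc d c)^[j] 0‖ ≤ 2 := hc j
    linarith
  have hfz : (fc d c)^[j] z ≠ 0 := by
    intro h; rw [h, norm_zero] at hcon'; linarith
  obtain ⟨x, hx0, hxA, hx⟩ := (hG.isG j).surj c z hz0 hfz (fun i _ _ => by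
    have := hc i; linarith)
  refine ⟨x, ⟨hx0, ?_⟩, hx⟩
  have h1 := (hG.isG j).conj c x hxA hx0
  rw [hx] at h1
  rw [h1, norm_pow, norm_inv, inv_pow] at hcon'
  have hxp : 0 < ‖x‖ ^ (d ^ j) := by have := norm_pos_iff.mpr hx0; positivity
  rw [← pow_lt_pow_iff_left₀ (norm_nonneg x) (rho_pos d j).le (pow_ne_zero j (by omega : d ≠ 0)),
    rho_pow hd, one_div]
  exact (lt_inv_comm₀ (by norm_num) hxp).mp hcon'

/-- The finite level inequality. -/
theorem level_ineq {d a b : ℕ} (hab : a + b + 2 = d) {γ : ℂ → ℂ}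
    (hγ : DifferentiableOn ℂ γ (ball 0 1)) (hγB : ∀ t ∈ ball (0 : ℂ) 1, Bd d (γ t)) (j : ℕ) :
    (‖deriv γ 0‖ / d) ^ 2 ≤ (1 / Real.pi * ∫ z in EE d (γ 0) (j + 1), ‖z‖ ^ (2 * a)) *
      (1 / Real.pi * ∫ z in EE d (γ 0) (j + 1), ‖z‖ ^ (2 * b)) := by
  have hd : 2 ≤ d := by omega
  obtain ⟨G, hG⟩ := exists_seq hd
  set c : ℂ := γ 0 with hc
  set r : ℂ := deriv γ 0 with hr
  have h0 : (0 : ℂ) ∈ ball (0 : ℂ) 1 := mem_ball_self one_pos
  have hcB : Bd d c := hγB 0 h0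
  have hc2 : ‖c‖ ≤ 2 := by have := hcB 1; rwa [P_one hd] at this
  set g : ℂ → ℂ → ℂ := fun t x => G (j + 1) (γ t, x) with hg
  have hmain := family_ineq (rho_pos d (j + 1)) (rho_lt hd (j + 1)) (g := g)
    (fun t ht => isExt_seq hd hG (j + 1) (hγB t ht))
    (fun n k => pc_holo hd hG hγ hγB (j + 1) n k) a (m := b + 1) (by omega)
  -- the coefficient
  have hcoef : ∀ t ∈ ball (0 : ℂ) 1, hb (pc (g t)) (a + 1) (a + 1 + (b + 1)) =
      ((a + 1 : ℕ) : ℂ) * (-(γ t) / d) := by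
    intro t ht
    rw [hb_eq, show a + 1 + (b + 1) = d by omega]
    have h1 : pc (g t) 1 d = -(γ t) / d := pc_one_d hd hG j (hγB t ht)
    have hps : PowSeq (pc (g t)) :=
      powSeq_pc (rad_pos d (j + 1)) (isExt_seq hd hG (j + 1) (hγB t ht)).diff
        ((hG.isG (j + 1)).zero _)
    have h2 : pc (g t) (a + 1) d = ((a + 1 : ℕ) : ℂ) * pc (g t) 1 d :=
      hps.low (by omega) (fun i hi hik => pc_one hd hG (j + 1) (hγB t ht) i hi hik) (a + 1)
    have h3 : ∑ k : Fin (a + 1), (if a + 1 - (k : ℕ) ≤ d then pc (g t) (a + 1) (a + 1 - k) *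
        hb (pc (g t)) k (d - (a + 1 - k)) else 0) = 0 := by
      apply Finset.sum_eq_zero
      intro k _
      have hk := k.2
      have h4 : pc (g t) (a + 1) (a + 1 - k) = 0 :=
        pc_low hd hG (j + 1) (hγB t ht) (a + 1) _ (by omega) (by omega)
      rw [h4, zero_mul, ite_self]
    rw [h3, sub_zero, h2, h1]
  have hder : deriv (fun t => hb (pc (g t)) (a + 1) (a + 1 + (b + 1))) 0 =
      ((a + 1 : ℕ) : ℂ) * (-r / d) := by
    have h1 : (fun t => hb (pc (g t)) (a + 1) (a + 1 + (b + 1))) =ᶠ[𝓝 0]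
        fun t => ((a + 1 : ℕ) : ℂ) * (-(γ t) / d) := by
      filter_upwards [isOpen_ball.mem_nhds h0] with t ht using hcoef t ht
    rw [h1.deriv_eq]
    have h2 : HasDerivAt γ r 0 := (hγ.differentiableAt (isOpen_ball.mem_nhds h0)).hasDerivAt
    exact ((h2.neg.div_const (d : ℂ)).const_mul _).deriv
  -- the Faber polynomials
  have hg0 : g 0 = fun x => G (j + 1) (c, x) := rfl
  have hlow : ∀ n k, 1 ≤ k → k < d → pc (g 0) n k = 0 := by
    intro n k hk hkd
    rw [hg0]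
    exact pc_low hd hG (j + 1) hcB n k hk hkd
  have hFb : ∀ n, n < d → Fb (pc (g 0)) n = X ^ n := by
    intro n hn
    rw [Fb_eq]
    have : ∑ k : Fin n, C (pc (g 0) n (n - k)) * Fb (pc (g 0)) k = 0 := by
      apply Finset.sum_eq_zero
      intro k _
      rw [hlow n _ (by omega) (by omega)]
      simp
    rw [this, sub_zero]
  rw [hFb (a + 1) (by omega), hFb (b + 1) (by omega), hder] at hmain
  have hsub : (UU (g 0) (rho d (j + 1)))ᶜ ⊆ EE d c (j + 1) := by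
    rw [hg0]; exact compl_UU_subset hd hG (j + 1) hcB
  have hEc := isCompact_EE hd hc2 (j + 1)
  have hpi := Real.pi_pos
  have hdR : (0 : ℝ) < d := by exact_mod_cast (by omega : 0 < d)
  -- simplify the integrands
  have hi : ∀ n : ℕ, ∫ z in (UU (g 0) (rho d (j + 1)))ᶜ,
      ‖(derivative (X ^ (n + 1) : ℂ[X])).eval z‖ ^ 2 ≤
      ((n + 1 : ℕ) : ℝ) ^ 2 * ∫ z in EE d c (j + 1), ‖z‖ ^ (2 * n) := by
    intro n
    have : ∀ z : ℂ, ‖(derivative (X ^ (n + 1) : ℂ[X])).eval z‖ ^ 2 =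
        ((n + 1 : ℕ) : ℝ) ^ 2 * ‖z‖ ^ (2 * n) := by
      intro z
      rw [derivative_X_pow]
      simp only [eval_mul, eval_C, eval_pow, eval_X]
      rw [norm_mul, norm_pow, Complex.norm_natCast, mul_pow, ← pow_mul,
        show n + 1 - 1 = n by omega, mul_comm n 2]
    simp only [this]
    rw [integral_const_mul]
    apply mul_le_mul_of_nonneg_left _ (by positivity)
    apply setIntegral_mono_set
    · exact ((continuous_norm.pow _).continuousOn).integrableOn_compact hEc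
    · exact Filter.Eventually.of_forall fun z => by positivity
    · exact hsub.eventuallyLE
  have hnorm : ‖((a + 1 : ℕ) : ℂ) * (-r / d)‖ = ((a + 1 : ℕ) : ℝ) * (‖r‖ / d) := by
    rw [norm_mul, norm_div, norm_neg, Complex.norm_natCast, Complex.norm_natCast]
  rw [hnorm] at hmain
  have h1 : (((b + 1 : ℕ) : ℝ) * (((a + 1 : ℕ) : ℝ) * (‖r‖ / d))) ^ 2 ≤
      (1 / Real.pi * (((a + 1 : ℕ) : ℝ) ^ 2 * ∫ z in EE d c (j + 1), ‖z‖ ^ (2 * a))) *
      (1 / Real.pi * (((b + 1 : ℕ) : ℝ) ^ 2 * ∫ z in EE d c (j + 1), ‖z‖ ^ (2 * b))) := by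
    refine hmain.trans ?_
    apply mul_le_mul
    · exact mul_le_mul_of_nonneg_left (hi a) (by positivity)
    · exact mul_le_mul_of_nonneg_left (hi b) (by positivity)
    · apply mul_nonneg (by positivity)
      apply integral_nonneg; intro z; positivity
    · apply mul_nonneg (by positivity)
      apply mul_nonneg (by positivity)
      apply integral_nonneg; intro z; positivity
  have h2 : (((a + 1 : ℕ) : ℝ) ^ 2 * ((b + 1 : ℕ) : ℝ) ^ 2) * (‖r‖ / d) ^ 2 ≤
      (((a + 1 : ℕ) : ℝ) ^ 2 * ((b + 1 : ℕ) : ℝ) ^ 2) *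
      ((1 / Real.pi * ∫ z in EE d c (j + 1), ‖z‖ ^ (2 * a)) *
      (1 / Real.pi * ∫ z in EE d c (j + 1), ‖z‖ ^ (2 * b))) := by
    calc _ = (((b + 1 : ℕ) : ℝ) * (((a + 1 : ℕ) : ℝ) * (‖r‖ / d))) ^ 2 := by ring
      _ ≤ _ := h1
      _ = _ := by ring
  exact le_of_mul_le_mul_left h2 (by positivity)

/-- The filled Julia set of `z ^ d + c`. -/
def KK (d : ℕ) (c : ℂ) : Set ℂ :=
  {z | ¬ Tendsto (fun k => (fun z => z ^ d + c)^[k] z) atTop (Bornology.cobounded ℂ)}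

theorem main_ineq {d a b : ℕ} (hab : a + b + 2 = d) {γ : ℂ → ℂ}
    (hγ : DifferentiableOn ℂ γ (ball 0 1)) (hγM : ∀ t ∈ ball (0 : ℂ) 1, γ t ∈ multibrotSet d) :
    ‖deriv γ 0‖ ≤ d / Real.pi *
      √((∫ z in KK d (γ 0), ‖z‖ ^ (2 * a)) * ∫ z in KK d (γ 0), ‖z‖ ^ (2 * b)) := by
  have hd : 2 ≤ d := by omega
  have hpi := Real.pi_pos
  have hB : ∀ t ∈ ball (0 : ℂ) 1, Bd d (γ t) := fun t ht => (mem_multibrot_iff hd _).mp (hγM t ht)
  set c : ℂ := γ 0 with hc
  set r : ℝ := ‖deriv γ 0‖ with hr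
  have hr0 : 0 ≤ r := norm_nonneg _
  have hc2 : ‖c‖ ≤ 2 := by have := hB 0 (mem_ball_self one_pos) 1; rwa [P_one hd] at this
  have hdR : (0 : ℝ) < d := by exact_mod_cast (by omega : 0 < d)
  have hlim : ∀ f : ℂ → ℝ, Continuous f →
      Tendsto (fun j => ∫ z in EE d c (j + 1), f z) atTop (𝓝 (∫ z in KK d c, f z)) := by
    intro f hf
    have h1 := tendsto_setIntegral_of_antitone (μ := volume) (f := f) (s := EE d c)
      (fun j => (isCompact_EE hd hc2 j).isClosed.measurableSet) (EE_anti hd hc2)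
      ⟨0, hf.continuousOn.integrableOn_compact (isCompact_EE hd hc2 0)⟩
    rw [iInter_EE hd hc2] at h1
    exact h1.comp (tendsto_add_atTop_nat 1)
  have h1 := hlim (fun z => ‖z‖ ^ (2 * a)) (by fun_prop)
  have h2 := hlim (fun z => ‖z‖ ^ (2 * b)) (by fun_prop)
  have h3 := ge_of_tendsto' ((h1.const_mul (1 / Real.pi)).mul (h2.const_mul (1 / Real.pi)))
    (fun j => level_ineq hab hγ hB j)
  set S : ℝ := (∫ z in KK d c, ‖z‖ ^ (2 * a)) * ∫ z in KK d c, ‖z‖ ^ (2 * b) with hS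
  have h4 : (r / d * Real.pi) ^ 2 ≤ S := by
    have h5 : (r / d) ^ 2 ≤ (1 / Real.pi) ^ 2 * S := by
      refine h3.trans (le_of_eq ?_)
      rw [hS]; ring
    rw [mul_pow]
    calc (r / d) ^ 2 * Real.pi ^ 2 ≤ ((1 / Real.pi) ^ 2 * S) * Real.pi ^ 2 :=
          mul_le_mul_of_nonneg_right h5 (by positivity)
      _ = S := by field_simp
  have h5 := Real.le_sqrt_of_sq_le h4
  calc r = d / Real.pi * (r / d * Real.pi) := by field_simp
    _ ≤ _ := mul_le_mul_of_nonneg_left h5 (by positivity)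

/-- A connected open set of parameters without attracting cycles which meets the Multibrot set is
contained in it. -/
theorem open_subset {d : ℕ} (hd : 2 ≤ d) {V : Set ℂ} (hV : IsOpen V) (hVc : IsPreconnected V)
    {c : ℂ} (hcV : c ∈ V) (hc : c ∈ multibrotSet d)
    (hno : ∀ c' ∈ V, ¬ ∃ m z, IsAttractingCycle (fun z => z ^ d + c') m z) :
    V ⊆ multibrotSet d := by
  have hloc : ∀ x ∈ V, x ∈ multibrotSet d → x ∈ interior (multibrotSet d) := by
    intro x hx hxM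
    obtain ⟨s, hs, hsub⟩ := Metric.isOpen_iff.mp hV x hx
    have h1 := half_ball hd hs hxM (fun c' hc' => hno c' (hsub hc'))
    exact mem_interior.mpr ⟨ball x (s / 2), h1, isOpen_ball, mem_ball_self (by linarith)⟩
  have hcl : IsClosed (multibrotSet d) := (isCompact_multibrot hd).isClosed
  have h1 := hVc.subset_of_closure_inter_subset (u := interior (multibrotSet d)) isOpen_interior
    ⟨c, hcV, hloc c hcV hc⟩ ?_
  · exact h1.trans interior_subset
  · rintro x ⟨hx1, hx2⟩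
    exact hloc x hx2 (closure_minimal interior_subset hcl hx1)

theorem main_T1 {d a b : ℕ} (hab : a + b + 2 = d) {V : Set ℂ} (hV : IsOpen V)
    (hVc : IsPreconnected V) {γ : ℂ → ℂ} (hγ : DifferentiableOn ℂ γ (ball 0 1))
    (hγV : ∀ t ∈ ball (0 : ℂ) 1, γ t ∈ V) (hc : γ 0 ∈ multibrotSet d)
    (hno : (∀ c' ∈ V, ¬ ∃ m z, IsAttractingCycle (fun z => z ^ d + c') m z) ∨
      V ⊆ multibrotSet d) :
    ‖deriv γ 0‖ ≤ d / Real.pi *
      √((∫ z in KK d (γ 0), ‖z‖ ^ (2 * a)) * ∫ z in KK d (γ 0), ‖z‖ ^ (2 * b)) := by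
  have hVM : V ⊆ multibrotSet d := by
    rcases hno with h | h
    · exact open_subset (by omega) hV hVc (hγV 0 (mem_ball_self one_pos)) hc h
    · exact h
  exact main_ineq hab hγ (fun t ht => hVM (hγV t ht))

end Pool.Agent.H713R2.AR
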