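import Mathlib
import Pool.Agent.H713R2.AR.T1

set_option autoImplicit false

open Complex Topology Filter Metric MeasureTheory Set Polynomial

namespace Pool.Agent.H713R2.AR

open Pool.Agent.H713R2 Pool.Agent.H712R2

/-- The first `J` points of the critical orbit are bounded by `M`. -/
def BdJ (d : ℕ) (M : ℝ) (J : ℕ) (c : ℂ) : Prop := ∀ i, 1 ≤ i → i ≤ J → ‖P d i c‖ ≤ M

theorem BdJ.mono {d : ℕ} {M : ℝ} {J J' : ℕ} {c : ℂ} (h : BdJ d M J c) (hJ : J' ≤ J) :
    BdJ d M J' c := fun i h1 h2 => h i h1 (h2.trans hJ)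

/-- The radius with `radM ^ (d ^ j) = 1 / M`. -/
noncomputable def radM (d : ℕ) (M : ℝ) (j : ℕ) : ℝ := (1 / M) ^ (((d ^ j : ℕ) : ℝ)⁻¹)

theorem radM_pow {d : ℕ} (hd : 2 ≤ d) {M : ℝ} (hM : 0 < M) (m : ℕ) :
    radM d M m ^ (d ^ m) = 1 / M :=
  Real.rpow_inv_natCast_pow (by positivity) (pow_ne_zero _ (by omega))

theorem radM_pos (d : ℕ) {M : ℝ} (hM : 0 < M) (m : ℕ) : 0 < radM d M m :=
  Real.rpow_pos_of_pos (by positivity) _

theorem radM_lt {d : ℕ} (hd : 2 ≤ d) {M M' : ℝ} (hM : 0 < M) (hMM : M < M') (m : ℕ) :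
    radM d M' m < radM d M m := by
  rw [← pow_lt_pow_iff_left₀ (radM_pos d (hM.trans hMM) m).le (radM_pos d hM m).le
    (pow_ne_zero m (by omega : d ≠ 0)), radM_pow hd hM, radM_pow hd (hM.trans hMM)]
  exact one_div_lt_one_div_of_lt hM hMM

theorem mem_AA_of_BdJ {d : ℕ} (hd : 2 ≤ d) {M : ℝ} (hM : 0 < M) {j : ℕ} {c x : ℂ}
    (hc : BdJ d M j c) (hx : x ∈ ball (0 : ℂ) (radM d M j)) : (c, x) ∈ AA d j := by
  intro i hi1 hi2
  simp only
  have h1 : ‖x‖ ^ (d ^ j) < 1 / M := by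
    rw [← radM_pow hd hM j]
    exact pow_lt_pow_left₀ (mem_ball_zero_iff.mp hx) (norm_nonneg _) (pow_ne_zero _ (by omega))
  have h2 := hc i hi1 hi2
  have h3 := norm_nonneg (P d i c)
  have h4 : 0 ≤ ‖x‖ ^ (d ^ j) := by positivity
  have h5 : ‖x‖ ^ (d ^ j) * M < 1 := by
    rw [lt_div_iff₀ hM] at h1
    exact h1
  calc ‖x‖ ^ (d ^ j) * ‖P d i c‖ ≤ ‖x‖ ^ (d ^ j) * M := mul_le_mul_of_nonneg_left h2 h4
    _ < 1 := h5

theorem isExt_seqM {d : ℕ} (hd : 2 ≤ d) {M : ℝ} (hM : 0 < M) {G : ℕ → ℂ × ℂ → ℂ}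
    (hG : IsSeq d G) (j : ℕ) {c : ℂ}
    (hc : BdJ d M j c) : IsExt (radM d M j) (fun x => G j (c, x)) where
  diff := fun x hx =>
    (seq_diff hd hG j c x (mem_AA_of_BdJ hd hM hc hx)).differentiableWithinAt
  zero := (hG.isG j).zero c
  inj := fun x hx y hy hx0 hy0 h =>
    (hG.isG j).inj c x y (mem_AA_of_BdJ hd hM hc hx) (mem_AA_of_BdJ hd hM hc hy) hx0 hy0 h

theorem radM_succ {d : ℕ} (hd : 2 ≤ d) {M : ℝ} (hM : 0 < M) (j : ℕ) :
    radM d M (j + 1) ^ d = radM d M j := by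
  have h1 : (radM d M (j + 1) ^ d) ^ (d ^ j) = radM d M j ^ (d ^ j) := by
    rw [← pow_mul, radM_pow hd hM, ← pow_succ', radM_pow hd hM]
  exact (pow_left_inj₀ (pow_nonneg (radM_pos d hM _).le _) (radM_pos d hM j).le
    (pow_ne_zero _ (by omega))).mp h1

/-- The recursion for the coefficients. -/
theorem pc_succM {d : ℕ} (hd : 2 ≤ d) {M : ℝ} (hM : 0 < M) {G : ℕ → ℂ × ℂ → ℂ} (hG : IsSeq d G)
    (j : ℕ) {c : ℂ} (hc : BdJ d M (j + 1) c) (k : ℕ) :
    pc (fun x => G (j + 1) (c, x)) d k =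
      if d ∣ k then pc (fun x => G j (c, x)) 1 (k / d) - (if k / d = 1 then c else 0) else 0 := by
  have hR := radM_pos d hM (j + 1)
  have hRj := radM_pos d hM j
  have hD := (isExt_seqM hd hM hG j (hc.mono (Nat.le_succ j))).diff
  have h1 : tc (fun x => (fun y => G j (c, y) - c * y) (x ^ d)) k =
      if d ∣ k then tc (fun y => G j (c, y) - c * y) (k / d) else 0 :=
    tc_comp_pow (by omega) hR (radM_succ hd hM j).le (hD.sub (by fun_prop)) k
  have h2 : pc (fun x => G (j + 1) (c, x)) d k =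
      tc (fun x => (fun y => G j (c, y) - c * y) (x ^ d)) k := by
    have h3 := tc_unique (a := pc (fun x => G (j + 1) (c, x)) d)
      (F := fun x => (fun y => G j (c, y) - c * y) (x ^ d)) hR ?_ ?_
    · rw [h3]
    · apply DifferentiableOn.comp (g := fun y => G j (c, y) - c * y) (t := ball 0 (radM d M j))
      · exact hD.sub (by fun_prop)
      · fun_prop
      · intro x hx
        rw [mem_ball_zero_iff] at hx ⊢
        rw [norm_pow, ← radM_succ hd hM j]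
        exact pow_lt_pow_left₀ hx (norm_nonneg _) (by omega)
    · filter_upwards [ball_mem_nhds (0 : ℂ) hR] with x hx
      have h4 := hasSum_tc ((isExt_seqM hd hM hG (j + 1) hc).diff.pow d) hx
      have h5 := hG.relation j c x (mem_AA_of_BdJ hd hM hc hx)
      rw [← h5]
      exact h4
  rw [h2, h1]
  congr 1
  rw [tc_sub hRj hD (by fun_prop), tc_const_mul_id]
  congr 1
  simp only [pc, pow_one]

theorem pc_oneM {d : ℕ} (hd : 2 ≤ d) {M : ℝ} (hM : 0 < M) {G : ℕ → ℂ × ℂ → ℂ} (hG : IsSeq d G)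
    (j : ℕ) {c : ℂ} (hc : BdJ d M j c) :
    ∀ k, 1 ≤ k → k < d → pc (fun x => G j (c, x)) 1 k = 0 := by
  have hps : PowSeq (pc (fun x => G j (c, x))) :=
    powSeq_pc (radM_pos d hM j) (isExt_seqM hd hM hG j hc).diff ((hG.isG j).zero c)
  have hdC : (d : ℂ) ≠ 0 := by exact_mod_cast (by omega : d ≠ 0)
  cases j with
  | zero =>
    intro k hk _
    obtain ⟨k, rfl⟩ : ∃ l, k = l + 1 := ⟨k - 1, by omega⟩
    have h1 : (fun x => (fun x => G 0 (c, x)) x ^ 1) = fun _ => (1 : ℂ) := by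
      funext x; simp [hG.base]
    rw [pc, h1, tc_const_succ]
  | succ j =>
    intro k
    induction k using Nat.strong_induction_on with
    | _ k ih =>
      intro hk hkd
      have h1 := hps.low hk (fun i hi hik => ih i hik hi (by omega)) d
      rw [pc_succM hd hM hG j hc,
        if_neg (fun h => by have := Nat.le_of_dvd (by omega) h; omega)] at h1
      exact (mul_eq_zero.mp h1.symm).resolve_left hdC

theorem pc_lowM {d : ℕ} (hd : 2 ≤ d) {M : ℝ} (hM : 0 < M) {G : ℕ → ℂ × ℂ → ℂ} (hG : IsSeq d G)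
    (j : ℕ) {c : ℂ} (hc : BdJ d M j c) (n k : ℕ) (hk : 1 ≤ k) (hkd : k < d) :
    pc (fun x => G j (c, x)) n k = 0 := by
  have hps : PowSeq (pc (fun x => G j (c, x))) :=
    powSeq_pc (radM_pos d hM j) (isExt_seqM hd hM hG j hc).diff ((hG.isG j).zero c)
  rw [hps.low hk (fun i hi hik => pc_oneM hd hM hG j hc i hi (by omega)) n,
    pc_oneM hd hM hG j hc k hk hkd, mul_zero]

theorem pc_one_dM {d : ℕ} (hd : 2 ≤ d) {M : ℝ} (hM : 0 < M) {G : ℕ → ℂ × ℂ → ℂ} (hG : IsSeq d G)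
    (j : ℕ) {c : ℂ} (hc : BdJ d M (j + 1) c) : pc (fun x => G (j + 1) (c, x)) 1 d = -c / d := by
  have hps : PowSeq (pc (fun x => G (j + 1) (c, x))) :=
    powSeq_pc (radM_pos d hM (j + 1)) (isExt_seqM hd hM hG (j + 1) hc).diff ((hG.isG (j + 1)).zero c)
  have hdC : (d : ℂ) ≠ 0 := by exact_mod_cast (by omega : d ≠ 0)
  have h1 := hps.low (k := d) (by omega)
    (fun i hi hik => pc_oneM hd hM hG (j + 1) hc i hi hik) d
  rw [pc_succM hd hM hG j hc, if_pos dvd_rfl, Nat.div_self (by omega), if_pos rfl,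
    pc_oneM hd hM hG j (hc.mono (Nat.le_succ j)) 1 le_rfl (by omega)] at h1
  rw [eq_div_iff hdC, mul_comm, ← h1]
  ring

/-- Holomorphic dependence of the coefficients on a parameter. -/
theorem pc_holoM {d : ℕ} (hd : 2 ≤ d) {M : ℝ} (hM : 0 < M) {G : ℕ → ℂ × ℂ → ℂ} (hG : IsSeq d G)
    {s : Set ℂ} {γ : ℂ → ℂ} (hγ : DifferentiableOn ℂ γ s) (j : ℕ)
    (hB : ∀ t ∈ s, BdJ d M j (γ t)) :
    ∀ n k, DifferentiableOn ℂ (fun t => pc (fun x => G j (γ t, x)) n k) s := by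
  have hps : ∀ j, (∀ t ∈ s, BdJ d M j (γ t)) → ∀ t ∈ s, PowSeq (pc (fun x => G j (γ t, x))) :=
    fun j hB t ht =>
    powSeq_pc (radM_pos d hM j) (isExt_seqM hd hM hG j (hB t ht)).diff ((hG.isG j).zero _)
  induction j with
  | zero =>
    intro n k
    have h1 : (fun t => pc (fun x => G 0 (γ t, x)) n k) = fun _ => tc (fun _ => (1 : ℂ)) k := by
      funext t
      simp only [pc]
      congr 1
      funext x
      rw [hG.base, one_pow]
    rw [h1]
    exact differentiableOn_const _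
  | succ j ih =>
    have hBj : ∀ t ∈ s, BdJ d M j (γ t) := fun t ht => (hB t ht).mono (Nat.le_succ j)
    intro n k
    refine powSeq_diff (hps (j + 1) hB) (d := d) (by omega) ?_ k n
    intro k
    refine DifferentiableOn.congr ?_ (fun t ht => pc_succM hd hM hG j (hB t ht) k)
    by_cases hdk : d ∣ k
    · simp only [if_pos hdk]
      apply (ih hBj 1 _).sub
      by_cases hk1 : k / d = 1
      · simp only [if_pos hk1]; exact hγ
      · simp only [if_neg hk1]; exact differentiableOn_const _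
    · simp only [if_neg hdk]; exact differentiableOn_const _

theorem fc_growM {d : ℕ} (hd : 2 ≤ d) {M : ℝ} (hM : 3 ≤ M) {c : ℂ} (hc : ‖c‖ ≤ M) {w : ℂ}
    (hw : M < ‖w‖) : 2 * ‖w‖ ≤ ‖fc d c w‖ := by
  unfold fc
  have h1 : ‖w‖ ^ 2 ≤ ‖w‖ ^ d := pow_le_pow_right₀ (by linarith) hd
  have h2 : ‖w ^ d‖ - ‖c‖ ≤ ‖w ^ d + c‖ := by
    have := norm_sub_le (w ^ d + c) c
    rw [add_sub_cancel_right] at this
    linarith
  rw [norm_pow] at h2
  nlinarith

/-- The level sets. -/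
def EM (d : ℕ) (M : ℝ) (c : ℂ) (j : ℕ) : Set ℂ := {z | ‖(fc d c)^[j] z‖ ≤ M}

theorem EM_anti {d : ℕ} (hd : 2 ≤ d) {M : ℝ} (hM : 3 ≤ M) {c : ℂ} (hc : ‖c‖ ≤ M) :
    Antitone (EM d M c) := by
  apply antitone_nat_of_succ_le
  intro j z hz
  have hz' : ‖(fc d c)^[j + 1] z‖ ≤ M := hz
  rw [Function.iterate_succ_apply'] at hz'
  by_contra hcon
  have hcon' : M < ‖(fc d c)^[j] z‖ := not_le.mp hcon
  have := fc_growM hd hM hc hcon'
  linarith

theorem isCompact_EM {d : ℕ} (hd : 2 ≤ d) {M : ℝ} (hM : 3 ≤ M) {c : ℂ} (hc : ‖c‖ ≤ M) (j : ℕ) :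
    IsCompact (EM d M c j) := by
  apply Metric.isCompact_of_isClosed_isBounded
  · exact isClosed_le (continuous_iter d c j).norm continuous_const
  · apply (isBounded_closedBall (x := (0:ℂ)) (r := M)).subset
    intro z hz
    rw [mem_closedBall_zero_iff]
    exact EM_anti hd hM hc (Nat.zero_le j) hz

theorem compl_UU_subsetM {d : ℕ} (hd : 2 ≤ d) {M M' : ℝ} (hM : 0 < M) (hMM : M < M')
    {G : ℕ → ℂ × ℂ → ℂ} (hG : IsSeq d G) (j : ℕ) {c : ℂ}
    (hc : BdJ d M j c) : (UU (fun x => G j (c, x)) (radM d M' j))ᶜ ⊆ EM d M' c j := by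
  intro z hz
  by_contra hcon
  have hcon' : M' < ‖(fc d c)^[j] z‖ := not_le.mp hcon
  apply hz
  have hfz : (fc d c)^[j] z ≠ 0 := by
    intro h; rw [h, norm_zero] at hcon'; linarith
  have hz0 : z ≠ 0 := by
    rintro rfl
    cases j with
    | zero => exact hfz rfl
    | succ j =>
      have : ‖(fc d c)^[j + 1] 0‖ ≤ M := hc (j + 1) (by omega) le_rfl
      linarith
  obtain ⟨x, hx0, hxA, hx⟩ := (hG.isG j).surj c z hz0 hfz (fun i h1 h2 => by
    have := hc i h1 h2; linarith)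
  refine ⟨x, ⟨hx0, ?_⟩, hx⟩
  have h1 := (hG.isG j).conj c x hxA hx0
  rw [hx] at h1
  rw [h1, norm_pow, norm_inv, inv_pow] at hcon'
  have hxp : 0 < ‖x‖ ^ (d ^ j) := by have := norm_pos_iff.mpr hx0; positivity
  rw [← pow_lt_pow_iff_left₀ (norm_nonneg x) (radM_pos d (hM.trans hMM) j).le
    (pow_ne_zero j (by omega : d ≠ 0)),
    radM_pow hd (hM.trans hMM), one_div]
  exact (lt_inv_comm₀ (hM.trans hMM) hxp).mp hcon'

/-- The finite level inequality, for families with bounded finite critical orbits. -/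
theorem level_ineqM {d a b : ℕ} (hab : a + b + 2 = d) {M M' : ℝ} (hM : 0 < M) (hMM : M < M')
    (hM3 : 3 ≤ M') {γ : ℂ → ℂ} (hγ : DifferentiableOn ℂ γ (ball 0 1)) (j : ℕ)
    (hγB : ∀ t ∈ ball (0 : ℂ) 1, BdJ d M (j + 1) (γ t)) :
    (‖deriv γ 0‖ / d) ^ 2 ≤ (1 / Real.pi * ∫ z in EM d M' (γ 0) (j + 1), ‖z‖ ^ (2 * a)) *
      (1 / Real.pi * ∫ z in EM d M' (γ 0) (j + 1), ‖z‖ ^ (2 * b)) := by
  have hd : 2 ≤ d := by omega
  obtain ⟨G, hG⟩ := exists_seq hd
  set c : ℂ := γ 0 with hc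
  set r : ℂ := deriv γ 0 with hr
  have h0 : (0 : ℂ) ∈ ball (0 : ℂ) 1 := mem_ball_self one_pos
  have hcB : BdJ d M (j + 1) c := hγB 0 h0
  have hc2 : ‖c‖ ≤ M' := by
    have := hcB 1 le_rfl (by omega)
    rw [P_one hd] at this
    linarith
  set g : ℂ → ℂ → ℂ := fun t x => G (j + 1) (γ t, x) with hg
  have hmain := family_ineq (radM_pos d (hM.trans hMM) (j + 1)) (radM_lt hd hM hMM (j + 1)) (g := g)
    (fun t ht => isExt_seqM hd hM hG (j + 1) (hγB t ht))
    (fun n k => pc_holoM hd hM hG hγ (j + 1) hγB n k) a (m := b + 1) (by omega)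
  -- the coefficient
  have hcoef : ∀ t ∈ ball (0 : ℂ) 1, hb (pc (g t)) (a + 1) (a + 1 + (b + 1)) =
      ((a + 1 : ℕ) : ℂ) * (-(γ t) / d) := by
    intro t ht
    rw [hb_eq, show a + 1 + (b + 1) = d by omega]
    have h1 : pc (g t) 1 d = -(γ t) / d := pc_one_dM hd hM hG j (hγB t ht)
    have hps : PowSeq (pc (g t)) :=
      powSeq_pc (radM_pos d hM (j + 1)) (isExt_seqM hd hM hG (j + 1) (hγB t ht)).diff
        ((hG.isG (j + 1)).zero _)
    have h2 : pc (g t) (a + 1) d = ((a + 1 : ℕ) : ℂ) * pc (g t) 1 d :=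
      hps.low (by omega) (fun i hi hik => pc_oneM hd hM hG (j + 1) (hγB t ht) i hi hik) (a + 1)
    have h3 : ∑ k : Fin (a + 1), (if a + 1 - (k : ℕ) ≤ d then pc (g t) (a + 1) (a + 1 - k) *
        hb (pc (g t)) k (d - (a + 1 - k)) else 0) = 0 := by
      apply Finset.sum_eq_zero
      intro k _
      have hk := k.2
      have h4 : pc (g t) (a + 1) (a + 1 - k) = 0 :=
        pc_lowM hd hM hG (j + 1) (hγB t ht) (a + 1) _ (by omega) (by omega)
      rw [h4, zero_mul, ite_self]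
    rw [h3, sub_zero, h2, h1]
  have hder : deriv (fun t => hb (pc (g t)) (a + 1) (a + 1 + (b + 1))) 0 =
      ((a + 1 : ℕ) : ℂ) * (-r / d) := by
    have h1 : (fun t => hb (pc (g t)) (a + 1) (a + 1 + (b + 1))) =ᶠ[𝓝 0]
        fun t => ((a + 1 : ℕ) : ℂ) * (-(γ t) / d) := by
      filter_upwards [isOpen_ball.mem_nhds h0] with t ht using hcoef t ht
    rw [h1.deriv_eq]
    have h2 : HasDerivAt γ r 0 := (hγ.differentiableAt (isOpen_ball.mem_nhds h0)).hasDerivAt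
    exact ((h2.neg.div_const (d : ℂ)).const_mul _).deriv
  -- the Faber polynomials
  have hg0 : g 0 = fun x => G (j + 1) (c, x) := rfl
  have hlow : ∀ n k, 1 ≤ k → k < d → pc (g 0) n k = 0 := by
    intro n k hk hkd
    rw [hg0]
    exact pc_lowM hd hM hG (j + 1) hcB n k hk hkd
  have hFb : ∀ n, n < d → Fb (pc (g 0)) n = X ^ n := by
    intro n hn
    rw [Fb_eq]
    have : ∑ k : Fin n, C (pc (g 0) n (n - k)) * Fb (pc (g 0)) k = 0 := by
      apply Finset.sum_eq_zero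
      intro k _
      rw [hlow n _ (by omega) (by omega)]
      simp
    rw [this, sub_zero]
  rw [hFb (a + 1) (by omega), hFb (b + 1) (by omega), hder] at hmain
  have hsub : (UU (g 0) (radM d M' (j + 1)))ᶜ ⊆ EM d M' c (j + 1) := by
    rw [hg0]; exact compl_UU_subsetM hd hM hMM hG (j + 1) hcB
  have hEc := isCompact_EM hd hM3 hc2 (j + 1)
  have hpi := Real.pi_pos
  have hdR : (0 : ℝ) < d := by exact_mod_cast (by omega : 0 < d)
  -- simplify the integrands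
  have hi : ∀ n : ℕ, ∫ z in (UU (g 0) (radM d M' (j + 1)))ᶜ,
      ‖(derivative (X ^ (n + 1) : ℂ[X])).eval z‖ ^ 2 ≤
      ((n + 1 : ℕ) : ℝ) ^ 2 * ∫ z in EM d M' c (j + 1), ‖z‖ ^ (2 * n) := by
    intro n
    have : ∀ z : ℂ, ‖(derivative (X ^ (n + 1) : ℂ[X])).eval z‖ ^ 2 =
        ((n + 1 : ℕ) : ℝ) ^ 2 * ‖z‖ ^ (2 * n) := by
      intro z
      rw [derivative_X_pow]
      simp only [eval_mul, eval_C, eval_pow, eval_X]
      rw [norm_mul, norm_pow, Complex.norm_natCast, mul_pow, ← pow_mul,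
        show n + 1 - 1 = n by omega, mul_comm n 2]
    simp only [this]
    rw [integral_const_mul]
    apply mul_le_mul_of_nonneg_left _ (by positivity)
    apply setIntegral_mono_set
    · exact ((continuous_norm.pow _).continuousOn).integrableOn_compact hEc
    · exact Filter.Eventually.of_forall fun z => by positivity
    · exact hsub.eventuallyLE
  have hnorm : ‖((a + 1 : ℕ) : ℂ) * (-r / d)‖ = ((a + 1 : ℕ) : ℝ) * (‖r‖ / d) := by
    rw [norm_mul, norm_div, norm_neg, Complex.norm_natCast, Complex.norm_natCast]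
  rw [hnorm] at hmain
  have h1 : (((b + 1 : ℕ) : ℝ) * (((a + 1 : ℕ) : ℝ) * (‖r‖ / d))) ^ 2 ≤
      (1 / Real.pi * (((a + 1 : ℕ) : ℝ) ^ 2 * ∫ z in EM d M' c (j + 1), ‖z‖ ^ (2 * a))) *
      (1 / Real.pi * (((b + 1 : ℕ) : ℝ) ^ 2 * ∫ z in EM d M' c (j + 1), ‖z‖ ^ (2 * b))) := by
    refine hmain.trans ?_
    apply mul_le_mul
    · exact mul_le_mul_of_nonneg_left (hi a) (by positivity)
    · exact mul_le_mul_of_nonneg_left (hi b) (by positivity)
    · apply mul_nonneg (by positivity)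
      apply integral_nonneg; intro z; positivity
    · apply mul_nonneg (by positivity)
      apply mul_nonneg (by positivity)
      apply integral_nonneg; intro z; positivity
  have h2 : (((a + 1 : ℕ) : ℝ) ^ 2 * ((b + 1 : ℕ) : ℝ) ^ 2) * (‖r‖ / d) ^ 2 ≤
      (((a + 1 : ℕ) : ℝ) ^ 2 * ((b + 1 : ℕ) : ℝ) ^ 2) *
      ((1 / Real.pi * ∫ z in EM d M' c (j + 1), ‖z‖ ^ (2 * a)) *
      (1 / Real.pi * ∫ z in EM d M' c (j + 1), ‖z‖ ^ (2 * b))) := by
    calc _ = (((b + 1 : ℕ) : ℝ) * (((a + 1 : ℕ) : ℝ) * (‖r‖ / d))) ^ 2 := by ring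
      _ ≤ _ := h1
      _ = _ := by ring
  exact le_of_mul_le_mul_left h2 (by positivity)

end Pool.Agent.H713R2.AR
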