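import Mathlib
import Pool.Agent.H713R2.AR.LB

set_option autoImplicit false

open Complex Topology Filter Metric MeasureTheory Set

namespace Pool.Agent.H713R2.AR

open Pool.Agent.H713R2 Pool.Agent.H712R2

/-- The escape rate (Green's function) of `z ↦ z ^ d + c` at the point `z`. -/
noncomputable def green (d : ℕ) (c z : ℂ) : ℝ :=
  limsup (fun n : ℕ => Real.posLog ‖(fun w : ℂ => w ^ d + c)^[n] z‖ / (d : ℝ) ^ n) atTop

/-- The approximations. -/
noncomputable def gap (d : ℕ) (c z : ℂ) (n : ℕ) : ℝ := Real.posLog ‖(fc d c)^[n] z‖ / (d : ℝ) ^ n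

theorem green_eq (d : ℕ) (c z : ℂ) : green d c z = limsup (gap d c z) atTop := rfl

theorem log_le_posLog' (x : ℝ) : Real.log x ≤ Real.posLog x := le_max_right _ _

theorem posLog_le_of_le {x y : ℝ} (hx : 0 ≤ x) (hxy : x ≤ y) : Real.posLog x ≤ Real.posLog y :=
  Real.posLog_le_posLog hx hxy

/-- One step comparison. -/
theorem posLog_step {d : ℕ} (_hd : 2 ≤ d) {A : ℝ} (hA : 1 ≤ A) {c : ℂ} (hc : ‖c‖ ≤ A) (w : ℂ) :
    |Real.posLog ‖fc d c w‖ - d * Real.posLog ‖w‖| ≤ Real.log (2 * A) := by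
  have hlog2A : 0 ≤ Real.log (2 * A) := Real.log_nonneg (by linarith)
  have hw0 := norm_nonneg w
  have hup : ‖fc d c w‖ ≤ ‖w‖ ^ d + A := by
    unfold fc
    refine (norm_add_le _ _).trans ?_
    rw [norm_pow]
    linarith
  have hlow : ‖w‖ ^ d - A ≤ ‖fc d c w‖ := by
    unfold fc
    have := norm_sub_le (w ^ d + c) c
    rw [add_sub_cancel_right, norm_pow] at this
    linarith
  have hpow : Real.posLog (‖w‖ ^ d) = d * Real.posLog ‖w‖ := by
    rw [Real.posLog_pow]
  have hm : Real.posLog (‖w‖ ^ d) = Real.log (max 1 (‖w‖ ^ d)) := by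
    rw [Real.posLog_eq_log_max_one (by positivity)]
  rw [← hpow, abs_le]
  constructor
  · -- lower bound
    have h0 : 0 ≤ Real.posLog ‖fc d c w‖ := Real.posLog_nonneg
    by_cases h : ‖w‖ ^ d ≤ 2 * A
    · have h1 : Real.posLog (‖w‖ ^ d) ≤ Real.posLog (2 * A) :=
        Real.posLog_le_posLog (by positivity) h
      rw [Real.posLog_eq_log (x := 2 * A) (by rw [abs_of_nonneg (by linarith)]; linarith)] at h1
      linarith
    · have h' : 2 * A < ‖w‖ ^ d := not_le.mp h
      have h1 : ‖w‖ ^ d / 2 ≤ ‖fc d c w‖ := by linarith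
      have h2 : Real.log (‖w‖ ^ d / 2) ≤ Real.posLog ‖fc d c w‖ := by
        refine (Real.log_le_log (by linarith) h1).trans ?_
        exact log_le_posLog' _
      have h3 : Real.posLog (‖w‖ ^ d) = Real.log (‖w‖ ^ d) :=
        Real.posLog_eq_log (by rw [abs_of_nonneg (by positivity)]; linarith)
      rw [Real.log_div (by linarith) (by norm_num)] at h2
      have h4 : Real.log 2 ≤ Real.log (2 * A) := Real.log_le_log (by norm_num) (by linarith)
      rw [h3]
      linarith
  · -- upper bound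
    have h1 : ‖fc d c w‖ ≤ 2 * A * max 1 (‖w‖ ^ d) := by
      rcases le_total 1 (‖w‖ ^ d) with h | h
      · rw [max_eq_right h]; nlinarith
      · rw [max_eq_left h]; linarith
    have h2 : Real.posLog ‖fc d c w‖ ≤ Real.posLog (2 * A * max 1 (‖w‖ ^ d)) :=
      Real.posLog_le_posLog (norm_nonneg _) h1
    have h3 : 1 ≤ max 1 (‖w‖ ^ d) := le_max_left _ _
    have h4 : 1 ≤ 2 * A * max 1 (‖w‖ ^ d) := by nlinarith
    rw [Real.posLog_eq_log (x := 2 * A * max 1 (‖w‖ ^ d))
      (by rw [abs_of_nonneg (by linarith)]; exact h4),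
      Real.log_mul (by linarith) (by linarith)] at h2
    rw [hm]
    linarith

theorem gap_step {d : ℕ} (hd : 2 ≤ d) {A : ℝ} (hA : 1 ≤ A) {c : ℂ} (hc : ‖c‖ ≤ A) (z : ℂ) (n : ℕ) :
    |gap d c z (n + 1) - gap d c z n| ≤ Real.log (2 * A) / (d : ℝ) ^ (n + 1) := by
  have hdR : (0 : ℝ) < d := by exact_mod_cast (by omega : 0 < d)
  have h1 := posLog_step hd hA hc ((fc d c)^[n] z)
  have h2 : gap d c z (n + 1) - gap d c z n =
      (Real.posLog ‖fc d c ((fc d c)^[n] z)‖ - d * Real.posLog ‖(fc d c)^[n] z‖) /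
        (d : ℝ) ^ (n + 1) := by
    unfold gap
    rw [Function.iterate_succ_apply', pow_succ]
    field_simp
  rw [h2, abs_div, abs_of_pos (by positivity : (0 : ℝ) < (d : ℝ) ^ (n + 1))]
  exact div_le_div_of_nonneg_right h1 (by positivity)

theorem gap_dist {d : ℕ} (hd : 2 ≤ d) {A : ℝ} (hA : 1 ≤ A) {c : ℂ} (hc : ‖c‖ ≤ A) (z : ℂ) (n k : ℕ) :
    |gap d c z (n + k) - gap d c z n| ≤ Real.log (2 * A) / (d : ℝ) ^ n *
      (1 - (1 / 2 : ℝ) ^ k) := by
  have hdR : (2 : ℝ) ≤ d := by exact_mod_cast hd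
  have hL : 0 ≤ Real.log (2 * A) := Real.log_nonneg (by linarith)
  have hn : (0 : ℝ) < (d : ℝ) ^ n := by positivity
  induction k with
  | zero => simp
  | succ k ih =>
    have h1 := gap_step hd hA hc z (n + k)
    have h2 : Real.log (2 * A) / (d : ℝ) ^ (n + k + 1) ≤
        Real.log (2 * A) / (d : ℝ) ^ n * (1 / 2 : ℝ) ^ (k + 1) := by
      rw [show n + k + 1 = n + (k + 1) by ring, pow_add, div_mul_eq_div_div]
      rw [div_eq_mul_one_div (Real.log (2 * A) / (d : ℝ) ^ n)]
      apply mul_le_mul_of_nonneg_left _ (by positivity)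
      rw [one_div, one_div, inv_pow]
      exact inv_anti₀ (by positivity) (pow_le_pow_left₀ (by norm_num) hdR _)
    have h3 : |gap d c z (n + (k + 1)) - gap d c z n| ≤
        |gap d c z (n + k + 1) - gap d c z (n + k)| + |gap d c z (n + k) - gap d c z n| := by
      have := abs_add_le (gap d c z (n + k + 1) - gap d c z (n + k))
        (gap d c z (n + k) - gap d c z n)
      rw [sub_add_sub_cancel] at this
      exact this
    refine h3.trans ((add_le_add (h1.trans h2) ih).trans (le_of_eq ?_))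
    rw [pow_succ]
    ring

theorem gap_cauchy {d : ℕ} (hd : 2 ≤ d) (c z : ℂ) : CauchySeq (gap d c z) := by
  obtain ⟨A, hA1, hA2⟩ : ∃ A : ℝ, 1 ≤ A ∧ ‖c‖ ≤ A := ⟨max 1 ‖c‖, le_max_left _ _, le_max_right _ _⟩
  have hdR : (2 : ℝ) ≤ d := by exact_mod_cast hd
  have hL : 0 ≤ Real.log (2 * A) := Real.log_nonneg (by linarith)
  apply cauchySeq_of_le_geometric (1 / 2 : ℝ) (Real.log (2 * A)) (by norm_num)
  intro n
  rw [dist_comm, Real.dist_eq]
  refine (gap_step hd hA1 hA2 z n).trans ?_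
  rw [div_eq_mul_one_div]
  apply mul_le_mul_of_nonneg_left _ hL
  rw [one_div, one_div, inv_pow]
  apply inv_anti₀ (by positivity)
  calc (2 : ℝ) ^ n ≤ (d : ℝ) ^ n := pow_le_pow_left₀ (by norm_num) hdR _
    _ ≤ (d : ℝ) ^ (n + 1) := pow_le_pow_right₀ (by linarith) (Nat.le_succ n)

theorem gap_tendsto {d : ℕ} (hd : 2 ≤ d) (c z : ℂ) :
    Tendsto (gap d c z) atTop (𝓝 (green d c z)) := by
  obtain ⟨g, hg⟩ := cauchySeq_tendsto_of_complete (gap_cauchy hd c z)
  rw [green_eq, hg.limsup_eq]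
  exact hg

theorem green_near {d : ℕ} (hd : 2 ≤ d) {A : ℝ} (hA : 1 ≤ A) {c : ℂ} (hc : ‖c‖ ≤ A) (z : ℂ) (n : ℕ) :
    |green d c z - gap d c z n| ≤ Real.log (2 * A) / (d : ℝ) ^ n := by
  have hdR : (2 : ℝ) ≤ d := by exact_mod_cast hd
  have hL : 0 ≤ Real.log (2 * A) := Real.log_nonneg (by linarith)
  have h1 : Tendsto (fun k => |gap d c z (n + k) - gap d c z n|) atTop
      (𝓝 |green d c z - gap d c z n|) := by
    have h2 : Tendsto (fun k => gap d c z (n + k)) atTop (𝓝 (green d c z)) := by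
      have := (tendsto_add_atTop_iff_nat n).mpr (gap_tendsto hd c z)
      simpa only [add_comm] using this
    exact (h2.sub_const _).abs
  apply le_of_tendsto' h1
  intro k
  refine (gap_dist hd hA hc z n k).trans ?_
  have h3 : 0 ≤ (1 / 2 : ℝ) ^ k := by positivity
  have h4 : 0 ≤ Real.log (2 * A) / (d : ℝ) ^ n := by positivity
  nlinarith

theorem green_nonneg {d : ℕ} (hd : 2 ≤ d) (c z : ℂ) : 0 ≤ green d c z :=
  ge_of_tendsto' (gap_tendsto hd c z) (fun n => div_nonneg Real.posLog_nonneg (by positivity))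

/-- Upper bound of the orbit in terms of the escape rate. -/
theorem norm_iter_le {d : ℕ} (hd : 2 ≤ d) {A : ℝ} (hA : 1 ≤ A) {c : ℂ} (hc : ‖c‖ ≤ A) (z : ℂ) (n : ℕ) :
    ‖(fc d c)^[n] z‖ ≤ 2 * A * Real.exp ((d : ℝ) ^ n * green d c z) := by
  have hdn : (0 : ℝ) < (d : ℝ) ^ n := by
    have : (0 : ℝ) < d := by exact_mod_cast (by omega : 0 < d)
    positivity
  have h1 := (abs_le.mp (green_near hd hA hc z n)).1
  have h2 : Real.posLog ‖(fc d c)^[n] z‖ ≤ (d : ℝ) ^ n * green d c z + Real.log (2 * A) := by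
    unfold gap at h1
    have h3 : Real.posLog ‖(fc d c)^[n] z‖ / (d : ℝ) ^ n ≤
        green d c z + Real.log (2 * A) / (d : ℝ) ^ n := by linarith
    rw [div_le_iff₀ hdn, add_mul, div_mul_cancel₀ _ hdn.ne'] at h3
    linarith
  by_cases h0 : (fc d c)^[n] z = 0
  · rw [h0, norm_zero]; positivity
  · have h4 : 0 < ‖(fc d c)^[n] z‖ := norm_pos_iff.mpr h0
    have h5 : Real.log ‖(fc d c)^[n] z‖ ≤ (d : ℝ) ^ n * green d c z + Real.log (2 * A) :=
      (log_le_posLog' _).trans h2
    rw [Real.log_le_iff_le_exp h4, Real.exp_add, Real.exp_log (by linarith)] at h5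
    linarith

theorem continuous_gap (d : ℕ) (c : ℂ) (n : ℕ) : Continuous (fun z => gap d c z n) := by
  unfold gap
  have h1 := continuous_iter d c n
  have h2 : Continuous fun z => Real.posLog ‖(fc d c)^[n] z‖ :=
    Real.continuous_posLog.comp h1.norm
  exact h2.div_const _

theorem continuous_green {d : ℕ} (hd : 2 ≤ d) (c : ℂ) : Continuous (green d c) := by
  obtain ⟨A, hA1, hA2⟩ : ∃ A : ℝ, 1 ≤ A ∧ ‖c‖ ≤ A := ⟨max 1 ‖c‖, le_max_left _ _, le_max_right _ _⟩
  have hdR : (2 : ℝ) ≤ d := by exact_mod_cast hd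
  have hu : TendstoUniformly (fun n z => gap d c z n) (green d c) atTop := by
    rw [Metric.tendstoUniformly_iff]
    intro ε hε
    have h1 : Tendsto (fun n : ℕ => Real.log (2 * A) / (d : ℝ) ^ n) atTop (𝓝 0) := by
      have h2 : Tendsto (fun n : ℕ => (d : ℝ) ^ n) atTop atTop :=
        tendsto_pow_atTop_atTop_of_one_lt (by linarith)
      exact h2.const_div_atTop _
    filter_upwards [h1.eventually (gt_mem_nhds hε)] with n hn z
    rw [Real.dist_eq]
    exact (green_near hd hA1 hA2 z n).trans_lt hn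
  exact hu.continuous (Frequently.of_forall fun n => continuous_gap d c n)

/-- The sublevel sets of the escape rate. -/
def GLev (d : ℕ) (c : ℂ) (s : ℝ) : Set ℂ := {z | green d c z ≤ s}

theorem isCompact_GLev {d : ℕ} (hd : 2 ≤ d) (c : ℂ) (s : ℝ) : IsCompact (GLev d c s) := by
  obtain ⟨A, hA1, hA2⟩ : ∃ A : ℝ, 1 ≤ A ∧ ‖c‖ ≤ A := ⟨max 1 ‖c‖, le_max_left _ _, le_max_right _ _⟩
  apply Metric.isCompact_of_isClosed_isBounded
  · exact isClosed_le (continuous_green hd c) continuous_const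
  · apply (isBounded_closedBall (x := (0:ℂ)) (r := 2 * A * Real.exp s)).subset
    intro z hz
    rw [mem_closedBall_zero_iff]
    have h1 := norm_iter_le hd hA1 hA2 z 0
    simp only [Function.iterate_zero, id_eq, pow_zero, one_mul] at h1
    refine h1.trans ?_
    have hz' : green d c z ≤ s := hz
    gcongr

theorem level_green {d a b : ℕ} (hab : a + b + 2 = d) {s A : ℝ} (hA : 1 ≤ A) {γ : ℂ → ℂ}
    (hγ : DifferentiableOn ℂ γ (ball 0 1)) (hγA : ∀ t ∈ ball (0 : ℂ) 1, ‖γ t‖ ≤ A)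
    (hs : ∀ t ∈ ball (0 : ℂ) 1, green d (γ t) (γ t) ≤ s) :
    ‖deriv γ 0‖ ≤ d / Real.pi *
      √((∫ z in GLev d (γ 0) (s / d), ‖z‖ ^ (2 * a)) * ∫ z in GLev d (γ 0) (s / d), ‖z‖ ^ (2 * b)) := by
  have hd : 2 ≤ d := by omega
  have hdR : (2 : ℝ) ≤ d := by exact_mod_cast hd
  have hpi := Real.pi_pos
  have h0 : (0 : ℂ) ∈ ball (0 : ℂ) 1 := mem_ball_self one_pos
  set c : ℂ := γ 0 with hc
  set r : ℝ := ‖deriv γ 0‖ with hr
  have hcA : ‖c‖ ≤ A := hγA 0 h0
  have hs0 : 0 ≤ s := (green_nonneg hd _ _).trans (hs 0 h0)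
  set κ : ℝ := Real.log (6 * A) + Real.log (2 * A) with hκ
  have hκ0 : 0 ≤ κ := add_nonneg (Real.log_nonneg (by linarith)) (Real.log_nonneg (by linarith))
  set S : ℕ → Set ℂ := fun j => GLev d c (s / d + κ / (d : ℝ) ^ (j + 1)) with hS
  -- the finite levels
  have hlev : ∀ j : ℕ, (r / d) ^ 2 ≤ (1 / Real.pi * ∫ z in S j, ‖z‖ ^ (2 * a)) *
      (1 / Real.pi * ∫ z in S j, ‖z‖ ^ (2 * b)) := by
    intro j
    have hdj : (0 : ℝ) < (d : ℝ) ^ j := by positivity
    set M : ℝ := 2 * A * Real.exp ((d : ℝ) ^ j * s) with hM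
    have hexp : 1 ≤ Real.exp ((d : ℝ) ^ j * s) := Real.one_le_exp (by positivity)
    have hM2 : 2 ≤ M := by rw [hM]; nlinarith
    have hBd : ∀ t ∈ ball (0 : ℂ) 1, BdJ d M (j + 1) (γ t) := by
      intro t ht i hi1 hi2
      obtain ⟨i, rfl⟩ : ∃ l, i = l + 1 := ⟨i - 1, by omega⟩
      have h1 := norm_iter_le hd hA (hγA t ht) (γ t) i
      rw [iter_c hd] at h1
      refine h1.trans ?_
      rw [hM]
      apply mul_le_mul_of_nonneg_left _ (by linarith)
      apply Real.exp_le_exp.mpr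
      apply mul_le_mul
      · exact pow_le_pow_right₀ (by linarith) (by omega)
      · exact hs t ht
      · exact green_nonneg hd _ _
      · positivity
    have h1 := level_ineqM hab (M := M) (M' := 3 * M) (by linarith) (by linarith) (by linarith) hγ j hBd
    have hsub : EM d (3 * M) c (j + 1) ⊆ S j := by
      intro z hz
      have hz' : ‖(fc d c)^[j + 1] z‖ ≤ 3 * M := hz
      have h2 := (abs_le.mp (green_near hd hA hcA z (j + 1))).2
      have h3 : gap d c z (j + 1) ≤ (Real.log (6 * A) + (d : ℝ) ^ j * s) / (d : ℝ) ^ (j + 1) := by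
        unfold gap
        apply div_le_div_of_nonneg_right _ (by positivity)
        refine (Real.posLog_le_posLog (norm_nonneg _) hz').trans ?_
        rw [Real.posLog_eq_log (by rw [abs_of_nonneg (by linarith)]; linarith), hM,
          show 3 * (2 * A * Real.exp ((d : ℝ) ^ j * s)) = 6 * A * Real.exp ((d : ℝ) ^ j * s) by ring,
          Real.log_mul (by linarith) (Real.exp_pos _).ne', Real.log_exp]
      have h4 : (Real.log (6 * A) + (d : ℝ) ^ j * s) / (d : ℝ) ^ (j + 1) +
          Real.log (2 * A) / (d : ℝ) ^ (j + 1) = s / d + κ / (d : ℝ) ^ (j + 1) := by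
        rw [hκ, pow_succ]
        field_simp
        ring
      change green d c z ≤ s / d + κ / (d : ℝ) ^ (j + 1)
      linarith
    have hmono : ∀ n : ℕ, (1 / Real.pi * ∫ z in EM d (3 * M) c (j + 1), ‖z‖ ^ (2 * n)) ≤
        1 / Real.pi * ∫ z in S j, ‖z‖ ^ (2 * n) := by
      intro n
      apply mul_le_mul_of_nonneg_left _ (by positivity)
      apply setIntegral_mono_set
      · exact ((continuous_norm.pow _).continuousOn).integrableOn_compact (isCompact_GLev hd _ _)
      · exact Filter.Eventually.of_forall fun z => by positivity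
      · exact hsub.eventuallyLE
    refine h1.trans (mul_le_mul (hmono a) (hmono b) ?_ ?_)
    · apply mul_nonneg (by positivity)
      apply integral_nonneg; intro z; positivity
    · apply mul_nonneg (by positivity)
      apply integral_nonneg; intro z; positivity
  have hanti : Antitone S := by
    intro i j hij z hz
    have hz' : green d c z ≤ s / d + κ / (d : ℝ) ^ (j + 1) := hz
    refine hz'.trans ?_
    have : κ / (d : ℝ) ^ (j + 1) ≤ κ / (d : ℝ) ^ (i + 1) :=
      div_le_div_of_nonneg_left hκ0 (by positivity)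
        (pow_le_pow_right₀ (by linarith) (by omega))
    linarith
  have hinter : ⋂ j, S j = GLev d c (s / d) := by
    ext z
    rw [mem_iInter]
    constructor
    · intro h
      change green d c z ≤ s / d
      have h1 : Tendsto (fun j : ℕ => s / d + κ / (d : ℝ) ^ (j + 1)) atTop (𝓝 (s / d + 0)) := by
        apply Tendsto.const_add
        have h2 : Tendsto (fun n : ℕ => (d : ℝ) ^ (n + 1)) atTop atTop :=
          (tendsto_pow_atTop_atTop_of_one_lt (by linarith)).comp (tendsto_add_atTop_nat 1)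
        exact h2.const_div_atTop _
      rw [add_zero] at h1
      exact ge_of_tendsto' h1 (fun j => h j)
    · intro h j
      have h' : green d c z ≤ s / d := h
      change green d c z ≤ s / d + κ / (d : ℝ) ^ (j + 1)
      have : 0 ≤ κ / (d : ℝ) ^ (j + 1) := by positivity
      linarith
  have hlim : ∀ f : ℂ → ℝ, Continuous f →
      Tendsto (fun j => ∫ z in S j, f z) atTop (𝓝 (∫ z in GLev d c (s / d), f z)) := by
    intro f hf
    have h1 := tendsto_setIntegral_of_antitone (μ := volume) (f := f) (s := S)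
      (fun j => (isCompact_GLev hd c _).isClosed.measurableSet) hanti
      ⟨0, hf.continuousOn.integrableOn_compact (isCompact_GLev hd c _)⟩
    rw [hinter] at h1
    exact h1
  have h1 := hlim (fun z => ‖z‖ ^ (2 * a)) (by fun_prop)
  have h2 := hlim (fun z => ‖z‖ ^ (2 * b)) (by fun_prop)
  have h3 := ge_of_tendsto' ((h1.const_mul (1 / Real.pi)).mul (h2.const_mul (1 / Real.pi))) hlev
  set T : ℝ := (∫ z in GLev d c (s / d), ‖z‖ ^ (2 * a)) * ∫ z in GLev d c (s / d), ‖z‖ ^ (2 * b) with hT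
  have h4 : (r / d * Real.pi) ^ 2 ≤ T := by
    have h5 : (r / d) ^ 2 ≤ (1 / Real.pi) ^ 2 * T := by
      refine h3.trans (le_of_eq ?_)
      rw [hT]; ring
    rw [mul_pow]
    calc (r / d) ^ 2 * Real.pi ^ 2 ≤ ((1 / Real.pi) ^ 2 * T) * Real.pi ^ 2 :=
          mul_le_mul_of_nonneg_right h5 (by positivity)
      _ = T := by field_simp
  have h5 := Real.le_sqrt_of_sq_le h4
  calc r = d / Real.pi * (r / d * Real.pi) := by field_simp
    _ ≤ _ := mul_le_mul_of_nonneg_left h5 (by positivity)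

/-- The area inequality for holomorphic discs in the sublevel sets of the escape rate of the
critical value. -/
theorem main_green {d a b : ℕ} (hab : a + b + 2 = d) {s : ℝ} {γ : ℂ → ℂ}
    (hγ : DifferentiableOn ℂ γ (ball 0 1))
    (hs : ∀ t ∈ ball (0 : ℂ) 1, green d (γ t) (γ t) ≤ s) :
    ‖deriv γ 0‖ ≤ d / Real.pi *
      √((∫ z in GLev d (γ 0) (s / d), ‖z‖ ^ (2 * a)) * ∫ z in GLev d (γ 0) (s / d), ‖z‖ ^ (2 * b)) := by
  set B : ℝ := d / Real.pi *
      √((∫ z in GLev d (γ 0) (s / d), ‖z‖ ^ (2 * a)) * ∫ z in GLev d (γ 0) (s / d), ‖z‖ ^ (2 * b)) with hB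
  have key : ∀ ρ ∈ Ioo (0 : ℝ) 1, ρ * ‖deriv γ 0‖ ≤ B := by
    intro ρ hρ
    have hmap : ∀ t ∈ ball (0 : ℂ) 1, (ρ : ℂ) * t ∈ closedBall (0 : ℂ) ρ := by
      intro t ht
      rw [mem_ball_zero_iff] at ht
      rw [mem_closedBall_zero_iff, norm_mul, Complex.norm_real, Real.norm_eq_abs, abs_of_pos hρ.1]
      nlinarith [hρ.1]
    have hsub : closedBall (0 : ℂ) ρ ⊆ ball 0 1 := closedBall_subset_ball hρ.2
    obtain ⟨A, hA⟩ := (isCompact_closedBall (0 : ℂ) ρ).exists_bound_of_continuousOn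
      (hγ.continuousOn.mono hsub)
    have h1 := level_green hab (s := s) (A := max 1 A) (le_max_left _ _)
      (γ := fun t => γ (ρ * t)) ?_ ?_ ?_
    · have h2 : deriv (fun t => γ (ρ * t)) 0 = ρ * deriv γ 0 := by
        have h3 : HasDerivAt γ (deriv γ 0) ((ρ : ℂ) * 0) := by
          rw [mul_zero]
          exact (hγ.differentiableAt (ball_mem_nhds 0 one_pos)).hasDerivAt
        have h4 : HasDerivAt (fun t : ℂ => (ρ : ℂ) * t) ρ 0 := by
          simpa using (hasDerivAt_id (0 : ℂ)).const_mul (ρ : ℂ)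
        have h5 := h3.comp (0 : ℂ) h4
        rw [mul_comm]
        exact h5.deriv
      rw [h2, mul_zero, norm_mul, Complex.norm_real, Real.norm_eq_abs, abs_of_pos hρ.1] at h1
      exact h1
    · apply hγ.comp (by fun_prop)
      intro t ht
      exact hsub (hmap t ht)
    · intro t ht
      exact (hA _ (hmap t ht)).trans (le_max_right _ _)
    · intro t ht
      exact hs _ (hsub (hmap t ht))
  have h1 : Tendsto (fun ρ : ℝ => ρ * ‖deriv γ 0‖) (𝓝[<] 1) (𝓝 (1 * ‖deriv γ 0‖)) :=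
    ((continuous_id.mul continuous_const).tendsto (1 : ℝ)).mono_left nhdsWithin_le_nhds
  rw [one_mul] at h1
  apply le_of_tendsto h1
  filter_upwards [Ioo_mem_nhdsLT (show (0 : ℝ) < 1 by norm_num)] with ρ hρ using key ρ hρ

end Pool.Agent.H713R2.AR
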