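import Mathlib
import Pool.Prelude.Def_F_c31e40fa
import Pool.Agent.H713R2.AR.GF
import Pool.Agent.H713R2.Ext3

set_option autoImplicit false

open Complex Topology Filter Metric MeasureTheory Set N62a1eb23

namespace Pool.Agent.H713R2.AR

open Pool.Agent.H713R2 Pool.Agent.H712R2 Pool.Agent.Helper202.Univ

theorem BB_le_two {d : ℕ} (hd : 2 ≤ d) {β : ℂ → ℂ} (hβ : IsBeta d β) (n : ℕ) {x0 : ℂ}
    (hx0 : x0 ∈ ball (0 : ℂ) 1) : ‖BB d β n x0‖ ≤ 2 := by
  apply le_of_forall_pos_le_add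
  intro ε hε
  set D : Set ℂ := ball 0 1 \ {0} with hD
  have hDo : IsOpen D := isOpen_ball.sdiff isClosed_singleton
  set f : ℂ → ℂ := fun x => x⁻¹ * β x with hf
  have hfd : DifferentiableOn ℂ f D := by
    intro x hx
    have hx0 : x ≠ 0 := hx.2
    apply DifferentiableAt.differentiableWithinAt
    exact (differentiableAt_inv_iff.mpr hx0).mul
      (hβ.diff.differentiableAt (isOpen_ball.mem_nhds hx.1))
  have hfi : InjOn f D := fun x hx y hy h => hβ.inj x hx.1 y hy.1 hx.2 hy.2 h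
  set φ : ℂ → ℂ := Function.invFunOn f D with hφ
  set K : Set ℂ := {c | 2 + ε ≤ ‖P d (n + 1) c‖} ∩ closedBall 0 4 with hK
  have hKc : IsCompact K :=
    (isCompact_closedBall 0 4).inter_left (isClosed_le continuous_const (continuous_P d _).norm)
  have hKim : K ⊆ f '' D := by
    intro c hc
    have hcM : c ∉ multibrotSet d := by
      intro h
      have h1 := (mem_multibrot_iff hd c).mp h (n + 1)
      have h2 : 2 + ε ≤ ‖P d (n + 1) c‖ := hc.1
      linarith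
    obtain ⟨x, hx, hx0, hxc⟩ := hβ.surj c hcM
    exact ⟨x, ⟨hx, hx0⟩, hxc⟩
  have hφc : ContinuousOn φ K := fun c hc =>
    (differentiableAt_inv hDo hfd hfi (hKim hc)).continuousAt.continuousWithinAt
  have hφK : IsCompact (φ '' K) := hKc.image_of_continuousOn hφc
  have hφD : φ '' K ⊆ ball 0 1 := by
    rintro _ ⟨c, hc, rfl⟩
    exact (Function.invFunOn_mem (hKim hc)).1
  obtain ⟨r1, hr1, hr1K⟩ : ∃ r1 : ℝ, r1 < 1 ∧ φ '' K ⊆ closedBall 0 r1 := by
    rcases (φ '' K).eq_empty_or_nonempty with he | hne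
    · exact ⟨0, by norm_num, by rw [he]; exact empty_subset _⟩
    · obtain ⟨y, hy, hmax⟩ := hφK.exists_isMaxOn hne continuous_norm.continuousOn
      refine ⟨‖y‖, mem_ball_zero_iff.mp (hφD hy), fun z hz => ?_⟩
      rw [mem_closedBall_zero_iff]
      exact hmax hz
  have hx0n : ‖x0‖ < 1 := mem_ball_zero_iff.mp hx0
  set m : ℝ := max (max r1 ‖x0‖) (1 / 2) with hm
  have hm1 : m < 1 := max_lt (max_lt hr1 hx0n) (by norm_num)
  set r : ℝ := (1 + m) / 2 with hr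
  have hrm : m < r := by rw [hr]; linarith
  have hr1' : r < 1 := by rw [hr]; linarith
  have hr1r : r1 < r := ((le_max_left _ _).trans (le_max_left _ _)).trans_lt hrm
  have hxr : ‖x0‖ < r := ((le_max_right _ _).trans (le_max_left _ _)).trans_lt hrm
  have hhr : 1 / 2 < r := (le_max_right _ _).trans_lt hrm
  have hr0 : 0 < r := by linarith
  have hcb : closedBall (0 : ℂ) r ⊆ ball 0 1 := closedBall_subset_ball hr1'
  have hBd : DifferentiableOn ℂ (BB d β n) (ball 0 1) := BB_diff hβ.diff n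
  have hdc : DiffContOnCl ℂ (BB d β n) (ball 0 r) := by
    apply DifferentiableOn.diffContOnCl
    rw [closure_ball _ hr0.ne']
    exact hBd.mono hcb
  apply Complex.norm_le_of_forall_mem_frontier_norm_le isBounded_ball hdc
  · intro x hx
    rw [frontier_ball _ hr0.ne', mem_sphere_zero_iff_norm] at hx
    have hxne : x ≠ 0 := by
      rintro rfl
      rw [norm_zero] at hx; linarith
    have hx1 : x ∈ ball (0 : ℂ) 1 := by rw [mem_ball_zero_iff, hx]; exact hr1'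
    have hxD : x ∈ D := ⟨hx1, hxne⟩
    have hPx : ‖P d (n + 1) (f x)‖ ≤ 2 + ε := by
      by_contra hcon
      have hcon' := not_le.mp hcon
      have hfx4 : f x ∈ closedBall (0 : ℂ) 4 := by
        rw [mem_closedBall_zero_iff, hf]
        simp only
        rw [norm_mul, norm_inv, hx]
        have h1 := hβ.bound x hx1
        rw [inv_mul_le_iff₀ hr0]
        linarith
      have h1 : f x ∈ K := ⟨hcon'.le, hfx4⟩
      have h2 : φ (f x) = x := hfi.leftInvOn_invFunOn hxD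
      have h3 := hr1K (mem_image_of_mem φ h1)
      rw [h2, mem_closedBall_zero_iff, hx] at h3
      linarith
    rw [BB_eq hd β n x hxne, norm_mul, norm_pow, hx]
    have h1 : r ^ (d ^ n) ≤ 1 := pow_le_one₀ hr0.le hr1'.le
    have h2 : 0 ≤ r ^ (d ^ n) := by positivity
    have h3 := norm_nonneg (P d (n + 1) (f x))
    calc r ^ (d ^ n) * ‖P d (n + 1) (x⁻¹ * β x)‖ ≤ 1 * (2 + ε) :=
          mul_le_mul h1 hPx h3 (by norm_num)
      _ = 2 + ε := one_mul _
  · rw [closure_ball _ hr0.ne', mem_closedBall_zero_iff]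
    exact hxr.le

theorem P_psi_le {d : ℕ} (hd : 2 ≤ d) {β : ℂ → ℂ} (hβ : IsBeta d β) (n : ℕ) {z : ℂ}
    (hz : 1 < ‖z‖) : ‖P d (n + 1) (z * β z⁻¹)‖ ≤ 2 * ‖z‖ ^ (d ^ n) := by
  obtain ⟨h1, h2⟩ := inv_mem_ball hz
  have h3 := BB_eq hd β n z⁻¹ h2
  have h4 := BB_le_two hd hβ n h1
  rw [inv_inv] at h3
  rw [h3, norm_mul, norm_pow, norm_inv, inv_pow,
    inv_mul_le_iff₀ (by positivity)] at h4
  linarith

theorem green_psi_le {d : ℕ} (hd : 2 ≤ d) {β : ℂ → ℂ} (hβ : IsBeta d β) {z : ℂ}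
    (hz : 1 < ‖z‖) : green d (z * β z⁻¹) (z * β z⁻¹) ≤ Real.log ‖z‖ := by
  have hdR : (2 : ℝ) ≤ d := by exact_mod_cast hd
  have hlog : 0 ≤ Real.log ‖z‖ := Real.log_nonneg hz.le
  have hlim : Tendsto (fun n : ℕ => Real.log 2 / (d : ℝ) ^ n + Real.log ‖z‖) atTop
      (𝓝 (0 + Real.log ‖z‖)) := by
    apply Tendsto.add_const
    have h2 : Tendsto (fun n : ℕ => (d : ℝ) ^ n) atTop atTop :=
      tendsto_pow_atTop_atTop_of_one_lt (by linarith)
    exact h2.const_div_atTop _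
  rw [zero_add] at hlim
  refine le_of_tendsto_of_tendsto' (gap_tendsto hd _ _) hlim ?_
  intro n
  have hdn : (0 : ℝ) < (d : ℝ) ^ n := by positivity
  unfold gap
  rw [iter_c hd, div_le_iff₀ hdn]
  have h1 := P_psi_le hd hβ n hz
  have hz1 : 1 ≤ ‖z‖ ^ (d ^ n) := one_le_pow₀ hz.le
  have h2 : Real.posLog ‖P d (n + 1) (z * β z⁻¹)‖ ≤ Real.posLog (2 * ‖z‖ ^ (d ^ n)) :=
    Real.posLog_le_posLog (norm_nonneg _) h1
  rw [Real.posLog_eq_log (x := 2 * ‖z‖ ^ (d ^ n)) (by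
    rw [abs_of_nonneg (by positivity)]; linarith), Real.log_mul (by norm_num) (by positivity),
    Real.log_pow] at h2
  push_cast at h2
  refine h2.trans (le_of_eq ?_)
  field_simp

/-- The escape rate of the critical value at the exterior parameters. -/
theorem green_exterior_le {d : ℕ} (hd : 2 ≤ d) {ψ : ℂ → ℂ} (hψ : IsExteriorMap (multibrotSet d) ψ)
    {z : ℂ} (hz : 1 < ‖z‖) : green d (ψ z) (ψ z) ≤ Real.log ‖z‖ := by
  obtain ⟨β, hβ⟩ := exists_beta hd
  rw [exteriorMap_unique hβ hψ hz]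
  exact green_psi_le hd hβ hz

theorem exterior_ineq {d a b : ℕ} (hab : a + b + 2 = d) {ψ : ℂ → ℂ}
    (hψ : IsExteriorMap (multibrotSet d) ψ) {w : ℂ} (hw : 1 < ‖w‖) :
    (‖w‖ - 1) * ‖deriv ψ w‖ ≤ d / Real.pi *
      √((∫ z in GLev d (ψ w) (2 / d * Real.log ‖w‖), ‖z‖ ^ (2 * a)) *
        ∫ z in GLev d (ψ w) (2 / d * Real.log ‖w‖), ‖z‖ ^ (2 * b)) := by
  have hd : 2 ≤ d := by omega
  have hdR : (2 : ℝ) ≤ d := by exact_mod_cast hd
  have hpi := Real.pi_pos
  set ρ : ℝ := ‖w‖ - 1 with hρ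
  have hρ0 : 0 < ρ := by rw [hρ]; linarith
  have hext : IsOpen {z : ℂ | 1 < ‖z‖} := isOpen_lt continuous_const continuous_norm
  have hmem : ∀ t ∈ ball (0 : ℂ) 1, 1 < ‖w + ρ * t‖ ∧ ‖w + ρ * t‖ ≤ 2 * ‖w‖ - 1 := by
    intro t ht
    rw [mem_ball_zero_iff] at ht
    have h1 : ‖(ρ : ℂ) * t‖ < ρ := by
      rw [norm_mul, Complex.norm_real, Real.norm_eq_abs, abs_of_pos hρ0]
      nlinarith
    constructor
    · have h2 := norm_sub_le (w + ρ * t) (ρ * t)
      rw [add_sub_cancel_right] at h2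
      rw [hρ] at h1
      linarith
    · have h2 := norm_add_le w ((ρ : ℂ) * t)
      rw [hρ] at h1 h2 ⊢
      linarith
  set γ : ℂ → ℂ := fun t => ψ (w + ρ * t) with hγ
  have hγd : DifferentiableOn ℂ γ (ball 0 1) := by
    apply hψ.diff.comp (by fun_prop)
    intro t ht
    exact (hmem t ht).1
  have hγ0 : γ 0 = ψ w := by simp [hγ]
  have hderiv : deriv γ 0 = ρ * deriv ψ w := by
    have h3 : HasDerivAt ψ (deriv ψ w) (w + ρ * 0) := by
      rw [mul_zero, add_zero]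
      exact (hψ.diff.differentiableAt (hext.mem_nhds hw)).hasDerivAt
    have h4 : HasDerivAt (fun t : ℂ => w + (ρ : ℂ) * t) ρ 0 := by
      simpa using ((hasDerivAt_id (0 : ℂ)).const_mul (ρ : ℂ)).const_add w
    have h5 := h3.comp (0 : ℂ) h4
    rw [mul_comm]
    exact h5.deriv
  have hs : ∀ t ∈ ball (0 : ℂ) 1, green d (γ t) (γ t) ≤ 2 * Real.log ‖w‖ := by
    intro t ht
    obtain ⟨h1, h2⟩ := hmem t ht
    refine (green_exterior_le hd hψ h1).trans ?_
    have h3 : ‖w + ρ * t‖ ≤ ‖w‖ ^ 2 := by nlinarith [sq_nonneg (‖w‖ - 1)]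
    have h4 := Real.log_le_log (by linarith) h3
    rw [Real.log_pow] at h4
    exact_mod_cast h4
  have hmain := main_green hab hγd hs
  rw [hderiv, hγ0, norm_mul, Complex.norm_real, Real.norm_eq_abs, abs_of_pos hρ0] at hmain
  rw [show 2 / (d : ℝ) * Real.log ‖w‖ = 2 * Real.log ‖w‖ / d by ring]
  exact hmain

/-- Quadratic case. -/
theorem exterior_ineq_two {ψ : ℂ → ℂ} (hψ : IsExteriorMap (multibrotSet 2) ψ) {w : ℂ}
    (hw : 1 < ‖w‖) :
    (‖w‖ - 1) * ‖deriv ψ w‖ ≤ 2 / Real.pi *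
      (volume (GLev 2 (ψ w) (Real.log ‖w‖))).toReal := by
  have h := exterior_ineq (a := 0) (b := 0) (d := 2) rfl hψ hw
  simp only [mul_zero, pow_zero, Nat.cast_ofNat] at h
  rw [show (2 : ℝ) / 2 * Real.log ‖w‖ = Real.log ‖w‖ by ring] at h
  have h1 : ∫ _ in GLev 2 (ψ w) (Real.log ‖w‖), (1 : ℝ) =
      (volume (GLev 2 (ψ w) (Real.log ‖w‖))).toReal := by
    rw [MeasureTheory.integral_const]
    simp [Measure.real]
  rw [h1, Real.sqrt_mul_self ENNReal.toReal_nonneg] at h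
  exact h

/-- Landing of parameter rays. -/
theorem landing {d : ℕ} (hd : 2 ≤ d) {ψ : ℂ → ℂ} (hψ : IsExteriorMap (multibrotSet d) ψ) {ζ : ℂ}
    (hζ : ‖ζ‖ = 1) {B : ℝ → ℝ} (hB : ∀ r : ℝ, 1 < r → (r - 1) * ‖deriv ψ (r * ζ)‖ ≤ B r)
    (hint : IntegrableOn (fun r => B r / (r - 1)) (Ioo 1 2)) :
    IntegrableOn (fun r : ℝ => ‖deriv ψ (r * ζ)‖) (Ioo 1 2) ∧
      ∃ c ∈ multibrotSet d, Tendsto (fun r : ℝ => ψ (r * ζ)) (𝓝[>] 1) (𝓝 c) := by
  have hext : IsOpen {z : ℂ | 1 < ‖z‖} := isOpen_lt continuous_const continuous_norm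
  have hn : ∀ r : ℝ, 0 ≤ r → ‖(r : ℂ) * ζ‖ = r := by
    intro r hr
    rw [norm_mul, hζ, mul_one, Complex.norm_real, Real.norm_eq_abs, abs_of_nonneg hr]
  have hmem : ∀ r : ℝ, 1 < r → (r : ℂ) * ζ ∈ {z : ℂ | 1 < ‖z‖} := by
    intro r hr
    change 1 < ‖(r : ℂ) * ζ‖
    rw [hn r (by linarith)]
    exact hr
  have hdψ : DifferentiableOn ℂ (deriv ψ) {z : ℂ | 1 < ‖z‖} := hψ.diff.deriv hext
  have hcont : ContinuousOn (fun r : ℝ => deriv ψ (r * ζ)) (Ioi 1) := by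
    apply hdψ.continuousOn.comp (t := {z : ℂ | 1 < ‖z‖})
    · fun_prop
    · intro r hr; exact hmem r hr
  have hI : IntegrableOn (fun r : ℝ => ‖deriv ψ (r * ζ)‖) (Ioo 1 2) := by
    refine Integrable.mono' hint ?_ ?_
    · exact (hcont.norm.mono (fun r hr => hr.1)).aestronglyMeasurable measurableSet_Ioo
    · rw [ae_restrict_iff' measurableSet_Ioo]
      refine Filter.Eventually.of_forall fun r hr => ?_
      have h1 : 0 < r - 1 := by linarith [hr.1]
      rw [norm_norm, le_div_iff₀ h1, mul_comm]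
      exact hB r hr.1
  refine ⟨hI, ?_⟩
  -- the derivative of the ray
  have hder : ∀ r : ℝ, 1 < r → HasDerivAt (fun r : ℝ => ψ (r * ζ)) (ζ * deriv ψ (r * ζ)) r := by
    intro r hr
    have h1 : HasDerivAt ψ (deriv ψ (r * ζ)) (r * ζ) :=
      (hψ.diff.differentiableAt (hext.mem_nhds (hmem r hr))).hasDerivAt
    have h2 : HasDerivAt (fun r : ℝ => (r : ℂ) * ζ) ζ r := by
      simpa using (Complex.ofRealCLM.hasDerivAt (x := r)).mul_const ζ
    have h3 := h1.scomp r h2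
    rw [smul_eq_mul] at h3
    exact h3
  have hI2 : IntegrableOn (fun r : ℝ => ζ * deriv ψ (r * ζ)) (Icc 1 2) := by
    rw [integrableOn_Icc_iff_integrableOn_Ioo]
    have h1 : AEStronglyMeasurable (fun r : ℝ => deriv ψ (r * ζ)) (volume.restrict (Ioo 1 2)) :=
      (hcont.mono (fun r hr => hr.1)).aestronglyMeasurable measurableSet_Ioo
    exact ((integrable_norm_iff h1).mp hI).const_mul ζ
  have hprim : ContinuousOn (fun x : ℝ => ∫ t in x..2, ζ * deriv ψ (t * ζ)) (uIcc 1 2) := by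
    apply intervalIntegral.continuousOn_primitive_interval_left
    rw [uIcc_of_le (by norm_num : (1 : ℝ) ≤ 2)]
    exact hI2
  have h12 : (1 : ℝ) ≤ 2 := by norm_num
  have hFTC : ∀ r ∈ Ioo (1 : ℝ) 2, ψ (r * ζ) = ψ (2 * ζ) - ∫ t in r..2, ζ * deriv ψ (t * ζ) := by
    intro r hr
    have h1 := intervalIntegral.integral_eq_sub_of_hasDerivAt (a := r) (b := 2)
      (f := fun r : ℝ => ψ (r * ζ)) (f' := fun t => ζ * deriv ψ (t * ζ)) (by
        intro x hx
        rw [uIcc_of_le hr.2.le] at hx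
        exact hder x (lt_of_lt_of_le hr.1 hx.1)) (by
        rw [intervalIntegrable_iff_integrableOn_Icc_of_le hr.2.le]
        exact hI2.mono_set (Icc_subset_Icc_left hr.1.le))
    rw [h1]
    push_cast
    ring
  set c : ℂ := ψ (2 * ζ) - ∫ t in (1 : ℝ)..2, ζ * deriv ψ (t * ζ) with hc
  have hlim : Tendsto (fun r : ℝ => ψ (r * ζ)) (𝓝[>] 1) (𝓝 c) := by
    have h1 : Tendsto (fun x : ℝ => ∫ t in x..2, ζ * deriv ψ (t * ζ)) (𝓝[uIcc 1 2] 1)
        (𝓝 (∫ t in (1 : ℝ)..2, ζ * deriv ψ (t * ζ))) := hprim 1 left_mem_uIcc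
    have h2 : 𝓝[>] (1 : ℝ) ≤ 𝓝[uIcc 1 2] 1 := by
      rw [uIcc_of_le h12]
      apply nhdsWithin_le_of_mem
      exact Filter.mem_of_superset (Ioo_mem_nhdsGT (show (1 : ℝ) < 2 by norm_num))
        Ioo_subset_Icc_self
    have h3 := (h1.mono_left h2).const_sub (ψ (2 * ζ))
    refine h3.congr' ?_
    filter_upwards [Ioo_mem_nhdsGT (show (1 : ℝ) < 2 by norm_num)] with r hr
    exact (hFTC r hr).symm
  refine ⟨c, ?_, hlim⟩
  obtain ⟨β, hβ⟩ := exists_beta hd
  rw [mem_multibrot_iff hd]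
  intro k
  cases k with
  | zero =>
    have : P d 0 c = 0 := rfl
    rw [this, norm_zero]; norm_num
  | succ n =>
    have h1 : Tendsto (fun r : ℝ => ‖P d (n + 1) (ψ (r * ζ))‖) (𝓝[>] 1) (𝓝 ‖P d (n + 1) c‖) :=
      ((continuous_P d (n + 1)).norm.tendsto c).comp hlim
    have h2 : Tendsto (fun r : ℝ => 2 * r ^ (d ^ n)) (𝓝[>] 1) (𝓝 (2 * 1 ^ (d ^ n))) :=
      ((by fun_prop : Continuous fun r : ℝ => 2 * r ^ (d ^ n)).tendsto 1).mono_left
        nhdsWithin_le_nhds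
    rw [one_pow, mul_one] at h2
    refine le_of_tendsto_of_tendsto h1 h2 ?_
    filter_upwards [self_mem_nhdsWithin] with r hr
    have hr1 : 1 < r := hr
    have h3 : 1 < ‖(r : ℂ) * ζ‖ := hmem r hr1
    rw [exteriorMap_unique hβ hψ h3]
    have h4 := P_psi_le hd hβ n h3
    rw [hn r (by linarith)] at h4
    exact h4

end Pool.Agent.H713R2.AR
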