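import Mathlib
import Pool.Agent.H713R2.AR.T1

set_option autoImplicit false

open Complex Topology Filter Metric MeasureTheory Set N62a1eb23 Polynomial

namespace Pool.Agent.H713R2.AR

open Pool.Agent.H713R2 Pool.Agent.H712R2

/-- Schwarz-Pick, in the form of a bound of the modulus. -/
theorem schwarz_pick_norm {s : ℂ → ℂ} (hs : DifferentiableOn ℂ s (ball 0 1))
    (hb : ∀ t ∈ ball (0 : ℂ) 1, ‖s t‖ ≤ 1) {A : ℝ} (hA0 : ‖s 0‖ ≤ A) (hA1 : A < 1) {t : ℂ}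
    (ht : t ∈ ball (0 : ℂ) 1) : ‖s t‖ * (1 + A * ‖t‖) ≤ A + ‖t‖ := by
  have h0 : (0 : ℂ) ∈ ball (0 : ℂ) 1 := mem_ball_self one_pos
  set α : ℂ := s 0 with hα
  have hα1 : ‖α‖ < 1 := hA0.trans_lt hA1
  have hα0 := norm_nonneg α
  have hden : ∀ z ∈ ball (0 : ℂ) 1, 1 - (starRingEnd ℂ) α * s z ≠ 0 := by
    intro z hz h
    have h1 : ‖(starRingEnd ℂ) α * s z‖ < 1 := by
      rw [norm_mul, RCLike.norm_conj]
      have := hb z hz
      nlinarith [norm_nonneg (s z)]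
    have h2 : (starRingEnd ℂ) α * s z = 1 := by linear_combination -h
    rw [h2, norm_one] at h1
    exact lt_irrefl _ h1
  have hid : ∀ w : ℂ, ‖1 - (starRingEnd ℂ) α * w‖ ^ 2 - ‖w - α‖ ^ 2 =
      (1 - ‖α‖ ^ 2) * (1 - ‖w‖ ^ 2) := by
    intro w
    rw [← Complex.normSq_eq_norm_sq, ← Complex.normSq_eq_norm_sq, ← Complex.normSq_eq_norm_sq,
      ← Complex.normSq_eq_norm_sq]
    simp only [Complex.normSq_apply, Complex.sub_re, Complex.sub_im, Complex.one_re,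
      Complex.one_im, Complex.mul_re, Complex.mul_im, Complex.conj_re, Complex.conj_im]
    ring
  set φ : ℂ → ℂ := fun z => (s z - α) / (1 - (starRingEnd ℂ) α * s z) with hφ
  have hφd : DifferentiableOn ℂ φ (ball 0 1) :=
    (hs.sub_const α).div ((differentiableOn_const 1).sub (hs.const_mul _)) hden
  have hφm : MapsTo φ (ball 0 1) (closedBall 0 1) := by
    intro z hz
    rw [mem_closedBall_zero_iff, hφ]
    simp only
    rw [norm_div, div_le_one (norm_pos_iff.mpr (hden z hz))]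
    have h1 := hid (s z)
    have h2 := hb z hz
    have h3 : 0 ≤ (1 - ‖α‖ ^ 2) * (1 - ‖s z‖ ^ 2) := by
      apply mul_nonneg
      · nlinarith
      · nlinarith [norm_nonneg (s z)]
    exact le_of_sq_le_sq (by linarith) (norm_nonneg _) |> fun h => h
  have hφ0 : φ 0 = 0 := by simp [hφ, hα]
  have h1 := Complex.norm_le_norm_of_mapsTo_ball hφd hφm hφ0 (mem_ball_zero_iff.mp ht)
  have htn : ‖t‖ < 1 := mem_ball_zero_iff.mp ht
  have ht0 := norm_nonneg t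
  set τ : ℝ := ‖t‖ with hτ
  set b : ℝ := ‖s t‖ with hb'
  have hb0 : 0 ≤ b := norm_nonneg _
  have hb1 : b ≤ 1 := hb t ht
  rw [hφ] at h1
  simp only at h1
  rw [norm_div, div_le_iff₀ (norm_pos_iff.mpr (hden t ht))] at h1
  have h2 : ‖s t - α‖ ^ 2 ≤ τ ^ 2 * ‖1 - (starRingEnd ℂ) α * s t‖ ^ 2 := by
    rw [← mul_pow]
    exact pow_le_pow_left₀ (norm_nonneg _) h1 2
  have h3 := hid (s t)
  have h4 : 1 - ‖α‖ * b ≤ ‖1 - (starRingEnd ℂ) α * s t‖ := by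
    have := norm_sub_norm_le (1 : ℂ) ((starRingEnd ℂ) α * s t)
    rw [norm_one, norm_mul, RCLike.norm_conj] at this
    exact this
  have h5 : 0 ≤ 1 - ‖α‖ * b := by nlinarith
  have h6 : (1 - ‖α‖ * b) ^ 2 ≤ ‖1 - (starRingEnd ℂ) α * s t‖ ^ 2 := pow_le_pow_left₀ h5 h4 2
  have h7 : (b - ‖α‖) ^ 2 ≤ (τ * (1 - ‖α‖ * b)) ^ 2 := by
    have h8 : 0 ≤ 1 - τ ^ 2 := by nlinarith
    nlinarith [mul_le_mul_of_nonneg_left h6 h8]
  have h8 : b - ‖α‖ ≤ τ * (1 - ‖α‖ * b) := abs_le_of_sq_le_sq' h7 (by positivity) |>.2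
  -- pass from `‖α‖` to `A`
  have h9 : b * (1 + ‖α‖ * τ) ≤ ‖α‖ + τ := by nlinarith
  have h10 : 0 < 1 + ‖α‖ * τ := by positivity
  have hA' : 0 ≤ A := hα0.trans hA0
  have h11 : (‖α‖ + τ) * (1 + A * τ) ≤ (A + τ) * (1 + ‖α‖ * τ) := by
    have : 0 ≤ (A - ‖α‖) * (1 - τ ^ 2) := mul_nonneg (by linarith) (by nlinarith)
    nlinarith
  have h12 : b * (1 + ‖α‖ * τ) * (1 + A * τ) ≤ (A + τ) * (1 + ‖α‖ * τ) :=
    (mul_le_mul_of_nonneg_right h9 (by positivity)).trans h11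
  have h13 : (b * (1 + A * τ)) * (1 + ‖α‖ * τ) ≤ (A + τ) * (1 + ‖α‖ * τ) := by linarith
  exact le_of_mul_le_mul_right h13 h10

theorem weighted_cs {J : ℕ} {p : ℕ → ℝ} (hp : ∀ j, 0 ≤ p j) (u v : ℕ → ℂ) :
    ‖∑ j ∈ Finset.range J, (p j : ℂ) * u j * (starRingEnd ℂ) (v j)‖ ≤
      √(∑ j ∈ Finset.range J, p j * ‖u j‖ ^ 2) * √(∑ j ∈ Finset.range J, p j * ‖v j‖ ^ 2) := by
  refine (norm_sum_le _ _).trans ?_
  have h1 : ∀ j, ‖(p j : ℂ) * u j * (starRingEnd ℂ) (v j)‖ =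
      (√(p j) * ‖u j‖) * (√(p j) * ‖v j‖) := by
    intro j
    rw [norm_mul, norm_mul, RCLike.norm_conj, Complex.norm_real, Real.norm_eq_abs,
      abs_of_nonneg (hp j)]
    nth_rewrite 1 [← Real.mul_self_sqrt (hp j)]
    ring
  simp only [h1]
  have h2 := Real.sum_mul_le_sqrt_mul_sqrt (Finset.range J) (fun j => √(p j) * ‖u j‖)
    (fun j => √(p j) * ‖v j‖)
  have h3 : ∀ w : ℕ → ℂ, ∑ j ∈ Finset.range J, (√(p j) * ‖w j‖) ^ 2 =
      ∑ j ∈ Finset.range J, p j * ‖w j‖ ^ 2 := by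
    intro w
    apply Finset.sum_congr rfl
    intro j _
    rw [mul_pow, Real.sq_sqrt (hp j)]
  rw [h3, h3] at h2
  exact h2

/-- Harnack inequality for holomorphic maps of the disc into a ball of a Hilbert space. -/
theorem vec_harnack {J : ℕ} {p : ℕ → ℝ} (hp : ∀ j, 0 ≤ p j) {q : ℝ} (hq : 0 < q)
    {f : ℕ → ℂ → ℂ} (hf : ∀ j, DifferentiableOn ℂ (f j) (ball 0 1))
    (h : ∀ t ∈ ball (0 : ℂ) 1, ∑ j ∈ Finset.range J, p j * ‖f j t‖ ^ 2 ≤ q) {t0 : ℂ}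
    (ht0 : t0 ∈ ball (0 : ℂ) 1) :
    (1 - ‖t0‖) * (q - ∑ j ∈ Finset.range J, p j * ‖f j 0‖ ^ 2) ≤
      (1 + ‖t0‖) * (q - ∑ j ∈ Finset.range J, p j * ‖f j t0‖ ^ 2) := by
  have h0 : (0 : ℂ) ∈ ball (0 : ℂ) 1 := mem_ball_self one_pos
  set τ : ℝ := ‖t0‖ with hτ
  have hτ0 : 0 ≤ τ := norm_nonneg _
  have hτ1 : τ < 1 := mem_ball_zero_iff.mp ht0
  set N : ℂ → ℝ := fun t => ∑ j ∈ Finset.range J, p j * ‖f j t‖ ^ 2 with hN
  have hN0 : ∀ t, 0 ≤ N t := fun t => Finset.sum_nonneg fun j _ => mul_nonneg (hp j) (by positivity)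
  change (1 - τ) * (q - N 0) ≤ (1 + τ) * (q - N t0)
  have hNt := h t0 ht0
  have hN00 := h 0 h0
  change N t0 ≤ q at hNt
  change N 0 ≤ q at hN00
  rcases hN00.eq_or_lt with he | hlt
  · rw [he, sub_self, mul_zero]
    exact mul_nonneg (by linarith) (by linarith)
  rcases (hN0 t0).eq_or_lt with he | hpos
  · rw [← he, sub_zero]
    have := hN0 0
    nlinarith
  set A : ℝ := √(N 0 / q) with hA
  have hAsq : A ^ 2 = N 0 / q := Real.sq_sqrt (div_nonneg (hN0 0) hq.le)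
  have hA0 : 0 ≤ A := Real.sqrt_nonneg _
  have hA1 : A < 1 := by
    rw [hA, Real.sqrt_lt' one_pos, one_pow, div_lt_one hq]
    exact hlt
  have hden : 0 < √q * √(N t0) := mul_pos (Real.sqrt_pos.mpr hq) (Real.sqrt_pos.mpr hpos)
  set s : ℂ → ℂ := fun t => (∑ j ∈ Finset.range J, (p j : ℂ) * f j t * (starRingEnd ℂ) (f j t0)) /
    ((√q * √(N t0) : ℝ) : ℂ) with hs
  have hsd : DifferentiableOn ℂ s (ball 0 1) := by
    apply DifferentiableOn.div_const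
    apply DifferentiableOn.fun_sum
    intro j _
    exact ((hf j).const_mul _).mul_const _
  have hsn : ∀ t, ‖s t‖ ≤ √(N t / q) := by
    intro t
    rw [hs]
    simp only
    rw [norm_div, Complex.norm_real, Real.norm_eq_abs, abs_of_pos hden, div_le_iff₀ hden]
    refine (weighted_cs hp (fun j => f j t) (fun j => f j t0)).trans (le_of_eq ?_)
    change √(N t) * √(N t0) = _
    rw [Real.sqrt_div (hN0 t)]
    have : √q ≠ 0 := (Real.sqrt_pos.mpr hq).ne'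
    field_simp
  have hsb : ∀ t ∈ ball (0 : ℂ) 1, ‖s t‖ ≤ 1 := by
    intro t ht
    refine (hsn t).trans ?_
    rw [Real.sqrt_le_one, div_le_one hq]
    exact h t ht
  have hst : ‖s t0‖ = √(N t0 / q) := by
    apply le_antisymm (hsn t0)
    rw [hs]
    simp only
    have h1 : ∑ j ∈ Finset.range J, (p j : ℂ) * f j t0 * (starRingEnd ℂ) (f j t0) =
        ((N t0 : ℝ) : ℂ) := by
      rw [hN]
      push_cast
      apply Finset.sum_congr rfl
      intro j _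
      rw [mul_assoc, Complex.mul_conj, Complex.normSq_eq_norm_sq]
      push_cast
      ring
    rw [h1, norm_div, Complex.norm_real, Complex.norm_real, Real.norm_eq_abs, Real.norm_eq_abs,
      abs_of_pos hden, abs_of_pos hpos, le_div_iff₀ hden, Real.sqrt_div hpos.le]
    have h2 : √q ≠ 0 := (Real.sqrt_pos.mpr hq).ne'
    have h3 : √(N t0) / √q * (√q * √(N t0)) = √(N t0) * √(N t0) := by field_simp
    rw [h3, Real.mul_self_sqrt hpos.le]
  have hsp := schwarz_pick_norm hsd hsb (A := A) (hsn 0) hA1 ht0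
  rw [hst] at hsp
  set b : ℝ := √(N t0 / q) with hb
  have hbsq : b ^ 2 = N t0 / q := Real.sq_sqrt (div_nonneg hpos.le hq.le)
  have hb0 : 0 ≤ b := Real.sqrt_nonneg _
  have h1 : (b * (1 + A * τ)) ^ 2 ≤ (A + τ) ^ 2 := pow_le_pow_left₀ (by positivity) hsp 2
  have hb1 : b ^ 2 ≤ 1 := by rw [hbsq, div_le_one hq]; exact hNt
  have h2 : (1 - A ^ 2) * (1 - τ ^ 2) ≤ (1 - b ^ 2) * (1 + τ) ^ 2 := by
    have h3 : (1 + A * τ) ^ 2 ≤ (1 + τ) ^ 2 := pow_le_pow_left₀ (by positivity) (by nlinarith) 2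
    have h4 : (1 - b ^ 2) * (1 + A * τ) ^ 2 ≤ (1 - b ^ 2) * (1 + τ) ^ 2 :=
      mul_le_mul_of_nonneg_left h3 (by linarith)
    nlinarith
  have h3 : (1 - A ^ 2) * (1 - τ) ≤ (1 - b ^ 2) * (1 + τ) := by
    have h4 : ((1 - A ^ 2) * (1 - τ)) * (1 + τ) ≤ ((1 - b ^ 2) * (1 + τ)) * (1 + τ) := by
      nlinarith
    exact le_of_mul_le_mul_right h4 (by linarith)
  rw [hAsq, hbsq] at h3
  have h4 : (1 - τ) * (q - N 0) = q * ((1 - N 0 / q) * (1 - τ)) := by field_simp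
  have h5 : (1 + τ) * (q - N t0) = q * ((1 - N t0 / q) * (1 + τ)) := by field_simp
  rw [h4, h5]
  exact mul_le_mul_of_nonneg_left h3 hq.le

theorem family_harnack {R ρ : ℝ} (hρ : 0 < ρ) (hρR : ρ < R) {g : ℂ → ℂ → ℂ}
    (hg : ∀ t ∈ ball (0 : ℂ) 1, IsExt R (g t))
    (hhol : ∀ n j, DifferentiableOn ℂ (fun t => pc (g t) n j) (ball 0 1))
    {m : ℕ} (hm : 1 ≤ m) {t0 : ℂ} (ht0 : t0 ∈ ball (0 : ℂ) 1) :
    (1 - ‖t0‖) * (1 / Real.pi *
        ∫ z in (UU (g 0) ρ)ᶜ, ‖(derivative (Fb (pc (g 0)) m)).eval z‖ ^ 2) ≤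
      (1 + ‖t0‖) * (1 / Real.pi *
        ∫ z in (UU (g t0) ρ)ᶜ, ‖(derivative (Fb (pc (g t0)) m)).eval z‖ ^ 2) := by
  have h0 : (0 : ℂ) ∈ ball (0 : ℂ) 1 := mem_ball_self one_pos
  have hmR : (0 : ℝ) < m := by exact_mod_cast hm
  have hpi := Real.pi_pos
  set q : ℝ := m * (ρ ^ (2 * m))⁻¹ with hq
  have hq0 : 0 < q := by rw [hq]; positivity
  set Ar : ℂ → ℝ := fun t => 1 / Real.pi *
    ∫ z in (UU (g t) ρ)ᶜ, ‖(derivative (Fb (pc (g t)) m)).eval z‖ ^ 2 with hAr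
  have hAr0 : ∀ t, 0 ≤ Ar t := fun t =>
    mul_nonneg (by positivity) (integral_nonneg fun z => by positivity)
  set p : ℕ → ℝ := fun j => ((j : ℝ) + 1) * ρ ^ (2 * (j + 1)) with hp
  have hp0 : ∀ j, 0 ≤ p j := fun j => by rw [hp]; positivity
  set f : ℕ → ℂ → ℂ := fun j t => hb (pc (g t)) m (m + (j + 1)) with hf
  have hfd : ∀ j, DifferentiableOn ℂ (f j) (ball 0 1) := fun j =>
    hb_differentiableOn hhol m (m + (j + 1))
  have hsum : ∀ t ∈ ball (0 : ℂ) 1, HasSum (fun j => p j * ‖f j t‖ ^ 2) (q - Ar t) := fun t ht =>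
    area_eq hρ hρR (hg t ht) hm
  have hle : ∀ J, ∀ t ∈ ball (0 : ℂ) 1, ∑ j ∈ Finset.range J, p j * ‖f j t‖ ^ 2 ≤ q := by
    intro J t ht
    have h1 := sum_le_hasSum (Finset.range J) (fun j _ => mul_nonneg (hp0 j) (by positivity))
      (hsum t ht)
    have h2 := hAr0 t
    linarith
  have hJ : ∀ J, (1 - ‖t0‖) * (q - ∑ j ∈ Finset.range J, p j * ‖f j 0‖ ^ 2) ≤
      (1 + ‖t0‖) * (q - ∑ j ∈ Finset.range J, p j * ‖f j t0‖ ^ 2) := fun J =>
    vec_harnack hp0 hq0 hfd (hle J) ht0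
  have hl1 := ((hsum 0 h0).tendsto_sum_nat.const_sub q).const_mul (1 - ‖t0‖)
  have hl2 := ((hsum t0 ht0).tendsto_sum_nat.const_sub q).const_mul (1 + ‖t0‖)
  have h1 := le_of_tendsto_of_tendsto' hl1 hl2 hJ
  rw [sub_sub_cancel, sub_sub_cancel] at h1
  exact h1

theorem measurableSet_KK {d : ℕ} (hd : 2 ≤ d) {c : ℂ} (hc : ‖c‖ ≤ 2) : MeasurableSet (KK d c) := by
  have h := iInter_EE hd hc
  rw [KK, ← h]
  exact MeasurableSet.iInter fun j => (isCompact_EE hd hc j).isClosed.measurableSet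

theorem harnack_disc {d a : ℕ} (ha : a + 2 ≤ d) {γ : ℂ → ℂ}
    (hγ : DifferentiableOn ℂ γ (ball 0 1)) (hγM : ∀ t ∈ ball (0 : ℂ) 1, γ t ∈ multibrotSet d)
    {t0 : ℂ} (ht0 : t0 ∈ ball (0 : ℂ) 1) :
    (1 - ‖t0‖) * ∫ z in KK d (γ 0), ‖z‖ ^ (2 * a) ≤
      (1 + ‖t0‖) * ∫ z in KK d (γ t0), ‖z‖ ^ (2 * a) := by
  have hd : 2 ≤ d := by omega
  have hpi := Real.pi_pos
  have h0 : (0 : ℂ) ∈ ball (0 : ℂ) 1 := mem_ball_self one_pos
  have hτ1 : ‖t0‖ < 1 := mem_ball_zero_iff.mp ht0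
  have hτ0 := norm_nonneg t0
  have hB : ∀ t ∈ ball (0 : ℂ) 1, Bd d (γ t) := fun t ht => (mem_multibrot_iff hd _).mp (hγM t ht)
  have hB2 : ∀ t ∈ ball (0 : ℂ) 1, ‖γ t‖ ≤ 2 := fun t ht => by
    have := hB t ht 1; rwa [P_one hd] at this
  obtain ⟨G, hG⟩ := exists_seq hd
  have hFb : ∀ j, ∀ t ∈ ball (0 : ℂ) 1, Fb (pc (fun x => G j (γ t, x))) (a + 1) = X ^ (a + 1) := by
    intro j t ht
    rw [Fb_eq]
    have : ∑ k : Fin (a + 1), C (pc (fun x => G j (γ t, x)) (a + 1) (a + 1 - k)) *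
        Fb (pc (fun x => G j (γ t, x))) k = 0 := by
      apply Finset.sum_eq_zero
      intro k _
      have hk := k.2
      rw [pc_low hd hG j (hB t ht) _ _ (by omega) (by omega)]
      simp
    rw [this, sub_zero]
  have hint : ∀ z : ℂ, ‖(derivative (X ^ (a + 1) : ℂ[X])).eval z‖ ^ 2 =
      ((a + 1 : ℕ) : ℝ) ^ 2 * ‖z‖ ^ (2 * a) := by
    intro z
    rw [derivative_X_pow]
    simp only [eval_mul, eval_C, eval_pow, eval_X]
    rw [norm_mul, norm_pow, Complex.norm_natCast, mul_pow, ← pow_mul,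
      show a + 1 - 1 = a by omega, mul_comm a 2]
  set I : Set ℂ → ℝ := fun S => ∫ z in S, ‖z‖ ^ (2 * a) with hI
  -- finite levels
  have hlev : ∀ j, (1 - ‖t0‖) * I (KK d (γ 0)) ≤ (1 + ‖t0‖) * I (EE d (γ t0) j) := by
    intro j
    have h1 := family_harnack (rho_pos d j) (rho_lt hd j) (g := fun t x => G j (γ t, x))
      (fun t ht => isExt_seq hd hG j (hB t ht))
      (fun n k => pc_holo hd hG hγ hB j n k) (m := a + 1) (by omega) ht0
    simp only [hFb j 0 h0, hFb j t0 ht0, hint] at h1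
    rw [integral_const_mul, integral_const_mul] at h1
    have hfac : 0 < 1 / Real.pi * ((a + 1 : ℕ) : ℝ) ^ 2 := by positivity
    have h2 : (1 - ‖t0‖) * I ((UU (fun x => G j (γ 0, x)) (rho d j))ᶜ) ≤
        (1 + ‖t0‖) * I ((UU (fun x => G j (γ t0, x)) (rho d j))ᶜ) := by
      refine le_of_mul_le_mul_left ?_ hfac
      calc _ = (1 - ‖t0‖) * (1 / Real.pi * (((a + 1 : ℕ) : ℝ) ^ 2 *
            ∫ z in (UU (fun x => G j (γ 0, x)) (rho d j))ᶜ, ‖z‖ ^ (2 * a))) := by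
            rw [hI]; ring
        _ ≤ _ := h1
        _ = _ := by rw [hI]; ring
    have hsub1 : KK d (γ 0) ⊆ (UU (fun x => G j (γ 0, x)) (rho d j))ᶜ := by
      rintro z hz ⟨x, ⟨hx0, hxr⟩, hx⟩
      have hz' : z ∈ ⋂ j, EE d (γ 0) j := by rw [iInter_EE hd (hB2 0 h0)]; exact hz
      have hzj : ‖(fc d (γ 0))^[j] z‖ ≤ 3 := mem_iInter.mp hz' j
      have hxA : (γ 0, x) ∈ AA d j := mem_AA_of_Bd hd (hB 0 h0)
        (mem_ball_zero_iff.mpr (hxr.trans (rho_lt hd j)))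
      have h3 := (hG.isG j).conj (γ 0) x hxA hx0
      simp only at hx
      rw [hx] at h3
      rw [h3, norm_pow, norm_inv, inv_pow] at hzj
      have hxp : 0 < ‖x‖ ^ (d ^ j) := by have := norm_pos_iff.mpr hx0; positivity
      have h4 : ‖x‖ ^ (d ^ j) < rho d j ^ (d ^ j) :=
        pow_lt_pow_left₀ hxr (norm_nonneg _) (pow_ne_zero _ (by omega))
      rw [rho_pow hd] at h4
      have h5 : 3 < (‖x‖ ^ (d ^ j))⁻¹ := by
        rw [lt_inv_comm₀ (by norm_num) hxp]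
        rwa [one_div] at h4
      linarith
    have hsub2 : (UU (fun x => G j (γ t0, x)) (rho d j))ᶜ ⊆ EE d (γ t0) j :=
      compl_UU_subset hd hG j (hB t0 ht0)
    have hsub3 : (UU (fun x => G j (γ 0, x)) (rho d j))ᶜ ⊆ EE d (γ 0) j :=
      compl_UU_subset hd hG j (hB 0 h0)
    have hcont : ∀ t ∈ ball (0 : ℂ) 1, IntegrableOn (fun z : ℂ => ‖z‖ ^ (2 * a))
        (EE d (γ t) j) := fun t ht =>
      ((continuous_norm.pow _).continuousOn).integrableOn_compact (isCompact_EE hd (hB2 t ht) j)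
    have h3 : I (KK d (γ 0)) ≤ I ((UU (fun x => G j (γ 0, x)) (rho d j))ᶜ) :=
      setIntegral_mono_set ((hcont 0 h0).mono_set hsub3)
        (Filter.Eventually.of_forall fun z => by positivity) hsub1.eventuallyLE
    have h4 : I ((UU (fun x => G j (γ t0, x)) (rho d j))ᶜ) ≤ I (EE d (γ t0) j) :=
      setIntegral_mono_set (hcont t0 ht0)
        (Filter.Eventually.of_forall fun z => by positivity) hsub2.eventuallyLE
    calc (1 - ‖t0‖) * I (KK d (γ 0)) ≤ (1 - ‖t0‖) * I ((UU (fun x => G j (γ 0, x)) (rho d j))ᶜ) :=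
          mul_le_mul_of_nonneg_left h3 (by linarith)
      _ ≤ _ := h2
      _ ≤ _ := mul_le_mul_of_nonneg_left h4 (by linarith)
  have hlim : Tendsto (fun j => I (EE d (γ t0) j)) atTop (𝓝 (I (KK d (γ t0)))) := by
    have hf : Continuous fun z : ℂ => ‖z‖ ^ (2 * a) := by fun_prop
    have h1 := tendsto_setIntegral_of_antitone (μ := volume) (f := fun z : ℂ => ‖z‖ ^ (2 * a))
      (s := EE d (γ t0))
      (fun j => (isCompact_EE hd (hB2 t0 ht0) j).isClosed.measurableSet) (EE_anti hd (hB2 t0 ht0))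
      ⟨0, hf.continuousOn.integrableOn_compact (isCompact_EE hd (hB2 t0 ht0) 0)⟩
    rw [iInter_EE hd (hB2 t0 ht0)] at h1
    exact h1
  exact ge_of_tendsto' (hlim.const_mul (1 + ‖t0‖)) hlev

/-- The two-sided Harnack inequality. -/
theorem harnack_main {d a : ℕ} (ha : a + 2 ≤ d) {V : Set ℂ} (hV : IsOpen V)
    (hVc : IsPreconnected V) {γ : ℂ → ℂ} (hγ : DifferentiableOn ℂ γ (ball 0 1))
    (hγV : ∀ t ∈ ball (0 : ℂ) 1, γ t ∈ V) (hc : γ 0 ∈ multibrotSet d)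
    (hno : (∀ c' ∈ V, ¬ ∃ m z, IsAttractingCycle (fun z => z ^ d + c') m z) ∨
      V ⊆ multibrotSet d) {t0 : ℂ} (ht0 : t0 ∈ ball (0 : ℂ) 1) :
    (1 - ‖t0‖) / (1 + ‖t0‖) * ∫ z in KK d (γ 0), ‖z‖ ^ (2 * a) ≤
        ∫ z in KK d (γ t0), ‖z‖ ^ (2 * a) ∧
      ∫ z in KK d (γ t0), ‖z‖ ^ (2 * a) ≤
        (1 + ‖t0‖) / (1 - ‖t0‖) * ∫ z in KK d (γ 0), ‖z‖ ^ (2 * a) := by
  have hVM : V ⊆ multibrotSet d := by
    rcases hno with h | h
    · exact open_subset (by omega) hV hVc (hγV 0 (mem_ball_self one_pos)) hc h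
    · exact h
  have hγM : ∀ t ∈ ball (0 : ℂ) 1, γ t ∈ multibrotSet d := fun t ht => hVM (hγV t ht)
  have hτ1 : ‖t0‖ < 1 := mem_ball_zero_iff.mp ht0
  have hτ0 := norm_nonneg t0
  constructor
  · have h1 := harnack_disc ha hγ hγM ht0
    rw [div_mul_eq_mul_div, div_le_iff₀ (by linarith)]
    linarith
  · -- swap the two points
    set σ : ℂ → ℂ := fun z => (t0 - z) / (1 - (starRingEnd ℂ) t0 * z) with hσ
    have hden : ∀ z ∈ ball (0 : ℂ) 1, 1 - (starRingEnd ℂ) t0 * z ≠ 0 := by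
      intro z hz h
      rw [mem_ball_zero_iff] at hz
      have h1 : ‖(starRingEnd ℂ) t0 * z‖ < 1 := by
        rw [norm_mul, RCLike.norm_conj]
        nlinarith [norm_nonneg z]
      have h2 : (starRingEnd ℂ) t0 * z = 1 := by linear_combination -h
      rw [h2, norm_one] at h1
      exact lt_irrefl _ h1
    have hσd : DifferentiableOn ℂ σ (ball 0 1) :=
      DifferentiableOn.div (by fun_prop) (by fun_prop) hden
    have hσm : ∀ z ∈ ball (0 : ℂ) 1, σ z ∈ ball (0 : ℂ) 1 := by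
      intro z hz
      have hd1 := hden z hz
      rw [mem_ball_zero_iff] at hz ⊢
      rw [hσ]
      simp only
      rw [norm_div, div_lt_one (norm_pos_iff.mpr hd1)]
      have hid : ‖1 - (starRingEnd ℂ) t0 * z‖ ^ 2 - ‖t0 - z‖ ^ 2 =
          (1 - ‖t0‖ ^ 2) * (1 - ‖z‖ ^ 2) := by
        rw [← Complex.normSq_eq_norm_sq, ← Complex.normSq_eq_norm_sq, ← Complex.normSq_eq_norm_sq,
          ← Complex.normSq_eq_norm_sq]
        simp only [Complex.normSq_apply, Complex.sub_re, Complex.sub_im, Complex.one_re,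
          Complex.one_im, Complex.mul_re, Complex.mul_im, Complex.conj_re, Complex.conj_im]
        ring
      have h3 : 0 < (1 - ‖t0‖ ^ 2) * (1 - ‖z‖ ^ 2) := by
        apply mul_pos
        · nlinarith
        · nlinarith [norm_nonneg z]
      exact lt_of_pow_lt_pow_left₀ 2 (norm_nonneg _) (by linarith)
    have h1 := harnack_disc ha (γ := fun z => γ (σ z)) (hγ.comp hσd hσm)
      (fun t ht => hγM _ (hσm t ht)) ht0
    have h2 : σ 0 = t0 := by simp [hσ]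
    have h3 : σ t0 = 0 := by simp [hσ]
    simp only [h2, h3] at h1
    rw [div_mul_eq_mul_div, le_div_iff₀ (by linarith)]
    linarith

end Pool.Agent.H713R2.AR
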